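import Pool.Agent.W789.SOP.Basic

set_option autoImplicit false
open MeasureTheory Polynomial

namespace Pool.Agent.W789.SOP

theorem poly_bound (p : ℝ[X]) (N : ℕ) (h : p.natDegree ≤ N) :
    ∃ S : ℝ, 0 ≤ S ∧ ∀ x : ℝ, 1 ≤ |x| → |p.eval x| ≤ S * |x| ^ N := by
  refine ⟨∑ i ∈ Finset.range (N + 1), |p.coeff i|, Finset.sum_nonneg (fun i _ => abs_nonneg _), ?_⟩
  intro x hx
  rw [eval_eq_sum_range' (lt_of_le_of_lt h (Nat.lt_succ_self N)), Finset.sum_mul]
  refine (Finset.abs_sum_le_sum_abs _ _).trans (Finset.sum_le_sum (fun i hi => ?_))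
  rw [abs_mul, abs_pow]
  refine mul_le_mul_of_nonneg_left ?_ (abs_nonneg _)
  exact pow_le_pow_right₀ hx (Nat.lt_succ_iff.mp (Finset.mem_range.mp hi))

theorem compact_support {φ : Measure ℝ} (hφ : ∀ k : ℕ, Integrable (fun x : ℝ => x ^ k) φ)
    {a b : ℝ[X]} (hA : ∀ g : ℝ[X], ∫ x, (a * derivative g + b * g).eval x ∂φ = 0)
    (ha : a ≠ 0) (hn : b.natDegree < a.natDegree) :
    ∃ R : ℝ, 0 < R ∧ φ {x | R ≤ |x|} = 0 := by
  have : IsFiniteMeasure φ := by
    have := hφ 0
    simp only [pow_zero] at this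
    exact (integrable_const_iff_isFiniteMeasure (by norm_num)).mp this
  set e := a.natDegree with he
  set l := a.leadingCoeff with hl
  have l0 : 0 < |l| := abs_pos.mpr (leadingCoeff_ne_zero.mpr ha)
  obtain ⟨S, hS0, hS⟩ := poly_bound a.eraseLead (e - 1) (eraseLead_natDegree_le a)
  obtain ⟨Sb, hSb0, hSb⟩ := poly_bound b (e - 1) (by omega)
  set R0 : ℝ := max 1 (4 * S / |l|) with hR0
  have R1 : 1 ≤ R0 := le_max_left _ _
  have R2 : 4 * S / |l| ≤ R0 := le_max_right _ _
  have R0pos : 0 < R0 := by linarith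
  -- bound on the compact part
  obtain ⟨M, hM0, hM⟩ : ∃ M : ℝ, 0 ≤ M ∧ ∀ x : ℝ, |x| ≤ R0 → |a.eval x| ≤ M ∧ |x * b.eval x| ≤ M := by
    have c1 : ContinuousOn (fun x : ℝ => |a.eval x| + |x * b.eval x|) (Set.Icc (-R0) R0) := by
      fun_prop
    obtain ⟨M, hM⟩ := (isCompact_Icc.image_of_continuousOn c1).bddAbove
    refine ⟨max M 0, le_max_right _ _, fun x hx => ?_⟩
    have h1 : |a.eval x| + |x * b.eval x| ≤ M :=
      hM ⟨x, ⟨by linarith [(abs_le.mp hx).1], (abs_le.mp hx).2⟩, rfl⟩
    constructor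
    · exact le_trans (by linarith [abs_nonneg (x * b.eval x)]) (le_max_left _ _)
    · exact le_trans (by linarith [abs_nonneg (a.eval x)]) (le_max_left _ _)
  set σ : ℝ := ((SignType.sign l : SignType) : ℝ) with hσ
  have hσl : σ * l = |l| := by rw [hσ]; exact sign_mul_self l
  have hσ1 : |σ| ≤ 1 := by
    rw [hσ]
    rcases lt_trichotomy l 0 with h | h | h
    · rw [sign_neg h]; simp
    · rw [h]; simp
    · rw [sign_pos h]; simp
  refine ⟨2 * R0, by linarith, ?_⟩
  -- main estimate
  have main : ∀ j : ℕ, 4 * Sb / |l| ≤ (2 * j + 1 + e % 2 : ℕ) →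
      φ.real {x | 2 * R0 ≤ |x|} * 2 ^ (2 * j + e % 2) * |l| ≤ 4 * M * φ.real Set.univ := by
    intro j hj
    set m : ℕ := 2 * j + 1 + e % 2 with hm
    have hm1 : 1 ≤ m := by omega
    have hev : Even (m - 1 + e) := ⟨j + (e + e % 2) / 2, by omega⟩
    have hG := hA (X ^ m)
    set G : ℝ → ℝ := fun x => σ * (a * derivative (X ^ m) + b * X ^ m).eval x with hGdef
    have hGi : ∫ x, G x ∂φ = 0 := by
      rw [hGdef, integral_const_mul, hG, mul_zero]
    have hGx : ∀ x, G x = σ * (x ^ (m - 1) * (m * a.eval x + x * b.eval x)) := by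
      intro x
      rw [hGdef]
      simp only [eval_add, eval_mul, derivative_X_pow, eval_pow, eval_X, eval_C, eval_natCast]
      have : x ^ m = x ^ (m - 1) * x := by
        rw [← pow_succ]; congr 1; omega
      rw [this]; ring
    have hGint : Integrable G φ := (int_poly hφ _).const_mul σ
    have hlarge : ∀ x, R0 ≤ |x| → |x| ^ (m - 1 + e) * (m * |l| / 2) ≤ G x := by
      intro x hx
      have hx1 : 1 ≤ |x| := R1.trans hx
      have hxpos : 0 < |x| := by linarith
      have e1 : a.eval x = l * x ^ e + a.eraseLead.eval x := by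
        conv_lhs => rw [← a.eraseLead_add_C_mul_X_pow]
        simp only [eval_add, eval_mul, eval_C, eval_pow, eval_X]
        ring
      have e2 : x ^ (m - 1 + e) = |x| ^ (m - 1 + e) := (hev.pow_abs x).symm
      have e3 : G x = m * |l| * |x| ^ (m - 1 + e) + σ * (m * (x ^ (m - 1) * a.eraseLead.eval x)
          + x ^ m * b.eval x) := by
        have : x ^ m = x ^ (m - 1) * x := by
          rw [← pow_succ]; congr 1; omega
        rw [hGx, e1, ← e2, ← hσl, pow_add, this]; ring
      have b1 : |x ^ (m - 1) * a.eraseLead.eval x| ≤ |x| ^ (m - 1 + e) * (|l| / 4) := by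
        rw [abs_mul, abs_pow]
        have h1 := hS x hx1
        have h2 : |x| ^ (m - 1) * |a.eraseLead.eval x| ≤ |x| ^ (m - 1) * (S * |x| ^ (e - 1)) :=
          mul_le_mul_of_nonneg_left h1 (by positivity)
        refine h2.trans ?_
        have h3 : |x| ^ (m - 1 + e) = |x| ^ (m - 1) * |x| ^ (e - 1) * |x| := by
          rw [mul_assoc, ← pow_succ, ← pow_add]; congr 1; omega
        rw [h3]
        have h4 : S ≤ |x| * (|l| / 4) := by
          have : 4 * S ≤ R0 * |l| := by
            rw [div_le_iff₀ l0] at R2; exact R2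
          nlinarith [mul_le_mul_of_nonneg_right hx l0.le]
        calc |x| ^ (m - 1) * (S * |x| ^ (e - 1)) = |x| ^ (m - 1) * |x| ^ (e - 1) * S := by ring
          _ ≤ |x| ^ (m - 1) * |x| ^ (e - 1) * (|x| * (|l| / 4)) :=
              mul_le_mul_of_nonneg_left h4 (by positivity)
          _ = _ := by ring
      have b2 : |x ^ m * b.eval x| ≤ |x| ^ (m - 1 + e) * (m * |l| / 4) := by
        rw [abs_mul, abs_pow]
        have h1 := hSb x hx1
        have h2 : |x| ^ m * |b.eval x| ≤ |x| ^ m * (Sb * |x| ^ (e - 1)) :=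
          mul_le_mul_of_nonneg_left h1 (by positivity)
        refine h2.trans ?_
        have h3 : |x| ^ (m - 1 + e) = |x| ^ m * |x| ^ (e - 1) := by
          rw [← pow_add]; congr 1; omega
        rw [h3]
        have h4 : Sb ≤ m * |l| / 4 := by
          rw [div_le_iff₀ l0] at hj
          linarith
        calc |x| ^ m * (Sb * |x| ^ (e - 1)) = |x| ^ m * |x| ^ (e - 1) * Sb := by ring
          _ ≤ |x| ^ m * |x| ^ (e - 1) * (m * |l| / 4) :=
              mul_le_mul_of_nonneg_left h4 (by positivity)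
      have b3 : -(m * (|x| ^ (m - 1 + e) * (|l| / 4)) + |x| ^ (m - 1 + e) * (m * |l| / 4)) ≤
          σ * (m * (x ^ (m - 1) * a.eraseLead.eval x) + x ^ m * b.eval x) := by
        refine (abs_le.mp ?_).1
        rw [abs_mul]
        calc |σ| * |m * (x ^ (m - 1) * a.eraseLead.eval x) + x ^ m * b.eval x|
            ≤ 1 * |m * (x ^ (m - 1) * a.eraseLead.eval x) + x ^ m * b.eval x| :=
              mul_le_mul_of_nonneg_right hσ1 (abs_nonneg _)
          _ ≤ |m * (x ^ (m - 1) * a.eraseLead.eval x)| + |x ^ m * b.eval x| := by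
              rw [one_mul]; exact abs_add_le _ _
          _ ≤ _ := by
              rw [abs_mul, Nat.abs_cast]
              exact add_le_add (mul_le_mul_of_nonneg_left b1 (Nat.cast_nonneg m)) b2
      rw [e3]
      linarith
    have hsmall : ∀ x, |x| ≤ R0 → - (R0 ^ (m - 1) * ((m + 1) * M)) ≤ G x := by
      intro x hx
      obtain ⟨h1, h2⟩ := hM x hx
      refine (abs_le.mp ?_).1
      rw [hGx, abs_mul, abs_mul, abs_pow]
      calc |σ| * (|x| ^ (m - 1) * |m * a.eval x + x * b.eval x|)
          ≤ 1 * (R0 ^ (m - 1) * ((m + 1) * M)) := by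
            refine mul_le_mul hσ1 ?_ (by positivity) zero_le_one
            refine mul_le_mul (pow_le_pow_left₀ (abs_nonneg x) hx _) ?_ (abs_nonneg _)
              (by positivity)
            calc |m * a.eval x + x * b.eval x| ≤ |m * a.eval x| + |x * b.eval x| := abs_add_le _ _
              _ ≤ m * M + M := by
                  rw [abs_mul, Nat.abs_cast]
                  exact add_le_add (mul_le_mul_of_nonneg_left h1 (Nat.cast_nonneg m)) h2
              _ = (m + 1) * M := by ring
        _ = _ := one_mul _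
    set E : Set ℝ := {x | 2 * R0 ≤ |x|} with hE
    have hEm : MeasurableSet E := measurableSet_le measurable_const continuous_abs.measurable
    have hlow : ∀ x, E.indicator (fun _ => (2 * R0) ^ (m - 1 + e) * (m * |l| / 2)) x
        - R0 ^ (m - 1) * ((m + 1) * M) ≤ G x := by
      intro x
      have hc : 0 ≤ R0 ^ (m - 1) * ((m + 1) * M) := by positivity
      by_cases hx : x ∈ E
      · rw [Set.indicator_of_mem hx]
        have hx2 : 2 * R0 ≤ |x| := hx
        have h1 := hlarge x (by linarith)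
        have h2 : (2 * R0) ^ (m - 1 + e) * (m * |l| / 2) ≤ |x| ^ (m - 1 + e) * (m * |l| / 2) :=
          mul_le_mul_of_nonneg_right (pow_le_pow_left₀ (by positivity) hx2 _) (by positivity)
        linarith
      · rw [Set.indicator_of_notMem hx]
        by_cases hx3 : |x| ≤ R0
        · have := hsmall x hx3
          linarith
        · have h1 := hlarge x (le_of_lt (not_le.mp hx3))
          have : 0 ≤ |x| ^ (m - 1 + e) * (m * |l| / 2) := by positivity
          linarith
    have hint : Integrable (fun x => E.indicator (fun _ => (2 * R0) ^ (m - 1 + e)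
        * (m * |l| / 2)) x - R0 ^ (m - 1) * ((m + 1) * M)) φ :=
      ((integrable_const _).indicator hEm).sub (integrable_const _)
    have hI := integral_mono hint hGint hlow
    rw [hGi, integral_sub ((integrable_const _).indicator hEm) (integrable_const _),
      integral_indicator_const _ hEm, integral_const, smul_eq_mul, smul_eq_mul] at hI
    -- simplify
    have hm0 : (0 : ℝ) < m := by exact_mod_cast hm1
    have hexp : m - 1 = 2 * j + e % 2 := by omega
    have k1 : (2 * R0) ^ (m - 1 + e) ≥ 2 ^ (m - 1) * R0 ^ (m - 1) := by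
      rw [pow_add, mul_pow]
      have : 1 ≤ (2 * R0) ^ e := one_le_pow₀ (by linarith)
      nlinarith [show 0 < 2 ^ (m - 1) * R0 ^ (m - 1) by positivity]
    have k2 : φ.real E * (2 ^ (m - 1) * R0 ^ (m - 1) * (m * |l| / 2))
        ≤ φ.real E * ((2 * R0) ^ (m - 1 + e) * (m * |l| / 2)) :=
      mul_le_mul_of_nonneg_left (mul_le_mul_of_nonneg_right k1 (by positivity)) measureReal_nonneg
    have k3 : φ.real E * (2 ^ (m - 1) * R0 ^ (m - 1) * (m * |l| / 2))
        ≤ φ.real Set.univ * (R0 ^ (m - 1) * ((m + 1) * M)) := by linarith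
    have k4 : (m : ℝ) + 1 ≤ 2 * m := by
      have : (1 : ℝ) ≤ m := by exact_mod_cast hm1
      linarith
    have k5 : φ.real Set.univ * (R0 ^ (m - 1) * ((m + 1) * M))
        ≤ φ.real Set.univ * (R0 ^ (m - 1) * ((2 * m) * M)) := by
      refine mul_le_mul_of_nonneg_left ?_ measureReal_nonneg
      exact mul_le_mul_of_nonneg_left (mul_le_mul_of_nonneg_right k4 hM0) (by positivity)
    have k6 : (R0 ^ (m - 1) * m / 2) * (φ.real E * 2 ^ (m - 1) * |l|)
        ≤ (R0 ^ (m - 1) * m / 2) * (4 * M * φ.real Set.univ) := by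
      calc (R0 ^ (m - 1) * m / 2) * (φ.real E * 2 ^ (m - 1) * |l|)
          = φ.real E * (2 ^ (m - 1) * R0 ^ (m - 1) * (m * |l| / 2)) := by ring
        _ ≤ φ.real Set.univ * (R0 ^ (m - 1) * ((2 * m) * M)) := k3.trans k5
        _ = _ := by ring
    have k7 := le_of_mul_le_mul_left k6 (by positivity)
    rw [hexp] at k7
    exact k7
  -- conclusion
  have hreal : φ.real {x | 2 * R0 ≤ |x|} = 0 := by
    by_contra hne
    have hpos : 0 < φ.real {x | 2 * R0 ≤ |x|} := lt_of_le_of_ne measureReal_nonneg (Ne.symm hne)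
    set P := φ.real {x | 2 * R0 ≤ |x|} with hP
    obtain ⟨n, hn'⟩ := exists_nat_gt (max (4 * Sb / |l|) (4 * M * φ.real Set.univ / (P * |l|)))
    have h1 := main n (by
      have := (le_max_left _ _).trans hn'.le
      refine this.trans ?_
      push_cast
      have : (0 : ℝ) ≤ ((e % 2 : ℕ) : ℝ) := Nat.cast_nonneg _
      have h2 : (0 : ℝ) ≤ n := Nat.cast_nonneg _
      push_cast at this
      linarith)
    have h2 : (4 * M * φ.real Set.univ / (P * |l|)) < n := (le_max_right _ _).trans_lt hn'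
    rw [div_lt_iff₀ (by positivity)] at h2
    have h3 : (n : ℝ) ≤ 2 ^ (2 * n + e % 2) := by
      have : n < 2 ^ (2 * n + e % 2) := lt_of_lt_of_le Nat.lt_two_pow_self
        (Nat.pow_le_pow_right (by norm_num) (by omega))
      exact_mod_cast this.le
    have h4 : (n : ℝ) * (P * |l|) ≤ 2 ^ (2 * n + e % 2) * (P * |l|) :=
      mul_le_mul_of_nonneg_right h3 (by positivity)
    nlinarith
  rw [measureReal_eq_zero_iff] at hreal
  exact hreal

end Pool.Agent.W789.SOP
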