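import Pool.Agent.W789.SOP.Compact1

set_option autoImplicit false
open MeasureTheory Polynomial Set

namespace Pool.Agent.W789.SOP

/-- Validity of the two equations for all `C²` test functions. -/
def Ext (φ : Measure ℝ) (a b c d : ℝ[X]) : Prop :=
  ∀ f f1 f2 : ℝ → ℝ, (∀ x, HasDerivAt f (f1 x) x) → (∀ x, HasDerivAt f1 (f2 x) x) →
    Continuous f2 →
    ∫ x, (a.eval x * f1 x + b.eval x * f x) ∂φ = 0 ∧
    ∫ x, (b.eval x * f2 x + c.eval x * f1 x - d.eval x * f x) ∂φ = 0

theorem exists_antideriv (q : ℝ[X]) : ∃ P : ℝ[X], derivative P = q := by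
  induction q using Polynomial.induction_on' with
  | add p q hp hq =>
    obtain ⟨P, hP⟩ := hp
    obtain ⟨Q, hQ⟩ := hq
    exact ⟨P + Q, by rw [derivative_add, hP, hQ]⟩
  | monomial n r =>
    refine ⟨C (r / (n + 1)) * X ^ (n + 1), ?_⟩
    rw [derivative_C_mul_X_pow, ← C_mul_X_pow_eq_monomial]
    congr 2
    have : (n : ℝ) + 1 ≠ 0 := by positivity
    push_cast
    field_simp

theorem exists_antideriv' (q : ℝ[X]) (y : ℝ) : ∃ P : ℝ[X], derivative P = q ∧ P.eval 0 = y := by
  obtain ⟨P, hP⟩ := exists_antideriv q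
  refine ⟨P + C (y - P.eval 0), ?_, ?_⟩
  · rw [derivative_add, derivative_C, add_zero, hP]
  · rw [eval_add, eval_C]; ring

/-- `C²` approximation by polynomials. -/
theorem approx2 {f f1 f2 : ℝ → ℝ} (h1 : ∀ x, HasDerivAt f (f1 x) x)
    (h2 : ∀ x, HasDerivAt f1 (f2 x) x) (hc : Continuous f2) {R : ℝ} (hR : 0 < R) {ε : ℝ}
    (hε : 0 < ε) :
    ∃ P : ℝ[X], ∀ x, |x| ≤ R → |f2 x - (derivative (derivative P)).eval x| ≤ ε ∧
      |f1 x - (derivative P).eval x| ≤ ε * R ∧ |f x - P.eval x| ≤ ε * R * R := by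
  obtain ⟨q, hq⟩ := exists_polynomial_near_of_continuousOn (-R) R f2 hc.continuousOn ε hε
  obtain ⟨Q, hQ, hQ0⟩ := exists_antideriv' q (f1 0)
  obtain ⟨P, hP, hP0⟩ := exists_antideriv' Q (f 0)
  have mvt : ∀ (g g1 : ℝ → ℝ) (Cst : ℝ), (∀ x, HasDerivAt g (g1 x) x) → g 0 = 0 →
      (∀ x, |x| ≤ R → |g1 x| ≤ Cst) → ∀ x, |x| ≤ R → |g x| ≤ Cst * |x| := by
    intro g g1 Cst hg hg0 hb x hx
    have := (convex_Icc (-R) R).norm_image_sub_le_of_norm_hasDerivWithin_le (f := g) (f' := g1)
      (C := Cst) (x := 0) (y := x) (fun y _ => (hg y).hasDerivWithinAt)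
      (fun y hy => hb y (abs_le.mpr hy)) ⟨by linarith, hR.le⟩ (abs_le.mp hx)
    rw [hg0, sub_zero, sub_zero] at this
    exact this
  have hb2 : ∀ x, |x| ≤ R → |f2 x - q.eval x| ≤ ε := by
    intro x hx
    rw [abs_sub_comm]
    exact (hq x (abs_le.mp hx)).le
  have hb1 : ∀ x, |x| ≤ R → |f1 x - Q.eval x| ≤ ε * R := by
    intro x hx
    have := mvt (fun y => f1 y - Q.eval y) (fun y => f2 y - q.eval y) ε
      (fun y => (h2 y).sub (by rw [← hQ]; exact Q.hasDerivAt y)) (by simp [hQ0]) hb2 x hx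
    exact this.trans (mul_le_mul_of_nonneg_left hx hε.le)
  have hb0 : ∀ x, |x| ≤ R → |f x - P.eval x| ≤ ε * R * R := by
    intro x hx
    have := mvt (fun y => f y - P.eval y) (fun y => f1 y - Q.eval y) (ε * R)
      (fun y => (h1 y).sub (by rw [← hP]; exact P.hasDerivAt y)) (by simp [hP0]) hb1 x hx
    exact this.trans (mul_le_mul_of_nonneg_left hx (by positivity))
  refine ⟨P, fun x hx => ⟨?_, ?_, hb0 x hx⟩⟩
  · rw [hP, hQ]; exact hb2 x hx
  · rw [hP]; exact hb1 x hx

theorem ext_of_poly {φ : Measure ℝ} (hφ : ∀ k : ℕ, Integrable (fun x : ℝ => x ^ k) φ)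
    {a b c d : ℝ[X]} (hA : ∀ g : ℝ[X], ∫ x, (a * derivative g + b * g).eval x ∂φ = 0)
    (hB : ∀ g : ℝ[X], ∫ x, (b * derivative (derivative g) + c * derivative g - d * g).eval x ∂φ = 0)
    {R : ℝ} (hR : 0 < R) (hsupp : φ {x | R ≤ |x|} = 0) : Ext φ a b c d := by
  have hfin : IsFiniteMeasure φ := by
    have := hφ 0
    simp only [pow_zero] at this
    exact (integrable_const_iff_isFiniteMeasure (by norm_num)).mp this
  have hae : ∀ᵐ x ∂φ, |x| ≤ R := by
    rw [ae_iff]
    refine measure_mono_null (fun x hx => ?_) hsupp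
    exact (not_le.mp hx).le
  have hcb : ∀ g : ℝ → ℝ, Continuous g → Integrable g φ := by
    intro g hg
    obtain ⟨M, hM⟩ := (isCompact_Icc (a := -R) (b := R)).image hg |>.isBounded.exists_norm_le
    refine Integrable.mono' (integrable_const M) hg.aestronglyMeasurable ?_
    filter_upwards [hae] with x hx
    exact hM _ ⟨x, abs_le.mp hx, rfl⟩
  intro f f1 f2 h1 h2 hc
  have cf1 : Continuous f1 := continuous_iff_continuousAt.mpr (fun x => (h2 x).continuousAt)
  have cf : Continuous f := continuous_iff_continuousAt.mpr (fun x => (h1 x).continuousAt)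
  -- common bound
  obtain ⟨M, hM0, hM⟩ : ∃ M : ℝ, 0 ≤ M ∧ ∀ x : ℝ, |x| ≤ R → |a.eval x| ≤ M ∧ |b.eval x| ≤ M ∧
      |c.eval x| ≤ M ∧ |d.eval x| ≤ M := by
    have c1 : ContinuousOn (fun x : ℝ => |a.eval x| + |b.eval x| + |c.eval x| + |d.eval x|)
        (Set.Icc (-R) R) := by fun_prop
    obtain ⟨M, hM⟩ := (isCompact_Icc.image_of_continuousOn c1).bddAbove
    refine ⟨max M 0, le_max_right _ _, fun x hx => ?_⟩
    have h1 : |a.eval x| + |b.eval x| + |c.eval x| + |d.eval x| ≤ M :=
      hM ⟨x, ⟨by linarith [(abs_le.mp hx).1], (abs_le.mp hx).2⟩, rfl⟩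
    have ha := abs_nonneg (a.eval x)
    have hb := abs_nonneg (b.eval x)
    have hcc := abs_nonneg (c.eval x)
    have hd := abs_nonneg (d.eval x)
    have := le_max_left M 0
    refine ⟨?_, ?_, ?_, ?_⟩ <;> linarith
  have small : ∀ (I K : ℝ), 0 ≤ K → (∀ ε > 0, |I| ≤ ε * K) → I = 0 := by
    intro I K hK h
    by_contra hne
    have hpos := abs_pos.mpr hne
    have := h (|I| / (2 * (K + 1))) (by positivity)
    have h3 : |I| / (2 * (K + 1)) * K < |I| := by
      rw [div_mul_eq_mul_div, div_lt_iff₀ (by positivity)]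
      nlinarith
    linarith
  constructor
  · refine small _ (φ.real univ * (M * R + M * R * R)) (by positivity) (fun ε hε => ?_)
    obtain ⟨P, hP⟩ := approx2 h1 h2 hc hR hε
    have e : ∫ x, (a.eval x * f1 x + b.eval x * f x) ∂φ
        = ∫ x, (a.eval x * (f1 x - (derivative P).eval x) + b.eval x * (f x - P.eval x)) ∂φ := by
      have h0 := hA P
      rw [← sub_zero (∫ x, (a.eval x * f1 x + b.eval x * f x) ∂φ), ← h0, ← integral_sub]
      · refine integral_congr_ae (Filter.Eventually.of_forall (fun x => ?_))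
        simp only [eval_add, eval_mul]; ring
      · exact hcb _ (by fun_prop)
      · exact int_poly hφ _
    rw [e, ← Real.norm_eq_abs]
    refine (norm_integral_le_of_norm_le_const (μ := φ) (C := ε * (M * R + M * R * R)) ?_).trans ?_
    · filter_upwards [hae] with x hx
      obtain ⟨p2, p1, p0⟩ := hP x hx
      obtain ⟨ma, mb, mc, md⟩ := hM x hx
      rw [Real.norm_eq_abs]
      calc |a.eval x * (f1 x - (derivative P).eval x) + b.eval x * (f x - P.eval x)|
          ≤ |a.eval x| * |f1 x - (derivative P).eval x| + |b.eval x| * |f x - P.eval x| := by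
            rw [← abs_mul, ← abs_mul]; exact abs_add_le _ _
        _ ≤ M * (ε * R) + M * (ε * R * R) := by gcongr
        _ = _ := by ring
    · exact le_of_eq (by ring)
  · refine small _ (φ.real univ * (M + M * R + M * R * R)) (by positivity) (fun ε hε => ?_)
    obtain ⟨P, hP⟩ := approx2 h1 h2 hc hR hε
    have e : ∫ x, (b.eval x * f2 x + c.eval x * f1 x - d.eval x * f x) ∂φ
        = ∫ x, (b.eval x * (f2 x - (derivative (derivative P)).eval x)
          + c.eval x * (f1 x - (derivative P).eval x) - d.eval x * (f x - P.eval x)) ∂φ := by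
      have h0 := hB P
      rw [← sub_zero (∫ x, (b.eval x * f2 x + c.eval x * f1 x - d.eval x * f x) ∂φ), ← h0,
        ← integral_sub]
      · refine integral_congr_ae (Filter.Eventually.of_forall (fun x => ?_))
        simp only [eval_add, eval_mul, eval_sub]; ring
      · exact hcb _ (by fun_prop)
      · exact int_poly hφ _
    rw [e, ← Real.norm_eq_abs]
    refine (norm_integral_le_of_norm_le_const (μ := φ) (C := ε * (M + M * R + M * R * R)) ?_).trans ?_
    · filter_upwards [hae] with x hx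
      obtain ⟨p2, p1, p0⟩ := hP x hx
      obtain ⟨ma, mb, mc, md⟩ := hM x hx
      rw [Real.norm_eq_abs]
      calc |b.eval x * (f2 x - (derivative (derivative P)).eval x)
          + c.eval x * (f1 x - (derivative P).eval x) - d.eval x * (f x - P.eval x)|
          ≤ |b.eval x| * |f2 x - (derivative (derivative P)).eval x|
            + |c.eval x| * |f1 x - (derivative P).eval x| + |d.eval x| * |f x - P.eval x| := by
            rw [← abs_mul, ← abs_mul, ← abs_mul]
            refine (abs_sub _ _).trans (add_le_add (abs_add_le _ _) le_rfl)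
        _ ≤ M * ε + M * (ε * R) + M * (ε * R * R) := by gcongr
        _ = _ := by ring
    · exact le_of_eq (by ring)

end Pool.Agent.W789.SOP
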