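import Mathlib

set_option autoImplicit false
open MeasureTheory Polynomial

namespace Pool.Agent.W789.SOP

theorem int_poly {μ : Measure ℝ} (hμ : ∀ k : ℕ, Integrable (fun x : ℝ => x ^ k) μ) (f : ℝ[X]) :
    Integrable (fun x => f.eval x) μ := by
  have h : (fun x : ℝ => f.eval x)
      = fun x => ∑ i ∈ Finset.range (f.natDegree + 1), f.coeff i * x ^ i := by
    ext x; exact Polynomial.eval_eq_sum_range x
  rw [h]
  exact integrable_finsetSum _ (fun i _ => (hμ i).const_mul _)

/-- The moment functional of a measure. -/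
noncomputable def ev (μ : Measure ℝ) (hμ : ∀ k : ℕ, Integrable (fun x : ℝ => x ^ k) μ) :
    ℝ[X] →ₗ[ℝ] ℝ where
  toFun f := ∫ x, f.eval x ∂μ
  map_add' f g := by
    simp only [eval_add]
    exact integral_add (int_poly hμ f) (int_poly hμ g)
  map_smul' c f := by
    simp only [eval_smul, smul_eq_mul, RingHom.id_apply]
    exact integral_const_mul _ _

theorem ev_apply (μ : Measure ℝ) (hμ : ∀ k : ℕ, Integrable (fun x : ℝ => x ^ k) μ) (f : ℝ[X]) :
    ev μ hμ f = ∫ x, f.eval x ∂μ := rfl

theorem existsL (u v w : ℝ[X] →ₗ[ℝ] ℝ) (S : Polynomial.Sequence ℝ)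
    (orth : ∀ n m, n ≠ m → u (S n * S m) = 0) (hu : ∀ n, u (S n * S n) ≠ 0)
    (orthS : ∀ n m, n ≠ m → v (derivative (S n) * derivative (S m))
      + w (derivative (derivative (S n)) * derivative (derivative (S m))) = 0)
    (N : ℕ) (f : ℝ[X]) (hf : f ∈ degreeLT ℝ N) :
    ∃ L ∈ degreeLT ℝ N, ∀ g, u (L * g) = v (derivative f * derivative g)
      + w (derivative (derivative f) * derivative (derivative g)) := by
  have hunit : ∀ i, IsUnit (S i).leadingCoeff := fun i =>
    (leadingCoeff_ne_zero.mpr (S.ne_zero i)).isUnit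
  rw [← S.span_degreeLT (m := N) (fun i _ => hunit i)] at hf
  refine Submodule.span_induction (p := fun f _ => ∃ L ∈ degreeLT ℝ N, ∀ g, u (L * g)
      = v (derivative f * derivative g)
      + w (derivative (derivative f) * derivative (derivative g))) ?_ ?_ ?_ ?_ hf
  · rintro _ ⟨i, hi, rfl⟩
    set lam : ℝ := (v (derivative (S i) * derivative (S i))
      + w (derivative (derivative (S i)) * derivative (derivative (S i)))) / u (S i * S i) with hlam
    refine ⟨lam • S i, ?_, ?_⟩
    · refine Submodule.smul_mem _ _ ?_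
      rw [Polynomial.mem_degreeLT, S.degree_eq]
      exact_mod_cast hi
    · have key : (lam • (u ∘ₗ LinearMap.mulLeft ℝ (S i)))
          = v ∘ₗ LinearMap.mulLeft ℝ (derivative (S i)) ∘ₗ derivative
            + w ∘ₗ LinearMap.mulLeft ℝ (derivative (derivative (S i))) ∘ₗ derivative ∘ₗ derivative := by
        refine LinearMap.ext_on (S.span hunit) ?_
        rintro _ ⟨m, rfl⟩
        simp only [LinearMap.smul_apply, LinearMap.comp_apply, LinearMap.mulLeft_apply,
          LinearMap.add_apply, smul_eq_mul]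
        by_cases h : i = m
        · subst h
          rw [hlam, div_mul_cancel₀ _ (hu i)]
        · rw [orth i m h, orthS i m h, mul_zero]
      intro g
      have := LinearMap.congr_fun key g
      simp only [LinearMap.smul_apply, LinearMap.comp_apply, LinearMap.mulLeft_apply,
          LinearMap.add_apply, smul_eq_mul] at this
      rw [smul_mul_assoc, map_smul, smul_eq_mul, this]
  · exact ⟨0, Submodule.zero_mem _, fun g => by simp⟩
  · rintro f₁ f₂ _ _ ⟨L₁, h₁, e₁⟩ ⟨L₂, h₂, e₂⟩
    refine ⟨L₁ + L₂, Submodule.add_mem _ h₁ h₂, fun g => ?_⟩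
    rw [add_mul, map_add, e₁, e₂]
    simp only [map_add, add_mul]
    ring
  · rintro c f₁ _ ⟨L₁, h₁, e₁⟩
    refine ⟨c • L₁, Submodule.smul_mem _ _ h₁, fun g => ?_⟩
    rw [smul_mul_assoc, map_smul, e₁]
    simp only [smul_mul_assoc, map_smul, smul_eq_mul]
    ring

theorem reduction (u v w : ℝ[X] →ₗ[ℝ] ℝ) (p : ℕ → ℝ[X])
    (hdeg : ∀ n : ℕ, (p n).degree = ((n : ℕ) : WithBot ℕ))
    (orth : ∀ n m, n ≠ m → u (p n * p m) = 0) (hu : ∀ n, u (p n * p n) ≠ 0)
    (orthS : ∀ n m, n ≠ m → v (derivative (p n) * derivative (p m))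
      + w (derivative (derivative (p n)) * derivative (derivative (p m))) = 0) :
    ∃ a b c d : ℝ[X], a.natDegree ≤ 4 ∧ b.natDegree ≤ 3 ∧ c.natDegree ≤ 2 ∧ d.natDegree ≤ 1 ∧
      (∀ g, w g = u (a * g)) ∧ (∀ g, u (a * derivative g + b * g) = 0) ∧
      (∀ g, u (b * derivative (derivative g) + c * derivative g - d * g) = 0) := by
  set S : Polynomial.Sequence ℝ := ⟨p, hdeg⟩ with hS
  have hL := existsL u v w S orth hu orthS
  have mem : ∀ n : ℕ, ∀ N, n < N → (X ^ n : ℝ[X]) ∈ degreeLT ℝ N := by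
    intro n N h
    rw [mem_degreeLT, degree_X_pow]
    exact_mod_cast h
  have nd : ∀ N (P : ℝ[X]), P ∈ degreeLT ℝ (N + 1) → P.natDegree ≤ N := by
    intro N P h
    rw [mem_degreeLT] at h
    by_cases h0 : P = 0
    · simp [h0]
    · have := (natDegree_lt_iff_degree_lt h0).mpr h
      omega
  obtain ⟨P1, m1, e1⟩ := hL 2 (X ^ 1) (mem 1 2 (by norm_num))
  obtain ⟨P2, m2, e2⟩ := hL 3 (X ^ 2) (mem 2 3 (by norm_num))
  obtain ⟨P3, m3, e3⟩ := hL 4 (X ^ 3) (mem 3 4 (by norm_num))
  obtain ⟨P4, m4, e4⟩ := hL 5 (X ^ 4) (mem 4 5 (by norm_num))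
  have n1 := nd 1 P1 m1
  have n2 := nd 2 P2 m2
  have n3 := nd 3 P3 m3
  have n4 := nd 4 P4 m4
  -- basic relations
  have f1 : ∀ g, u (P1 * g) = v (derivative g) := by
    intro g
    have := e1 g
    simpa using this
  have f2 : ∀ g, u (P2 * g) = 2 * v (X * derivative g) + 2 * w (derivative (derivative g)) := by
    intro g
    have h := e2 g
    have a1 : derivative (X ^ 2 : ℝ[X]) = (2 : ℝ) • X := by
      rw [derivative_X_pow, smul_eq_C_mul]; norm_num
    rw [a1] at h
    simpa only [derivative_smul, derivative_X, smul_mul_assoc, one_mul, map_smul, smul_eq_mul] using h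
  have f3 : ∀ g, u (P3 * g) = 3 * v (X ^ 2 * derivative g)
      + 6 * w (X * derivative (derivative g)) := by
    intro g
    have h := e3 g
    have a1 : derivative (X ^ 3 : ℝ[X]) = (3 : ℝ) • X ^ 2 := by
      rw [derivative_X_pow, smul_eq_C_mul]; norm_num
    have a2 : derivative (X ^ 2 : ℝ[X]) = (2 : ℝ) • X := by
      rw [derivative_X_pow, smul_eq_C_mul]; norm_num
    rw [a1, derivative_smul, a2] at h
    simp only [smul_mul_assoc, map_smul, smul_eq_mul] at h
    linarith
  have f4 : ∀ g, u (P4 * g) = 4 * v (X ^ 3 * derivative g)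
      + 12 * w (X ^ 2 * derivative (derivative g)) := by
    intro g
    have h := e4 g
    have a1 : derivative (X ^ 4 : ℝ[X]) = (4 : ℝ) • X ^ 3 := by
      rw [derivative_X_pow, smul_eq_C_mul]; norm_num
    have a2 : derivative (X ^ 3 : ℝ[X]) = (3 : ℝ) • X ^ 2 := by
      rw [derivative_X_pow, smul_eq_C_mul]; norm_num
    rw [a1, derivative_smul, a2] at h
    simp only [smul_mul_assoc, map_smul, smul_eq_mul] at h
    linarith
  have vX : ∀ g, v (X * derivative g) = u (P1 * (X * g)) - v g := by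
    intro g
    rw [f1, derivative_mul, derivative_X, one_mul, map_add]; ring
  have vX2 : ∀ g, v (X ^ 2 * derivative g) = u (P1 * (X ^ 2 * g)) - 2 * v (X * g) := by
    intro g
    have h : derivative (X ^ 2 * g) = (2 : ℝ) • (X * g) + X ^ 2 * derivative g := by
      rw [derivative_mul, derivative_X_pow, smul_eq_C_mul]; norm_num; ring
    rw [f1, h, map_add, map_smul, smul_eq_mul]; ring
  have vX3 : ∀ g, v (X ^ 3 * derivative g) = u (P1 * (X ^ 3 * g)) - 3 * v (X ^ 2 * g) := by
    intro g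
    have h : derivative (X ^ 3 * g) = (3 : ℝ) • (X ^ 2 * g) + X ^ 3 * derivative g := by
      rw [derivative_mul, derivative_X_pow, smul_eq_C_mul]; norm_num; ring
    rw [f1, h, map_add, map_smul, smul_eq_mul]; ring
  have w2 : ∀ g, w (derivative (derivative g)) = u (P2 * g) / 2 - u (P1 * (X * g)) + v g := by
    intro g
    have h1 := f2 g
    have h2 := vX g
    rw [h2] at h1; linarith
  have w1 : ∀ g, w (derivative g) = (1 / 12) * (3 * u (P2 * (X * g)) - 3 * u (P1 * (X ^ 2 * g))
      - u (P3 * g)) := by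
    intro g
    have h : derivative (derivative (X * g)) = (2 : ℝ) • derivative g + X * derivative (derivative g) := by
      simp only [derivative_mul, derivative_X, one_mul, map_add, smul_eq_C_mul]
      rw [map_ofNat C 2]; ring
    have h3 := f3 g
    have hw := w2 (X * g)
    rw [h, map_add, map_smul, smul_eq_mul] at hw
    have e : P1 * (X * (X * g)) = P1 * (X ^ 2 * g) := by ring
    rw [e] at hw
    have h4 := vX2 g
    rw [h4] at h3
    linarith
  have w0 : ∀ g, w g = (1 / 24) * (u (P4 * g) - 4 * u (P3 * (X * g)) + 6 * u (P2 * (X ^ 2 * g))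
      - 4 * u (P1 * (X ^ 3 * g))) := by
    intro g
    have h : derivative (derivative (X ^ 2 * g)) = (4 : ℝ) • derivative (X * g) - (2 : ℝ) • g
        + X ^ 2 * derivative (derivative g) := by
      simp only [derivative_mul, derivative_X, one_mul, map_add, smul_eq_C_mul, derivative_X_pow,
        derivative_C, Nat.cast_ofNat]
      rw [map_ofNat C 2, map_ofNat C 4]; norm_num; ring
    have h4 := f4 g
    have hw := w2 (X ^ 2 * g)
    rw [h, map_add, map_sub, map_smul, map_smul, smul_eq_mul, smul_eq_mul, w1] at hw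
    have e1 : P1 * (X * (X ^ 2 * g)) = P1 * (X ^ 3 * g) := by ring
    have e2 : P2 * (X * (X * g)) = P2 * (X ^ 2 * g) := by ring
    have e3 : P1 * (X ^ 2 * (X * g)) = P1 * (X ^ 3 * g) := by ring
    rw [e1, e2, e3] at hw
    have h5 := vX3 g
    rw [h5] at h4
    linarith
  set a : ℝ[X] := (1 / 24 : ℝ) • (P4 - (4 : ℝ) • (P3 * X) + (6 : ℝ) • (P2 * X ^ 2)
    - (4 : ℝ) • (P1 * X ^ 3)) with ha
  set B : ℝ[X] := (1 / 12 : ℝ) • ((3 : ℝ) • (P2 * X) - (3 : ℝ) • (P1 * X ^ 2) - P3) with hB
  set C2 : ℝ[X] := (1 / 2 : ℝ) • P2 - P1 * X with hC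
  have wa : ∀ g, w g = u (a * g) := by
    intro g
    rw [w0, ha]
    have e : ((1 / 24 : ℝ) • (P4 - (4 : ℝ) • (P3 * X) + (6 : ℝ) • (P2 * X ^ 2)
      - (4 : ℝ) • (P1 * X ^ 3))) * g = (1 / 24 : ℝ) • (P4 * g - (4 : ℝ) • (P3 * (X * g))
      + (6 : ℝ) • (P2 * (X ^ 2 * g)) - (4 : ℝ) • (P1 * (X ^ 3 * g))) := by
      simp only [smul_eq_C_mul]; ring
    rw [e]
    simp only [map_smul, map_add, map_sub, smul_eq_mul]
  have wB : ∀ g, w (derivative g) = u (B * g) := by
    intro g
    rw [w1, hB]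
    have e : ((1 / 12 : ℝ) • ((3 : ℝ) • (P2 * X) - (3 : ℝ) • (P1 * X ^ 2) - P3)) * g
      = (1 / 12 : ℝ) • ((3 : ℝ) • (P2 * (X * g)) - (3 : ℝ) • (P1 * (X ^ 2 * g)) - P3 * g) := by
      simp only [smul_eq_C_mul]; ring
    rw [e]
    simp only [map_smul, map_sub, smul_eq_mul]
  have wC : ∀ g, w (derivative (derivative g)) = u (C2 * g) + v g := by
    intro g
    rw [w2, hC]
    have e : ((1 / 2 : ℝ) • P2 - P1 * X) * g = (1 / 2 : ℝ) • (P2 * g) - P1 * (X * g) := by
      simp only [smul_eq_C_mul]; ring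
    rw [e]
    simp only [map_smul, map_sub, smul_eq_mul]
    ring
  have dX : ∀ (P : ℝ[X]) (k N : ℕ), P.natDegree + k ≤ N → (P * X ^ k).natDegree ≤ N := by
    intro P k N h
    exact (natDegree_mul_le.trans (Nat.add_le_add_left (natDegree_X_pow_le k) _)).trans h
  refine ⟨a, -B, C2, -P1, ?_, ?_, ?_, ?_, wa, ?_, ?_⟩
  · rw [ha]
    refine (natDegree_smul_le _ _).trans ?_
    refine (natDegree_sub_le _ _).trans (max_le ((natDegree_add_le _ _).trans (max_le
      ((natDegree_sub_le _ _).trans (max_le n4 ?_)) ?_)) ?_)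
    · refine (natDegree_smul_le _ _).trans ?_
      have := dX P3 1 4 (by omega)
      simpa using this
    · exact (natDegree_smul_le _ _).trans (dX P2 2 4 (by omega))
    · exact (natDegree_smul_le _ _).trans (dX P1 3 4 (by omega))
  · rw [natDegree_neg, hB]
    refine (natDegree_smul_le _ _).trans ?_
    refine (natDegree_sub_le _ _).trans (max_le ((natDegree_sub_le _ _).trans (max_le ?_ ?_)) n3)
    · refine (natDegree_smul_le _ _).trans ?_
      have := dX P2 1 3 (by omega)
      simpa using this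
    · exact (natDegree_smul_le _ _).trans (dX P1 2 3 (by omega))
  · rw [hC]
    refine (natDegree_sub_le _ _).trans (max_le ((natDegree_smul_le _ _).trans n2) ?_)
    have := dX P1 1 2 (by omega)
    simpa using this
  · rw [natDegree_neg]; exact n1
  · intro g
    rw [map_add, ← wa, wB, neg_mul, map_neg]; ring
  · intro g
    have h1 := wC g
    have h2 := wB (derivative g)
    have h3 := wC (derivative g)
    have h4 := wB (derivative (derivative g))
    have h5 := f1 g
    rw [map_sub, map_add, neg_mul, neg_mul, map_neg, map_neg]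
    linarith

end Pool.Agent.W789.SOP
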