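import Pool.Agent.W789.SOP.Quad

set_option autoImplicit false
open MeasureTheory Polynomial

namespace Pool.Agent.W789.SOP

theorem derivative_taylor' (r : ℝ) (f : ℝ[X]) :
    derivative (taylor r f) = taylor r (derivative f) := by
  rw [taylor_apply, taylor_apply, derivative_comp]
  simp

theorem taylor_cancel (r : ℝ) (f : ℝ[X]) : taylor (-r) (taylor r f) = f := by
  rw [taylor_taylor]; simp

theorem Sys.shift {u : ℝ[X] →ₗ[ℝ] ℝ} {a b c d : ℝ[X]} (h : Sys u a b c d) (x0 : ℝ) :
    Sys (u ∘ₗ taylor (-x0)) (taylor x0 a) (taylor x0 b) (taylor x0 c) (taylor x0 d) where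
  pos q hq := by
    rw [LinearMap.comp_apply, taylor_mul]
    exact h.pos _ (fun h0 => hq ((taylor_eq_zero _ _).mp h0))
  eqA g := by
    rw [LinearMap.comp_apply, map_add, taylor_mul, taylor_mul, taylor_cancel, taylor_cancel,
      ← derivative_taylor']
    exact h.eqA _
  eqB g := by
    rw [LinearMap.comp_apply, map_sub, map_add, taylor_mul, taylor_mul, taylor_mul, taylor_cancel,
      taylor_cancel, taylor_cancel, ← derivative_taylor', ← derivative_taylor']
    exact h.eqB _
  ane := fun h0 => h.ane ((taylor_eq_zero _ _).mp h0)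

theorem Sys.scale {u : ℝ[X] →ₗ[ℝ] ℝ} {a b c d : ℝ[X]} (h : Sys u a b c d) {r : ℝ} (hr : r ≠ 0) :
    Sys u (C r * a) (C r * b) (C r * c) (C r * d) where
  pos := h.pos
  eqA g := by
    have e : C r * a * derivative g + C r * b * g = C r * (a * derivative g + b * g) := by ring
    rw [e, C_mul', map_smul, h.eqA]; simp
  eqB g := by
    have e : C r * b * derivative (derivative g) + C r * c * derivative g - C r * d * g
      = C r * (b * derivative (derivative g) + c * derivative g - d * g) := by ring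
    rw [e, C_mul', map_smul, h.eqB]; simp
  ane := mul_ne_zero (C_ne_zero.mpr hr) h.ane

theorem Sys.deg_bound {u : ℝ[X] →ₗ[ℝ] ℝ} {a b c d : ℝ[X]} (h : Sys u a b c d)
    (hc : c.natDegree ≤ 2) (hd : d.natDegree ≤ 1) (hn : a.natDegree ≤ b.natDegree) :
    2 * b.natDegree ≤ a.natDegree + 2 := by
  by_contra hcon
  push Not at hcon
  set e := a.natDegree with he
  set n := b.natDegree with hnn
  have n2 : 2 ≤ n := by omega
  have da : (derivative a).natDegree ≤ e - 1 := natDegree_derivative_le a
  have db : (derivative b).natDegree ≤ n - 1 := natDegree_derivative_le b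
  set T : ℝ[X] := b ^ 2 - b * derivative a + a * derivative b - a * c with hT
  have t1 : (b * derivative a).natDegree ≤ n + (e - 1) :=
    natDegree_mul_le.trans (by omega)
  have t2 : (a * derivative b).natDegree ≤ e + (n - 1) :=
    natDegree_mul_le.trans (by omega)
  have t3 : (a * c).natDegree ≤ e + 2 := natDegree_mul_le.trans (by omega)
  have t0 : (b ^ 2).natDegree ≤ n + n := by
    rw [pow_two]; exact natDegree_mul_le.trans (by omega)
  have hTd : T.natDegree ≤ n + n := by
    refine (natDegree_sub_le _ _).trans (max_le ((natDegree_add_le _ _).trans (max_le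
      ((natDegree_sub_le _ _).trans (max_le t0 (by omega))) (by omega))) (by omega))
  have hTc : T.coeff (n + n) = b.coeff n * b.coeff n := by
    rw [hT, coeff_sub, coeff_add, coeff_sub, pow_two, coeff_mul_add_eq_of_natDegree_le le_rfl le_rfl,
      coeff_eq_zero_of_natDegree_lt (lt_of_le_of_lt t1 (by omega)),
      coeff_eq_zero_of_natDegree_lt (lt_of_le_of_lt t2 (by omega)),
      coeff_eq_zero_of_natDegree_lt (lt_of_le_of_lt t3 (by omega))]
    ring
  have dT : (derivative T).natDegree ≤ (n + n) - 1 :=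
    (natDegree_derivative_le T).trans (by omega)
  have s1 : (a * derivative T).natDegree ≤ e + ((n + n) - 1) :=
    natDegree_mul_le.trans (by omega)
  have s2 : (a ^ 2 * d).natDegree ≤ 2 * e + 1 := by
    refine natDegree_mul_le.trans ?_
    have := natDegree_pow_le (p := a) (n := 2)
    omega
  have s3 : (b - 2 * derivative a).natDegree ≤ n := by
    refine (natDegree_sub_le _ _).trans (max_le le_rfl ?_)
    have : (2 : ℝ[X]) = C 2 := (map_ofNat C 2).symm
    rw [this]
    exact (natDegree_C_mul_le _ _).trans (by omega)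
  have s3c : (b - 2 * derivative a).coeff n = b.coeff n := by
    have : (2 : ℝ[X]) = C 2 := (map_ofNat C 2).symm
    rw [this, coeff_sub, coeff_C_mul, coeff_eq_zero_of_natDegree_lt (p := derivative a) (by omega)]
    ring
  have st := h.star hT
  have cc := congrArg (fun P : ℝ[X] => P.coeff ((n + n) + n)) st
  simp only [coeff_add] at cc
  rw [coeff_eq_zero_of_natDegree_lt (lt_of_le_of_lt s1 (by omega)),
    coeff_mul_add_eq_of_natDegree_le hTd s3, hTc, s3c,
    coeff_eq_zero_of_natDegree_lt (lt_of_le_of_lt s2 (by omega))] at cc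
  have hbn : b.coeff n ≠ 0 := by
    have hb0 : b ≠ 0 := by
      intro h0
      rw [h0] at hnn
      simp at hnn
      omega
    rw [hnn, coeff_natDegree]
    exact leadingCoeff_ne_zero.mpr hb0
  have : b.coeff n ^ 3 = 0 := by linear_combination cc
  exact hbn (pow_eq_zero_iff (by norm_num) |>.mp this)

theorem Sys.deg_two {u : ℝ[X] →ₗ[ℝ] ℝ} {a b c d : ℝ[X]} (h : Sys u a b c d)
    (hc : c.natDegree ≤ 2) (hd : d.natDegree ≤ 1) (ha : a.natDegree ≤ 2) (hb : b.natDegree ≤ 2)
    (hb0 : b.coeff 2 ≠ 0) :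
    b.coeff 2 * b.coeff 2 = a.coeff 2 * c.coeff 2 := by
  have da : (derivative a).natDegree ≤ 1 := (natDegree_derivative_le a).trans (by omega)
  have db : (derivative b).natDegree ≤ 1 := (natDegree_derivative_le b).trans (by omega)
  set T : ℝ[X] := b ^ 2 - b * derivative a + a * derivative b - a * c with hT
  have t1 : (b * derivative a).natDegree ≤ 3 := natDegree_mul_le.trans (by omega)
  have t2 : (a * derivative b).natDegree ≤ 3 := natDegree_mul_le.trans (by omega)
  have t3 : (a * c).natDegree ≤ 4 := natDegree_mul_le.trans (by omega)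
  have t0 : (b ^ 2).natDegree ≤ 4 := by
    rw [pow_two]; exact natDegree_mul_le.trans (by omega)
  have hTd : T.natDegree ≤ 4 := by
    refine (natDegree_sub_le _ _).trans (max_le ((natDegree_add_le _ _).trans (max_le
      ((natDegree_sub_le _ _).trans (max_le t0 (by omega))) (by omega))) (by omega))
  have hTc : T.coeff (2 + 2) = b.coeff 2 * b.coeff 2 - a.coeff 2 * c.coeff 2 := by
    rw [hT, coeff_sub, coeff_add, coeff_sub, pow_two, coeff_mul_add_eq_of_natDegree_le hb hb,
      coeff_eq_zero_of_natDegree_lt (lt_of_le_of_lt t1 (by omega)),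
      coeff_eq_zero_of_natDegree_lt (lt_of_le_of_lt t2 (by omega)),
      coeff_mul_add_eq_of_natDegree_le ha hc]
    ring
  have dT : (derivative T).natDegree ≤ 3 := (natDegree_derivative_le T).trans (by omega)
  have s1 : (a * derivative T).natDegree ≤ 5 := natDegree_mul_le.trans (by omega)
  have s2 : (a ^ 2 * d).natDegree ≤ 5 := by
    refine natDegree_mul_le.trans ?_
    have := natDegree_pow_le (p := a) (n := 2)
    omega
  have s3 : (b - 2 * derivative a).natDegree ≤ 2 := by
    refine (natDegree_sub_le _ _).trans (max_le hb ?_)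
    have : (2 : ℝ[X]) = C 2 := (map_ofNat C 2).symm
    rw [this]
    exact (natDegree_C_mul_le _ _).trans (by omega)
  have s3c : (b - 2 * derivative a).coeff 2 = b.coeff 2 := by
    have : (2 : ℝ[X]) = C 2 := (map_ofNat C 2).symm
    rw [this, coeff_sub, coeff_C_mul, coeff_eq_zero_of_natDegree_lt (p := derivative a) (by omega)]
    ring
  have st := h.star hT
  have cc := congrArg (fun P : ℝ[X] => P.coeff (4 + 2)) st
  simp only [coeff_add] at cc
  rw [coeff_eq_zero_of_natDegree_lt (lt_of_le_of_lt s1 (by omega)),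
    coeff_mul_add_eq_of_natDegree_le hTd s3, s3c,
    coeff_eq_zero_of_natDegree_lt (lt_of_le_of_lt s2 (by omega))] at cc
  change 0 + T.coeff (2 + 2) * b.coeff 2 = 0 at cc
  rw [hTc, zero_add] at cc
  rcases mul_eq_zero.mp cc with h1 | h1
  · linarith
  · exact absurd h1 hb0

/-- Classification at the level of moments when `deg a ≤ deg b`. -/
theorem Sys.unbounded {u : ℝ[X] →ₗ[ℝ] ℝ} {a b c d : ℝ[X]} (h : Sys u a b c d)
    (ha : a.natDegree ≤ 4) (hc : c.natDegree ≤ 2) (hd : d.natDegree ≤ 1)
    (hn : a.natDegree ≤ b.natDegree) :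
    ∃ x0 : ℝ,
      (∃ κ β : ℝ, β ≠ 0 ∧ κ ≠ 0 ∧ u (X - C x0) = 0 ∧ ∀ k : ℕ, κ * ((k : ℝ) + 1) * u ((X - C x0) ^ k)
        + β * u ((X - C x0) ^ (k + 2)) = 0) ∨
      (∃ ρ θ : ℝ, ρ ≠ 0 ∧ ∀ k : ℕ, ((k : ℝ) + θ) * u ((X - C x0) ^ k)
        + ρ * u ((X - C x0) ^ (k + 1)) = 0) ∨
      (∃ ρ : ℝ, ρ ≠ 0 ∧ ∀ k : ℕ, 1 ≤ k → ((k : ℝ) + 1) * u ((X - C x0) ^ k)
        + ρ * u ((X - C x0) ^ (k + 1)) = 0) := by
  have hb2 := h.deg_bound hc hd hn
  have u1 : 0 < u 1 := by simpa using h.pos 1 one_ne_zero
  have hX : ∀ t : ℝ, ∀ k : ℕ, taylor (-t) (X ^ k : ℝ[X]) = (X - C t) ^ k := by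
    intro t k
    rw [taylor_X_pow, C_neg, ← sub_eq_add_neg]
  rcases Nat.lt_or_ge a.natDegree 1 with h0 | h0
  · -- constant a
    have ha0 : a = C (a.coeff 0) := eq_C_of_natDegree_eq_zero (by omega)
    have hb1 : b = C (b.coeff 1) * X + C (b.coeff 0) := eq_X_add_C_of_natDegree_le_one (by omega)
    set κ := a.coeff 0 with hκ
    set β := b.coeff 1 with hβ
    set γ := b.coeff 0 with hγ
    have κ0 : κ ≠ 0 := by
      intro h1; rw [h1, C_0] at ha0; exact h.ane ha0
    have β0 : β ≠ 0 := by
      intro h1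
      have e0 := h.eqA 1
      have e1 := h.eqA X
      rw [ha0, hb1, h1] at e0 e1
      simp only [C_0, zero_mul, zero_add, derivative_one, mul_zero, mul_one, derivative_X] at e0 e1
      have e2 : u (C γ) = γ * u 1 := by
        rw [← mul_one (C γ), C_mul', map_smul, smul_eq_mul]
      have e3 : u (C κ) = κ * u 1 := by
        rw [← mul_one (C κ), C_mul', map_smul, smul_eq_mul]
      rw [e2] at e0
      have γ0 : γ = 0 := (mul_eq_zero.mp e0).resolve_right u1.ne'
      rw [γ0, C_0, zero_mul, add_zero, e3] at e1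
      exact (mul_ne_zero κ0 u1.ne') e1
    refine ⟨-γ / β, Or.inl ⟨κ, β, β0, κ0, ?_, ?_⟩⟩
    · have e0 := h.eqA 1
      rw [ha0, hb1] at e0
      have e : C κ * derivative 1 + (C β * X + C γ) * 1 = C β * (X - C (-γ / β)) := by
        rw [derivative_one, mul_sub, ← C_mul, mul_div_cancel₀ _ β0, C_neg]; ring
      rw [e, C_mul', map_smul, smul_eq_mul] at e0
      exact (mul_eq_zero.mp e0).resolve_left β0
    · intro k
      have e0 := h.eqA ((X - C (-γ / β)) ^ (k + 1))
      rw [ha0, hb1] at e0
      have e : C κ * derivative ((X - C (-γ / β)) ^ (k + 1))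
          + (C β * X + C γ) * (X - C (-γ / β)) ^ (k + 1)
          = C (κ * ((k : ℝ) + 1)) * (X - C (-γ / β)) ^ k + C β * (X - C (-γ / β)) ^ (k + 2) := by
        have e' : (C β * X + C γ : ℝ[X]) = C β * (X - C (-γ / β)) := by
          rw [mul_sub, ← C_mul, mul_div_cancel₀ _ β0, C_neg]; ring
        rw [e', derivative_X_sub_C_pow]
        simp only [C_mul, C_add, C_1, Nat.add_sub_cancel, Nat.cast_add, Nat.cast_one]
        ring
      rw [e, map_add, C_mul', C_mul', map_smul, map_smul, smul_eq_mul, smul_eq_mul] at e0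
      exact e0
  · rcases Nat.lt_or_ge a.natDegree 2 with h1 | h1
    · -- linear a
      have ha1 : a = C (a.coeff 1) * X + C (a.coeff 0) := eq_X_add_C_of_natDegree_le_one (by omega)
      have hb1 : b = C (b.coeff 1) * X + C (b.coeff 0) := eq_X_add_C_of_natDegree_le_one (by omega)
      set κ := a.coeff 1 with hκ
      set κ' := a.coeff 0 with hκ'
      set β := b.coeff 1 with hβ
      set γ := b.coeff 0 with hγ
      have κ0 : κ ≠ 0 := by
        rw [hκ, show 1 = a.natDegree by omega, coeff_natDegree]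
        exact leadingCoeff_ne_zero.mpr h.ane
      have β0 : β ≠ 0 := by
        rw [hβ, show 1 = b.natDegree by omega, coeff_natDegree]
        refine leadingCoeff_ne_zero.mpr ?_
        intro h2
        rw [h2] at hn hb2
        simp at hn
        omega
      set x0 : ℝ := -κ' / κ with hx0
      refine ⟨x0, Or.inr (Or.inl ⟨β / κ, (γ + β * x0) / κ, div_ne_zero β0 κ0, ?_⟩)⟩
      intro k
      have e0 := h.eqA ((X - C x0) ^ k)
      rw [ha1, hb1] at e0
      have ea : (C κ * X + C κ' : ℝ[X]) = C κ * (X - C x0) := by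
        rw [hx0, mul_sub, ← C_mul, mul_div_cancel₀ _ κ0, C_neg]; ring
      have eb : (C β * X + C γ : ℝ[X]) = C β * (X - C x0) + C (γ + β * x0) := by
        simp only [C_add, C_mul]; ring
      have e : (C κ * X + C κ') * derivative ((X - C x0) ^ k)
          + (C β * X + C γ) * (X - C x0) ^ k
          = C (κ * (k : ℝ) + (γ + β * x0)) * (X - C x0) ^ k + C β * (X - C x0) ^ (k + 1) := by
        rw [ea, eb, derivative_X_sub_C_pow]
        rcases k with _ | k
        · simp; ring
        · simp only [C_mul, C_add, Nat.add_sub_cancel]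
          ring
      rw [e, map_add, C_mul', C_mul', map_smul, map_smul, smul_eq_mul, smul_eq_mul] at e0
      field_simp
      linear_combination e0
    · -- quadratic a
      have hbd : b.natDegree = 2 := by omega
      have had : a.natDegree = 2 := by omega
      have a20 : a.coeff 2 ≠ 0 := by
        rw [show 2 = a.natDegree by omega, coeff_natDegree]
        exact leadingCoeff_ne_zero.mpr h.ane
      have b20 : b.coeff 2 ≠ 0 := by
        rw [show 2 = b.natDegree by omega, coeff_natDegree]
        refine leadingCoeff_ne_zero.mpr ?_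
        intro h2
        rw [h2] at hbd
        simp at hbd
      set κ := a.coeff 2 with hκ
      set x0 : ℝ := -a.coeff 1 / (2 * κ) with hx0
      have hs := (h.shift x0).scale (inv_ne_zero a20)
      set u' := u ∘ₗ taylor (-x0) with hu'
      -- normal forms
      have q2 : ∀ p : ℝ[X], p.natDegree ≤ 2 → p = C (p.coeff 2) * X ^ 2 + C (p.coeff 1) * X
          + C (p.coeff 0) := fun p hp =>
        eq_quadratic_of_degree_le_two (natDegree_le_iff_degree_le.mp hp)
      have nt : ∀ p : ℝ[X], (taylor x0 p).natDegree = p.natDegree := fun p => natDegree_taylor p x0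
      have ea : C κ⁻¹ * taylor x0 a = X ^ 2 - C (x0 ^ 2 - a.coeff 0 / κ) := by
        obtain ⟨a0, ha0⟩ : ∃ a0 : ℝ, a0 = a.coeff 0 := ⟨_, rfl⟩
        rw [← ha0]
        rw [q2 a (by omega), ← ha0]
        simp only [map_add, taylor_mul, taylor_C, taylor_X_pow, taylor_X]
        have e1 : (a.coeff 1 : ℝ) = -(2 * κ) * x0 := by rw [hx0]; field_simp
        rw [← hκ, e1]
        have e2 : (C κ⁻¹ * C κ : ℝ[X]) = 1 := by rw [← C_mul, inv_mul_cancel₀ a20, C_1]
        simp only [C_sub, C_pow, C_mul, C_neg, div_eq_inv_mul, map_ofNat C 2]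
        linear_combination (X ^ 2 - C x0 ^ 2) * e2
      have hlin : ∀ p : ℝ[X], p.natDegree ≤ 2 → C κ⁻¹ * taylor x0 p
          = C ((C κ⁻¹ * taylor x0 p).coeff 2) * X ^ 2 + C ((C κ⁻¹ * taylor x0 p).coeff 1) * X
          + C ((C κ⁻¹ * taylor x0 p).coeff 0) := fun p hp => q2 _
        ((natDegree_C_mul_le _ _).trans (by rw [nt]; exact hp))
      have hdl : C κ⁻¹ * taylor x0 d = C ((C κ⁻¹ * taylor x0 d).coeff 1) * X
          + C ((C κ⁻¹ * taylor x0 d).coeff 0) := eq_X_add_C_of_natDegree_le_one
        ((natDegree_C_mul_le _ _).trans (by rw [nt]; exact hd))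
      have hb' := hlin b (by omega)
      have hc' := hlin c hc
      set B2 := (C κ⁻¹ * taylor x0 b).coeff 2 with hB2
      set B1 := (C κ⁻¹ * taylor x0 b).coeff 1 with hB1
      set B0 := (C κ⁻¹ * taylor x0 b).coeff 0 with hB0
      set C2 := (C κ⁻¹ * taylor x0 c).coeff 2 with hC2
      set C1 := (C κ⁻¹ * taylor x0 c).coeff 1 with hC1
      set C0 := (C κ⁻¹ * taylor x0 c).coeff 0 with hC0
      set D1 := (C κ⁻¹ * taylor x0 d).coeff 1 with hD1
      set D0 := (C κ⁻¹ * taylor x0 d).coeff 0 with hD0
      rw [ea, hdl] at hs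
      have B20 : B2 ≠ 0 := by
        rw [hB2, coeff_C_mul]
        refine mul_ne_zero (inv_ne_zero a20) ?_
        have e3 : (taylor x0 b).natDegree = 2 := by rw [nt]; exact hbd
        rw [← e3, coeff_natDegree]
        refine leadingCoeff_ne_zero.mpr ?_
        intro h3
        rw [h3] at e3
        simp at e3
      have hrel : B2 * B2 = C2 := by
        have := hs.deg_two (by rw [hc']; compute_degree) (by compute_degree) (by compute_degree)
          (by rw [hb']; compute_degree) (by rw [← hB2]; exact B20)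
        rw [← hB2, ← hC2] at this
        have e4 : (X ^ 2 - C (x0 ^ 2 - a.coeff 0 / κ) : ℝ[X]).coeff 2 = 1 := by
          rw [coeff_sub, coeff_C]; simp
        rw [e4, one_mul] at this
        exact this
      rw [hb', hc', ← hrel, ← pow_two] at hs
      rcases quad_core B20 hs with ⟨θ, hθ⟩ | hθ
      · refine ⟨x0, Or.inr (Or.inl ⟨B2, θ, B20, fun k => ?_⟩)⟩
        have := hθ k
        rw [hu', LinearMap.comp_apply, LinearMap.comp_apply, hX, hX] at this
        exact this
      · refine ⟨x0, Or.inr (Or.inr ⟨B2, B20, fun k hk => ?_⟩)⟩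
        have := hθ k hk
        rw [hu', LinearMap.comp_apply, LinearMap.comp_apply, hX, hX] at this
        exact this

end Pool.Agent.W789.SOP
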