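import Pool.Agent.W789.SOP.Std1

set_option autoImplicit false
open MeasureTheory Polynomial Set

namespace Pool.Agent.W789.SOP

noncomputable def muH : Measure ℝ :=
  MeasureTheory.volume.withDensity (fun x : ℝ => ENNReal.ofReal (Real.exp (-(x ^ 2))))

theorem muH_eq : muH = volume.withDensity (fun x : ℝ => ENNReal.ofReal
    ((univ : Set ℝ).indicator (fun x : ℝ => Real.exp (-(x ^ 2))) x)) := by
  simp [muH]

theorem gint (k : ℕ) : Integrable (fun x : ℝ => Real.exp (-(x ^ 2)) * x ^ k) := by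
  have h := integrable_rpow_mul_exp_neg_mul_sq (b := 1) one_pos (s := (k : ℝ))
    (by have := Nat.cast_nonneg (α := ℝ) k; linarith)
  refine h.congr (Filter.Eventually.of_forall fun x => ?_)
  simp only [Real.rpow_natCast]
  rw [mul_comm, neg_one_mul]

theorem muH_int (f : ℝ → ℝ) : ∫ x, f x ∂muH = ∫ x, Real.exp (-(x ^ 2)) * f x := by
  rw [muH_eq, ind_int MeasurableSet.univ (by fun_prop) (fun x _ => (Real.exp_pos _).le),
    setIntegral_univ]

theorem muH_poly (k : ℕ) : Integrable (fun x : ℝ => x ^ k) muH := by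
  rw [muH_eq]
  refine ind_integrable MeasurableSet.univ (by fun_prop) (fun x _ => (Real.exp_pos _).le) ?_
  exact (gint k).integrableOn

theorem muH_zero : 0 < ev muH muH_poly (X ^ 0) := by
  rw [ev_apply, muH_int]
  have := integral_gaussian 1
  simp only [pow_zero, eval_one, mul_one]
  have e : (fun x : ℝ => Real.exp (-(x ^ 2))) = fun x : ℝ => Real.exp (-1 * x ^ 2) := by
    ext x; rw [neg_one_mul]
  rw [e, this]
  positivity

theorem hder (k : ℕ) (x : ℝ) : HasDerivAt (fun x : ℝ => Real.exp (-(x ^ 2)) * x ^ k)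
    (Real.exp (-(x ^ 2)) * ((k : ℝ) * x ^ (k - 1)) - 2 * (Real.exp (-(x ^ 2)) * x ^ (k + 1))) x := by
  have h1 : HasDerivAt (fun x : ℝ => -(x ^ 2)) (-(2 * x)) x := by
    have := (hasDerivAt_pow 2 x).fun_neg
    simpa using this
  have h2 := h1.exp.mul (hasDerivAt_pow k x)
  refine h2.congr_deriv ?_
  ring

theorem muH_one : ev muH muH_poly (X ^ 1) = 0 := by
  rw [ev_apply, muH_int]
  have h := integral_eq_zero_of_hasDerivAt_of_integrable (hder 0) ?_ (gint 0)
  · simp only [CharP.cast_eq_zero, zero_mul, mul_zero, zero_sub, zero_add] at h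
    rw [integral_neg, neg_eq_zero, integral_const_mul] at h
    simp only [eval_pow, eval_X]
    linarith
  · simp only [CharP.cast_eq_zero, zero_mul, mul_zero, zero_sub]
    exact ((gint 1).const_mul 2).neg

theorem muH_rec (k : ℕ) : ((k : ℝ) + 1) * ev muH muH_poly (X ^ k)
    = 2 * ev muH muH_poly (X ^ (k + 2)) := by
  rw [ev_apply, ev_apply, muH_int, muH_int]
  have h1 : Integrable (fun x : ℝ => Real.exp (-(x ^ 2)) * (((k + 1 : ℕ) : ℝ) * x ^ (k + 1 - 1))) := by
    have := (gint k).const_mul ((k : ℝ) + 1)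
    refine this.congr (Filter.Eventually.of_forall fun x => ?_)
    simp only [Nat.add_sub_cancel]
    push_cast; ring
  have h2 : Integrable (fun x : ℝ => 2 * (Real.exp (-(x ^ 2)) * x ^ (k + 1 + 1))) :=
    (gint (k + 2)).const_mul 2
  have h := integral_eq_zero_of_hasDerivAt_of_integrable (hder (k + 1)) (h1.sub h2) (gint (k + 1))
  rw [integral_sub h1 h2, integral_const_mul] at h
  simp only [eval_pow, eval_X]
  have e : ∫ x : ℝ, Real.exp (-(x ^ 2)) * (((k + 1 : ℕ) : ℝ) * x ^ (k + 1 - 1))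
      = ((k : ℝ) + 1) * ∫ x : ℝ, Real.exp (-(x ^ 2)) * x ^ k := by
    rw [← integral_const_mul]
    congr 1
    ext x
    simp only [Nat.add_sub_cancel]
    push_cast; ring
  rw [e] at h
  linarith

theorem hermite_case {u : ℝ[X] →ₗ[ℝ] ℝ} (hpos : ∀ q : ℝ[X], q ≠ 0 → 0 < u (q * q))
    {x0 κ β : ℝ} (hβ : β ≠ 0) (h1 : u (X - C x0) = 0)
    (hrec : ∀ k : ℕ, κ * ((k : ℝ) + 1) * u ((X - C x0) ^ k) + β * u ((X - C x0) ^ (k + 2)) = 0) :
    ∃ a b c : ℝ, a ≠ 0 ∧ c ≠ 0 ∧
      ∀ f : ℝ[X], ∫ x, (f.comp (C a * X + C b)).eval x ∂muH = c * u f := by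
  have m0 : 0 < u ((X - C x0) ^ 0) := by simpa using hpos 1 one_ne_zero
  have m2 : 0 < u ((X - C x0) ^ 2) := by
    rw [pow_two]; exact hpos _ (X_sub_C_ne_zero x0)
  have r0 := hrec 0
  simp only [CharP.cast_eq_zero, zero_add, mul_one] at r0
  set τ := -κ / β with hτ
  have hκτ : κ = -(τ * β) := by rw [hτ]; field_simp
  have hτ0 : 0 < τ := by
    have h3 : u ((X - C x0) ^ 2) = τ * u ((X - C x0) ^ 0) := by
      have : β * (u ((X - C x0) ^ 2) - τ * u ((X - C x0) ^ 0)) = 0 := by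
        rw [hκτ] at r0; linear_combination r0
      linarith [(mul_eq_zero.mp this).resolve_left hβ]
    by_contra hcon
    have := mul_nonneg (show 0 ≤ -τ by linarith) m0.le
    linarith
  have hrec' : ∀ k : ℕ, u ((X - C x0) ^ (k + 2)) = ((k : ℝ) + 1) * τ * u ((X - C x0) ^ k) := by
    intro k
    have h4 := hrec k
    have : β * (u ((X - C x0) ^ (k + 2)) - ((k : ℝ) + 1) * τ * u ((X - C x0) ^ k)) = 0 := by
      rw [hκτ] at h4; linear_combination h4
    linarith [(mul_eq_zero.mp this).resolve_left hβ]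
  set a := Real.sqrt (2 * τ) with ha
  have ha2 : a ^ 2 = 2 * τ := Real.sq_sqrt (by linarith)
  have ha0 : a ≠ 0 := (Real.sqrt_pos.mpr (by linarith)).ne'
  set c := ev muH muH_poly (X ^ 0) / u ((X - C x0) ^ 0) with hc
  have hc0 : c ≠ 0 := (div_pos muH_zero m0).ne'
  refine ⟨a, x0, c, ha0, hc0, ?_⟩
  have hmom : ∀ k : ℕ, a ^ k * ev muH muH_poly (X ^ k) = c * u ((X - C x0) ^ k) ∧
      a ^ (k + 1) * ev muH muH_poly (X ^ (k + 1)) = c * u ((X - C x0) ^ (k + 1)) := by
    intro k
    induction k with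
    | zero =>
      refine ⟨?_, ?_⟩
      · rw [hc]; field_simp
      · rw [zero_add, muH_one, pow_one (X - C x0), h1]; ring
    | succ k ih =>
      refine ⟨ih.2, ?_⟩
      have e1 := muH_rec k
      have e2 := hrec' k
      rw [show k + 1 + 1 = k + 2 from rfl, e2]
      have e3 : a ^ (k + 2) * ev muH muH_poly (X ^ (k + 2))
          = ((k : ℝ) + 1) * τ * (a ^ k * ev muH muH_poly (X ^ k)) := by
        rw [pow_add, ha2]
        linear_combination (-a ^ k * τ) * e1
      rw [e3, ih.1]; ring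
  have hext : evc muH muH_poly a x0 = c • u := by
    apply lin_ext x0
    intro k
    rw [evc_pow, (hmom k).1]; rfl
  intro f
  have := congrArg (fun v : ℝ[X] →ₗ[ℝ] ℝ => v f) hext
  exact this

end Pool.Agent.W789.SOP
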