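import Pool.Agent.W789.SOP.Std1

set_option autoImplicit false
open MeasureTheory Polynomial Set

namespace Pool.Agent.W789.SOP

theorem jint {p q α β : ℝ} (hpq : p < q) (hα : -1 < α) (hβ : -1 < β) :
    IntervalIntegrable (fun y : ℝ => (q - y) ^ α * (y - p) ^ β) volume p q := by
  set m := (p + q) / 2 with hm
  have hpm : p < m := by rw [hm]; linarith
  have hmq : m < q := by rw [hm]; linarith
  have h1 : IntervalIntegrable (fun y : ℝ => (q - y) ^ α * (y - p) ^ β) volume p m := by
    have h2 := (intervalIntegral.intervalIntegrable_rpow' (a := 0) (b := m - p) hβ).comp_sub_right p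
    rw [zero_add, sub_add_cancel] at h2
    have h3 := h2.mul_continuousOn (g := fun y : ℝ => (q - y) ^ α) (by
      rw [uIcc_of_le hpm.le]
      apply ContinuousOn.rpow_const (by fun_prop)
      intro y hy
      left
      have := hy.2
      linarith)
    refine h3.congr (fun y _ => ?_)
    ring
  have h1' : IntervalIntegrable (fun y : ℝ => (q - y) ^ α * (y - p) ^ β) volume m q := by
    have h2 := (intervalIntegral.intervalIntegrable_rpow' (a := 0) (b := q - m) hα).comp_sub_left q
    rw [sub_zero, sub_sub_cancel] at h2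
    exact h2.symm.mul_continuousOn (g := fun y : ℝ => (y - p) ^ β) (by
      rw [uIcc_of_le hmq.le]
      apply ContinuousOn.rpow_const (by fun_prop)
      intro y hy
      left
      have := hy.1
      linarith)
  exact h1.trans h1'

theorem jpearson {p q α β : ℝ} (hpq : p < q) (hα : -1 < α) (hβ : -1 < β) (h : ℝ[X]) :
    ∫ y in p..q, (q - y) ^ α * (y - p) ^ β * (prs p q α β h).eval y = 0 := by
  have hF := intervalIntegral.integral_eq_sub_of_hasDerivAt_of_le
    (f := fun y : ℝ => (q - y) ^ (α + 1) * (y - p) ^ (β + 1) * h.eval y)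
    (f' := fun y : ℝ => (q - y) ^ α * (y - p) ^ β * (prs p q α β h).eval y) hpq.le ?_ ?_ ?_
  · rw [hF]
    simp only [sub_self]
    rw [Real.zero_rpow (by linarith), Real.zero_rpow (by linarith)]
    ring
  · refine ContinuousOn.mul (ContinuousOn.mul ?_ ?_) h.continuous.continuousOn
    · exact ContinuousOn.rpow_const (by fun_prop) (fun y _ => Or.inr (by linarith))
    · exact ContinuousOn.rpow_const (by fun_prop) (fun y _ => Or.inr (by linarith))
  · intro y hy
    have h1 : 0 < q - y := by linarith [hy.2]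
    have h2 : 0 < y - p := by linarith [hy.1]
    have d1 : HasDerivAt (fun y : ℝ => (q - y) ^ (α + 1)) (-((α + 1) * (q - y) ^ α)) y := by
      have := ((hasDerivAt_id y).const_sub q).rpow_const (p := α + 1) (Or.inl h1.ne')
      refine this.congr_deriv ?_
      simp only [id, add_sub_cancel_right]
      ring
    have d2 : HasDerivAt (fun y : ℝ => (y - p) ^ (β + 1)) ((β + 1) * (y - p) ^ β) y := by
      have := ((hasDerivAt_id y).sub_const p).rpow_const (p := β + 1) (Or.inl h2.ne')
      refine this.congr_deriv ?_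
      simp only [id, add_sub_cancel_right]
      ring
    have d3 := (d1.mul d2).mul (h.hasDerivAt y)
    refine d3.congr_deriv ?_
    have e1 : (q - y) ^ (α + 1) = (q - y) ^ α * (q - y) := Real.rpow_add_one h1.ne' α
    have e2 : (y - p) ^ (β + 1) = (y - p) ^ β * (y - p) := Real.rpow_add_one h2.ne' β
    simp only [Pi.mul_apply]
    rw [e1, e2, prs]
    simp only [eval_add, eval_mul, eval_sub, eval_C, eval_X]
    ring
  · exact (jint hpq hα hβ).mul_continuousOn (prs p q α β h).continuous.continuousOn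

theorem jpos {p q α β : ℝ} (hpq : p < q) (hα : -1 < α) (hβ : -1 < β) :
    0 < ∫ y in p..q, (q - y) ^ α * (y - p) ^ β := by
  apply intervalIntegral.intervalIntegral_pos_of_pos_on (jint hpq hα hβ) _ hpq
  intro y hy
  exact mul_pos (Real.rpow_pos_of_pos (by linarith [hy.2]) _)
    (Real.rpow_pos_of_pos (by linarith [hy.1]) _)

/-- Being given by the Jacobi weight. -/
def IsJ (p q α β : ℝ) (μ : Measure ℝ) : Prop :=
  ∀ f : ℝ[X], ∫ x, f.eval x ∂μ = ∫ y in p..q, (q - y) ^ α * (y - p) ^ β * f.eval y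

theorem IsJ.pearson {p q α β : ℝ} (hpq : p < q) (hα : -1 < α) (hβ : -1 < β) {μ : Measure ℝ}
    (h : IsJ p q α β μ) (hμ : ∀ k : ℕ, Integrable (fun x : ℝ => x ^ k) μ) :
    Pearson p q α β (ev μ hμ) := by
  intro f
  rw [ev_apply, h, jpearson hpq hα hβ]

theorem IsJ.pos {p q α β : ℝ} (hpq : p < q) (hα : -1 < α) (hβ : -1 < β) {μ : Measure ℝ}
    (h : IsJ p q α β μ) (hμ : ∀ k : ℕ, Integrable (fun x : ℝ => x ^ k) μ) :
    0 < ev μ hμ 1 := by
  rw [ev_apply, h]
  simpa using jpos hpq hα hβ

theorem prs_swap (p q α β : ℝ) (h : ℝ[X]) : prs q p β α h = prs p q α β h := by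
  unfold prs; ring

theorem pearson_affine {p q p' q' α β a b : ℝ} (hp : a * p' + b = p)
    (hq : a * q' + b = q) {μ : Measure ℝ} (hμ : ∀ k : ℕ, Integrable (fun x : ℝ => x ^ k) μ)
    (h : Pearson p' q' α β (ev μ hμ)) : Pearson p q α β (evc μ hμ a b) := by
  intro f
  rw [evc_apply]
  have e : (prs p q α β f).comp (C a * X + C b)
      = C a * prs p' q' α β (f.comp (C a * X + C b)) := by
    unfold prs
    rw [derivative_comp]
    simp only [add_comp, mul_comp, sub_comp, X_comp, C_comp, derivative_add, derivative_C_mul,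
      derivative_X, derivative_C, add_zero, mul_one]
    rw [← hp, ← hq]
    simp only [C_add, C_mul]
    ring
  rw [e, C_mul', map_smul, h, smul_zero]

theorem match_up {p q α β : ℝ} (hα : -1 < α) (hβ : -1 < β) {u v : ℝ[X] →ₗ[ℝ] ℝ}
    (hu : Pearson p q α β u) (hv : Pearson p q α β v) (hu1 : 0 < u 1) (hv1 : 0 < v 1) :
    ∃ c : ℝ, 0 < c ∧ ∀ f, v f = c * u f := by
  refine ⟨v 1 / u 1, div_pos hv1 hu1, ?_⟩
  have h0 : v - (v 1 / u 1) • u = 0 := by
    refine Pearson.unique (p := p) (q := q) hα hβ ?_ ?_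
    · intro f
      rw [LinearMap.sub_apply, LinearMap.smul_apply, hu, hv, smul_zero, sub_zero]
    · rw [LinearMap.sub_apply, LinearMap.smul_apply, smul_eq_mul, div_mul_cancel₀ _ hu1.ne',
        sub_self]
  intro f
  have := congrArg (fun w : ℝ[X] →ₗ[ℝ] ℝ => w f) h0
  simp only [LinearMap.sub_apply, LinearMap.smul_apply, smul_eq_mul, LinearMap.zero_apply] at this
  linarith

/-- Jacobi measure on `[-1,1]`. -/
noncomputable def muJ (α β : ℝ) : Measure ℝ :=
  MeasureTheory.volume.withDensity (fun x : ℝ => ENNReal.ofReal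
            ((Set.Icc (-1 : ℝ) 1).indicator (fun y : ℝ => (1 - y) ^ α * (1 + y) ^ β) x))

theorem muJ_w0 (α β : ℝ) : ∀ x ∈ Icc (-1 : ℝ) 1, 0 ≤ (1 - x) ^ α * (1 + x) ^ β := fun _ hx =>
  mul_nonneg (Real.rpow_nonneg (by linarith [hx.2]) _) (Real.rpow_nonneg (by linarith [hx.1]) _)

theorem muJ_meas (α β : ℝ) : Measurable (fun y : ℝ => (1 - y) ^ α * (1 + y) ^ β) := by
  fun_prop

theorem muJ_is (α β : ℝ) : IsJ (-1) 1 α β (muJ α β) := by
  intro f
  rw [muJ, ind_int measurableSet_Icc (muJ_meas α β) (muJ_w0 α β), integral_Icc_eq_integral_Ioc,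
    ← intervalIntegral.integral_of_le (by norm_num)]
  congr 1
  ext y
  rw [sub_neg_eq_add, add_comm y 1]

theorem muJ_poly {α β : ℝ} (hα : -1 < α) (hβ : -1 < β) (k : ℕ) :
    Integrable (fun x : ℝ => x ^ k) (muJ α β) := by
  refine ind_integrable measurableSet_Icc (muJ_meas α β) (muJ_w0 α β) ?_
  rw [integrableOn_Icc_iff_integrableOn_Ioc,
    ← intervalIntegrable_iff_integrableOn_Ioc_of_le (by norm_num)]
  have h := (jint (p := -1) (q := 1) (by norm_num) hα hβ).mul_continuousOn
    (g := fun x : ℝ => x ^ k) (by fun_prop)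
  refine h.congr (fun y _ => ?_)
  rw [sub_neg_eq_add, add_comm y 1]

/-- Jacobi measure on `[0,1]`, right exponent only. -/
noncomputable def muN (α : ℝ) : Measure ℝ :=
  MeasureTheory.volume.withDensity (fun x : ℝ => ENNReal.ofReal
              ((Set.Ico (0 : ℝ) 1).indicator (fun y : ℝ => (1 - y) ^ α) x))

theorem muN_w0 (α : ℝ) : ∀ x ∈ Ico (0 : ℝ) 1, 0 ≤ (1 - x) ^ α := fun _ hx =>
  Real.rpow_nonneg (by linarith [hx.2]) _

theorem muN_meas (α : ℝ) : Measurable (fun y : ℝ => (1 - y) ^ α) := by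
  fun_prop

theorem muN_is (α : ℝ) : IsJ 0 1 α 0 (muN α) := by
  intro f
  rw [muN, ind_int measurableSet_Ico (muN_meas α) (muN_w0 α), integral_Ico_eq_integral_Ioo,
    ← integral_Ioc_eq_integral_Ioo,
    ← intervalIntegral.integral_of_le (by norm_num)]
  congr 1
  ext y
  rw [Real.rpow_zero, mul_one]

theorem muN_poly {α : ℝ} (hα : -1 < α) (k : ℕ) :
    Integrable (fun x : ℝ => x ^ k) (muN α) := by
  refine ind_integrable measurableSet_Ico (muN_meas α) (muN_w0 α) ?_
  have h := (jint (p := 0) (q := 1) (by norm_num) hα (β := 0) (by norm_num)).mul_continuousOn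
    (g := fun x : ℝ => x ^ k) (by fun_prop)
  rw [intervalIntegrable_iff_integrableOn_Ico_of_le (by norm_num)] at h
  refine h.congr (Filter.Eventually.of_forall fun y => ?_)
  simp only []
  rw [Real.rpow_zero, mul_one]

/-- Lebesgue measure on `[-1,1]`. -/
noncomputable def muE : Measure ℝ := MeasureTheory.volume.restrict (Set.Icc (-1 : ℝ) 1)

theorem muE_is : IsJ (-1) 1 0 0 muE := by
  intro f
  rw [muE, integral_Icc_eq_integral_Ioc,
    ← intervalIntegral.integral_of_le (by norm_num)]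
  congr 1
  ext y
  rw [Real.rpow_zero, Real.rpow_zero, one_mul, one_mul]

theorem muE_poly (k : ℕ) : Integrable (fun x : ℝ => x ^ k) muE :=
  (by fun_prop : Continuous (fun x : ℝ => x ^ k)).continuousOn.integrableOn_compact isCompact_Icc

theorem int_mass {μ ν : Measure ℝ} (hμ : ∀ k : ℕ, Integrable (fun x : ℝ => x ^ k) μ)
    {r : ℝ} (hr : 0 ≤ r) [IsFiniteMeasure ν] (f : ℝ[X]) (hν : Integrable (fun x => f.eval x) ν) :
    ∫ x, f.eval x ∂(μ + ENNReal.ofReal r • ν) = ev μ hμ f + r * ∫ x, f.eval x ∂ν := by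
  rw [integral_add_measure (int_poly hμ f) (hν.smul_measure ENNReal.ofReal_ne_top),
    integral_smul_measure, ENNReal.toReal_ofReal hr, ev_apply, smul_eq_mul]

theorem evc_one (μ : Measure ℝ) (hμ : ∀ k : ℕ, Integrable (fun x : ℝ => x ^ k) μ) (a b : ℝ) :
    evc μ hμ a b 1 = ev μ hμ 1 := by
  rw [evc_apply, one_comp]

theorem eval_aff (f : ℝ[X]) (a b x : ℝ) : (f.comp (C a * X + C b)).eval x = f.eval (a * x + b) := by
  simp [eval_comp]

end Pool.Agent.W789.SOP
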