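import Pool.Agent.W789.SOP.Std1

set_option autoImplicit false
open MeasureTheory Polynomial Set

namespace Pool.Agent.W789.SOP

noncomputable def muL (α : ℝ) : Measure ℝ :=
  MeasureTheory.volume.withDensity (fun x : ℝ => ENNReal.ofReal
            ((Set.Ioi (0 : ℝ)).indicator (fun y : ℝ => y ^ α * Real.exp (-y)) x))

theorem lint {α : ℝ} (hα : -1 < α) (k : ℕ) :
    IntegrableOn (fun y : ℝ => (y ^ α * Real.exp (-y)) * y ^ k) (Ioi 0) := by
  have hk : (0 : ℝ) ≤ k := Nat.cast_nonneg k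
  have h := Real.GammaIntegral_convergent (s := (k : ℝ) + α + 1) (by linarith)
  refine h.congr_fun (fun y hy => ?_) measurableSet_Ioi
  simp only []
  have hy0 : (0 : ℝ) < y := hy
  rw [show (k : ℝ) + α + 1 - 1 = α + k by ring, Real.rpow_add_natCast hy0.ne']
  ring

theorem muL_w0 (α : ℝ) : ∀ x ∈ Ioi (0 : ℝ), 0 ≤ x ^ α * Real.exp (-x) := fun _ hx =>
  mul_nonneg (Real.rpow_nonneg (le_of_lt hx) _) (Real.exp_pos _).le

theorem muL_meas (α : ℝ) : Measurable (fun y : ℝ => y ^ α * Real.exp (-y)) := by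
  fun_prop

theorem muL_poly {α : ℝ} (hα : -1 < α) (k : ℕ) : Integrable (fun x : ℝ => x ^ k) (muL α) :=
  ind_integrable measurableSet_Ioi (muL_meas α) (muL_w0 α) (lint hα k)

theorem muL_mom {α : ℝ} (hα : -1 < α) (k : ℕ) :
    ev (muL α) (muL_poly hα) (X ^ k) = Real.Gamma (k + α + 1) := by
  have hk : (0 : ℝ) ≤ k := Nat.cast_nonneg k
  rw [ev_apply, muL, ind_int measurableSet_Ioi (muL_meas α) (muL_w0 α),
    Real.Gamma_eq_integral (by linarith)]
  apply setIntegral_congr_fun measurableSet_Ioi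
  intro y hy
  have hy0 : (0 : ℝ) < y := hy
  simp only [eval_pow, eval_X]
  rw [show (k : ℝ) + α + 1 - 1 = α + k by ring, Real.rpow_add_natCast hy0.ne']
  ring

theorem muL_rec {α : ℝ} (hα : -1 < α) (k : ℕ) :
    ev (muL α) (muL_poly hα) (X ^ (k + 1)) = (k + α + 1) * ev (muL α) (muL_poly hα) (X ^ k) := by
  have hk : (0 : ℝ) ≤ k := Nat.cast_nonneg k
  rw [muL_mom hα, muL_mom hα]
  rw [← Real.Gamma_add_one (by linarith)]
  congr 1
  push_cast; ring

theorem muL_zero {α : ℝ} (hα : -1 < α) : 0 < ev (muL α) (muL_poly hα) (X ^ 0) := by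
  rw [muL_mom hα]
  apply Real.Gamma_pos_of_pos
  simp only [CharP.cast_eq_zero, zero_add]
  linarith

theorem laguerre_case {u : ℝ[X] →ₗ[ℝ] ℝ} (hpos : ∀ q : ℝ[X], q ≠ 0 → 0 < u (q * q))
    {x0 ρ θ : ℝ} (hρ : ρ ≠ 0)
    (hrec : ∀ k : ℕ, ((k : ℝ) + θ) * u ((X - C x0) ^ k) + ρ * u ((X - C x0) ^ (k + 1)) = 0) :
    ∃ α : ℝ, -1 < α ∧ ∃ a b c : ℝ, a ≠ 0 ∧ c ≠ 0 ∧
      ∀ f : ℝ[X], ∫ x, (f.comp (C a * X + C b)).eval x ∂(muL α) = c * u f := by
  have m0 : 0 < u ((X - C x0) ^ 0) := by simpa using hpos 1 one_ne_zero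
  set a := -1 / ρ with ha
  have ha0 : a ≠ 0 := div_ne_zero (by norm_num) hρ
  have hρa : ρ * a = -1 := by rw [ha]; field_simp
  have hrec' : ∀ k : ℕ, u ((X - C x0) ^ (k + 1)) = a * ((k : ℝ) + θ) * u ((X - C x0) ^ k) := by
    intro k
    have h4 := hrec k
    linear_combination (-a) * h4 + (u ((X - C x0) ^ (k + 1))) * hρa
  have m1 := hrec' 0
  have m2 := hrec' 1
  simp only [CharP.cast_eq_zero, zero_add, Nat.cast_one] at m1 m2
  -- variance
  have hvar : 0 < θ := by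
    have h5 := hpos ((X - C x0) ^ 1 - C (a * θ)) (by
      rw [pow_one]
      have : (X - C x0 - C (a * θ) : ℝ[X]) = X - C (x0 + a * θ) := by rw [C_add]; ring
      rw [this]; exact X_sub_C_ne_zero _)
    have e : ((X - C x0) ^ 1 - C (a * θ)) * ((X - C x0) ^ 1 - C (a * θ))
        = (X - C x0) ^ (1 + 1) + C (-(2 * (a * θ))) * (X - C x0) ^ 1
          + C ((a * θ) ^ 2) * (X - C x0) ^ 0 := by
      rw [C_neg, C_pow, C_mul (a := 2)]
      have : (C 2 : ℝ[X]) = 2 := rfl
      rw [this]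
      ring
    rw [e, map_add, map_add, C_mul', C_mul', map_smul, map_smul, smul_eq_mul, smul_eq_mul, m2,
      m1] at h5
    have e2 : a * (1 + θ) * (a * θ * u ((X - C x0) ^ 0)) + -(2 * (a * θ)) * (a * θ * u ((X - C x0) ^ 0))
        + (a * θ) ^ 2 * u ((X - C x0) ^ 0) = a ^ 2 * u ((X - C x0) ^ 0) * θ := by ring
    rw [e2] at h5
    exact (mul_pos_iff_of_pos_left (mul_pos (by positivity) m0)).mp h5
  have hα : -1 < θ - 1 := by linarith
  set c := ev (muL (θ - 1)) (muL_poly hα) (X ^ 0) / u ((X - C x0) ^ 0) with hc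
  have hc0 : c ≠ 0 := (div_pos (muL_zero hα) m0).ne'
  refine ⟨θ - 1, hα, a, x0, c, ha0, hc0, ?_⟩
  have hmom : ∀ k : ℕ, a ^ k * ev (muL (θ - 1)) (muL_poly hα) (X ^ k) = c * u ((X - C x0) ^ k) := by
    intro k
    induction k with
    | zero => rw [hc]; field_simp
    | succ k ih =>
      rw [hrec' k, muL_rec hα k, pow_succ]
      linear_combination (a * (k + θ)) * ih
  have hext : evc (muL (θ - 1)) (muL_poly hα) a x0 = c • u := by
    apply lin_ext x0
    intro k
    rw [evc_pow, hmom k]; rfl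
  intro f
  have := congrArg (fun v : ℝ[X] →ₗ[ℝ] ℝ => v f) hext
  exact this

/-! Laguerre polynomials at the origin -/

/-- `(D - 1)^i F`. -/
noncomputable def dm (i : ℕ) (F : ℝ[X]) : ℝ[X] := (fun G => derivative G - G)^[i] F

theorem dm_succ (i : ℕ) (F : ℝ[X]) : dm (i + 1) F = dm i (derivative F - F) := rfl

theorem Xpow_dvd {i : ℕ} {F : ℝ[X]} (h : X ^ (i + 1) ∣ F) : X ^ i ∣ derivative F - F := by
  obtain ⟨G, rfl⟩ := h
  refine ⟨(C ((i : ℝ) + 1) * G + X * derivative G) - X * G, ?_⟩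
  rw [derivative_mul, derivative_X_pow]
  push_cast
  simp only [C_add, map_natCast, C_1]
  ring

theorem dm_orth {Λ : ℝ[X] →ₗ[ℝ] ℝ} (hΛ : ∀ F : ℝ[X], Λ (derivative F) = Λ F - F.eval 0)
    (i : ℕ) : ∀ (F G : ℝ[X]), X ^ i ∣ F → Λ (dm i F * G) = (-1) ^ i * Λ (F * derivative^[i] G) := by
  induction i with
  | zero => intro F G _; simp [dm]
  | succ i ih =>
    intro F G hF
    rw [dm_succ, ih _ _ (Xpow_dvd hF)]
    have h0 : F.eval 0 = 0 := by
      obtain ⟨K, rfl⟩ := hF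
      simp
    have h1 := hΛ (F * derivative^[i] G)
    rw [derivative_mul, eval_mul, h0, zero_mul, sub_zero, map_add] at h1
    rw [sub_mul, map_sub, Function.iterate_succ_apply']
    have h2 : Λ (derivative F * derivative^[i] G) - Λ (F * derivative^[i] G)
        = - Λ (F * derivative (derivative^[i] G)) := by linarith
    rw [h2, pow_succ]; ring

theorem iter_eval0 (i : ℕ) (F : ℝ[X]) :
    (derivative^[i] F).eval 0 = (i.factorial : ℝ) * F.coeff i := by
  rw [← coeff_zero_eq_eval_zero, coeff_iterate_derivative, zero_add, Nat.descFactorial_self,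
    nsmul_eq_mul]

theorem dm_eval0 (i : ℕ) : ∀ (F : ℝ[X]), X ^ i ∣ F →
    (dm i F).eval 0 = (i.factorial : ℝ) * F.coeff i := by
  induction i with
  | zero => intro F _; rw [← iter_eval0]; rfl
  | succ i ih =>
    intro F hF
    rw [dm_succ, ih _ (Xpow_dvd hF), coeff_sub, X_pow_dvd_iff.mp hF i (Nat.lt_succ_self i),
      sub_zero, coeff_derivative, Nat.factorial_succ]
    push_cast; ring

theorem dm_derivative (i : ℕ) : ∀ F : ℝ[X], derivative (dm i F) = dm i (derivative F) := by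
  induction i with
  | zero => intro F; rfl
  | succ i ih => intro F; rw [dm_succ, ih, dm_succ, derivative_sub]

theorem dm_iter (i k : ℕ) (F : ℝ[X]) : derivative^[k] (dm i F) = dm i (derivative^[k] F) := by
  induction k with
  | zero => rfl
  | succ k ih => rw [Function.iterate_succ_apply', ih, dm_derivative, Function.iterate_succ_apply']

theorem dm_C (i : ℕ) : ∀ r : ℝ, dm i (C r) = C ((-1) ^ i * r) := by
  induction i with
  | zero => intro r; simp [dm]
  | succ i ih =>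
    intro r
    rw [dm_succ, derivative_C, zero_sub, ← C_neg, ih]
    congr 1; ring

theorem dX_self (i : ℕ) : derivative^[i] (X ^ i : ℝ[X]) = C (i.factorial : ℝ) := by
  rw [iterate_derivative_X_pow_eq_smul, Nat.descFactorial_self, Nat.sub_self, pow_zero,
    smul_eq_C_mul, mul_one]

theorem dX_lt {i j : ℕ} (h : j < i) : derivative^[i] (X ^ j : ℝ[X]) = 0 := by
  apply iterate_derivative_eq_zero
  rwa [natDegree_X_pow]

noncomputable def lg (i : ℕ) : ℝ[X] := C ((i.factorial : ℝ)⁻¹) * dm i (X ^ i)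

theorem lg_eval0 (i : ℕ) : (lg i).eval 0 = 1 := by
  have : (i.factorial : ℝ) ≠ 0 := Nat.cast_ne_zero.mpr (Nat.factorial_ne_zero i)
  rw [lg, eval_mul, eval_C, dm_eval0 i _ dvd_rfl, coeff_X_pow_self]
  field_simp

theorem lg_orth_lt {Λ : ℝ[X] →ₗ[ℝ] ℝ} (hΛ : ∀ F : ℝ[X], Λ (derivative F) = Λ F - F.eval 0)
    {i j : ℕ} (h : j < i) : Λ (lg i * lg j) = 0 := by
  have e : lg i * lg j = C ((i.factorial : ℝ)⁻¹) * (dm i (X ^ i) * lg j) := by rw [lg]; ring
  rw [e, C_mul', map_smul, dm_orth hΛ i _ _ dvd_rfl]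
  have : derivative^[i] (lg j) = 0 := by
    rw [lg, iterate_derivative_C_mul, dm_iter, dX_lt h]
    have := dm_C j 0
    rw [C_0] at this
    rw [this]
    simp
  rw [this, mul_zero, map_zero, mul_zero, smul_zero]

theorem lg_self {Λ : ℝ[X] →ₗ[ℝ] ℝ} (hΛ : ∀ F : ℝ[X], Λ (derivative F) = Λ F - F.eval 0)
    (hm : ∀ k : ℕ, Λ (X ^ k) = (k.factorial : ℝ)) (i : ℕ) : Λ (lg i * lg i) = 1 := by
  have h0 : (i.factorial : ℝ) ≠ 0 := Nat.cast_ne_zero.mpr (Nat.factorial_ne_zero i)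
  have e : lg i * lg i = C ((i.factorial : ℝ)⁻¹) * (dm i (X ^ i) * lg i) := by rw [lg]; ring
  rw [e, C_mul', map_smul, dm_orth hΛ i _ _ dvd_rfl]
  have : derivative^[i] (lg i) = C ((-1) ^ i) := by
    rw [lg, iterate_derivative_C_mul, dm_iter, dX_self, dm_C, ← C_mul]
    congr 1
    field_simp
  rw [this, mul_comm (X ^ i) (C _), C_mul', map_smul, hm, smul_eq_mul, smul_eq_mul, ← mul_assoc,
    ← mul_assoc]
  have e2 : ((-1 : ℝ) ^ i) * (-1) ^ i = 1 := by rw [← mul_pow]; simp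
  have : ((i.factorial : ℝ)⁻¹ * (-1) ^ i * (-1) ^ i) * (i.factorial : ℝ)
    = ((i.factorial : ℝ)⁻¹ * (i.factorial : ℝ)) * ((-1) ^ i * (-1) ^ i) := by ring
  rw [this, e2, inv_mul_cancel₀ h0, one_mul]

theorem lg_sum {Λ : ℝ[X] →ₗ[ℝ] ℝ} (hΛ : ∀ F : ℝ[X], Λ (derivative F) = Λ F - F.eval 0)
    (hm : ∀ k : ℕ, Λ (X ^ k) = (k.factorial : ℝ)) (n : ℕ) :
    Λ ((∑ i ∈ Finset.range n, lg i) * (∑ i ∈ Finset.range n, lg i)) = n := by
  rw [Finset.sum_mul_sum, map_sum]
  have : ∀ i ∈ Finset.range n, Λ (∑ j ∈ Finset.range n, lg i * lg j) = 1 := by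
    intro i hi
    rw [map_sum, Finset.sum_eq_single i]
    · exact lg_self hΛ hm i
    · intro j _ hj
      rcases lt_or_gt_of_ne hj with h | h
      · exact lg_orth_lt hΛ h
      · rw [mul_comm]; exact lg_orth_lt hΛ h
    · intro h; exact absurd hi h
  rw [Finset.sum_congr rfl this]
  simp

theorem lg_sum_eval (n : ℕ) : (∑ i ∈ Finset.range n, lg i).eval 0 = n := by
  rw [eval_finsetSum]
  simp [lg_eval0]

theorem hα0 : (-1 : ℝ) < 0 := by norm_num

theorem muL0_mom (k : ℕ) : ev (muL 0) (muL_poly hα0) (X ^ k) = (k.factorial : ℝ) := by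
  rw [muL_mom hα0, add_zero]
  exact Real.Gamma_nat_eq_factorial k

theorem muL0_der (F : ℝ[X]) : ev (muL 0) (muL_poly hα0) (derivative F)
    = ev (muL 0) (muL_poly hα0) F - F.eval 0 := by
  have key : (ev (muL 0) (muL_poly hα0)).comp derivative
      = ev (muL 0) (muL_poly hα0) - (leval 0) := by
    apply lin_ext 0
    intro k
    rw [C_0, sub_zero, LinearMap.comp_apply, LinearMap.sub_apply, muL0_mom, leval_apply, eval_pow,
      eval_X, derivative_X_pow, C_mul', map_smul, muL0_mom, smul_eq_mul]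
    rcases Nat.eq_zero_or_pos k with hk | hk
    · subst hk; simp
    · rw [zero_pow hk.ne', sub_zero]
      obtain ⟨m, rfl⟩ : ∃ m, k = m + 1 := ⟨k - 1, by omega⟩
      rw [Nat.add_sub_cancel, Nat.factorial_succ]
      push_cast; ring
  exact congrArg (fun v : ℝ[X] →ₗ[ℝ] ℝ => v F) key

theorem laguerre_type_case {u : ℝ[X] →ₗ[ℝ] ℝ} (hpos : ∀ q : ℝ[X], q ≠ 0 → 0 < u (q * q))
    {x0 ρ : ℝ} (hρ : ρ ≠ 0)
    (hrec : ∀ k : ℕ, 1 ≤ k → ((k : ℝ) + 1) * u ((X - C x0) ^ k)
      + ρ * u ((X - C x0) ^ (k + 1)) = 0) :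
    ∃ a b c M : ℝ, a ≠ 0 ∧ c ≠ 0 ∧ 0 ≤ M ∧
      ∀ f : ℝ[X], ev (muL 0) (muL_poly hα0) (f.comp (C a * X + C b)) + M * f.eval b = c * u f := by
  set a := -1 / ρ with ha
  have ha0 : a ≠ 0 := div_ne_zero (by norm_num) hρ
  have hρa : ρ * a = -1 := by rw [ha]; field_simp
  have hrec' : ∀ k : ℕ, u ((X - C x0) ^ (k + 2)) = a * ((k : ℝ) + 2) * u ((X - C x0) ^ (k + 1)) := by
    intro k
    have h4 := hrec (k + 1) (by omega)
    push_cast at h4
    linear_combination (-a) * h4 + (u ((X - C x0) ^ (k + 1 + 1))) * hρa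
  set g := u ((X - C x0) ^ 1) / a with hg
  have hg1 : u ((X - C x0) ^ 1) = a * g := by rw [hg]; field_simp
  have hg0 : 0 < g := by
    have m2 : 0 < u ((X - C x0) ^ (0 + 2)) := by
      rw [zero_add, pow_two]; exact hpos _ (X_sub_C_ne_zero x0)
    rw [hrec' 0, hg1] at m2
    have : a * (((0 : ℕ) : ℝ) + 2) * (a * g) = (2 * a ^ 2) * g := by push_cast; ring
    rw [this] at m2
    exact (mul_pos_iff_of_pos_left (by positivity)).mp m2
  set M := u ((X - C x0) ^ 0) / g - 1 with hM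
  have hM0 : u ((X - C x0) ^ 0) = g * (1 + M) := by rw [hM]; field_simp; ring
  have hmom : ∀ k : ℕ, u ((X - C x0) ^ (k + 1)) = g * (a ^ (k + 1) * ((k + 1).factorial : ℝ)) := by
    intro k
    induction k with
    | zero => rw [zero_add, hg1]; simp; ring
    | succ k ih =>
      rw [show k + 1 + 1 = k + 2 from rfl, hrec' k, ih, Nat.factorial_succ (k + 1)]
      push_cast; ring
  have hext : g • (evc (muL 0) (muL_poly hα0) a x0 + M • leval x0) = u := by
    apply lin_ext x0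
    intro k
    rw [LinearMap.smul_apply, LinearMap.add_apply, LinearMap.smul_apply, evc_pow, muL0_mom,
      leval_apply, eval_pow, eval_sub, eval_X, eval_C, sub_self]
    rcases Nat.eq_zero_or_pos k with hk | hk
    · subst hk
      rw [hM0]
      simp
    · obtain ⟨m, rfl⟩ : ∃ m, k = m + 1 := ⟨k - 1, by omega⟩
      rw [hmom m, zero_pow (by omega)]
      simp
  have hu : ∀ f : ℝ[X], u f = g * (ev (muL 0) (muL_poly hα0) (f.comp (C a * X + C x0))
      + M * f.eval x0) := by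
    intro f
    conv_lhs => rw [← hext]
    rfl
  have hMn : 0 ≤ M := by
    by_contra hcon
    push Not at hcon
    obtain ⟨n, hn⟩ := exists_nat_gt (1 / (-M))
    have hn0 : (0 : ℝ) < n := lt_trans (one_div_pos.mpr (by linarith)) hn
    set q := ∑ i ∈ Finset.range n, lg i with hq
    set P := q.comp (C a⁻¹ * (X - C x0)) with hP
    have hPc : P.comp (C a * X + C x0) = q := by
      rw [hP, comp_assoc]
      have : (C a⁻¹ * (X - C x0) : ℝ[X]).comp (C a * X + C x0) = X := by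
        simp only [mul_comp, C_comp, sub_comp, X_comp, add_sub_cancel_right]
        rw [← mul_assoc, ← C_mul, inv_mul_cancel₀ ha0, C_1, one_mul]
      rw [this, comp_X]
    have hP0 : P.eval x0 = n := by
      rw [hP, eval_comp]
      simp only [eval_mul, eval_sub, eval_C, eval_X, sub_self, mul_zero]
      exact lg_sum_eval n
    have hPne : P ≠ 0 := by
      intro h0
      rw [h0, eval_zero] at hP0
      linarith
    have h6 := hpos P hPne
    rw [hu, mul_comp, hPc, eval_mul, hP0, lg_sum muL0_der muL0_mom n] at h6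
    have h7 : (n : ℝ) + M * (n * n) = n * (1 - n * (-M)) := by ring
    rw [h7] at h6
    have h8 : 1 < n * (-M) := by
      rw [div_lt_iff₀ (by linarith)] at hn
      exact hn
    have h9 : g * (n * (1 - n * (-M))) < 0 := by
      apply mul_neg_of_pos_of_neg hg0
      apply mul_neg_of_pos_of_neg hn0
      linarith
    linarith
  refine ⟨a, x0, 1 / g, M, ha0, (one_div_pos.mpr hg0).ne', hMn, ?_⟩
  intro f
  rw [hu f]
  field_simp

end Pool.Agent.W789.SOP
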