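import Pool.Agent.W789.SOP.Compact2
import Pool.Agent.W789.SOP.StdH
import Pool.Agent.W789.SOP.StdL
import Pool.Agent.W789.SOP.StdJ
import Pool.Agent.W789.SOP.Deg
import Pool.Agent.W789.SOP.Basic

set_option autoImplicit false
open MeasureTheory Polynomial Set

namespace Pool.Agent.W789.SOP

/-- The six families. -/
def Fam (μ : MeasureTheory.Measure ℝ) : Prop :=
      ((∃ α β : ℝ, -1 < α ∧ -1 < β ∧
          μ = MeasureTheory.volume.withDensity (fun x : ℝ => ENNReal.ofReal
            ((Set.Icc (-1 : ℝ) 1).indicator (fun y : ℝ => (1 - y) ^ α * (1 + y) ^ β) x)))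
        ∨ (∃ α : ℝ, -1 < α ∧
          μ = MeasureTheory.volume.withDensity (fun x : ℝ => ENNReal.ofReal
            ((Set.Ioi (0 : ℝ)).indicator (fun y : ℝ => y ^ α * Real.exp (-y)) x)))
        ∨ (μ = MeasureTheory.volume.withDensity (fun x : ℝ => ENNReal.ofReal
            (Real.exp (-(x ^ 2)))))
        ∨ (∃ A : ℝ, 0 < A ∧
          μ = MeasureTheory.volume.restrict (Set.Icc (-1 : ℝ) 1)
            + ENNReal.ofReal (1 / A) • (MeasureTheory.Measure.dirac (-1 : ℝ)
                + MeasureTheory.Measure.dirac (1 : ℝ)))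
        ∨ (∃ R : ℝ, 0 < R ∧
          μ = MeasureTheory.volume.withDensity (fun x : ℝ => ENNReal.ofReal
            ((Set.Ioi (0 : ℝ)).indicator (fun y : ℝ => Real.exp (-y)) x))
            + ENNReal.ofReal (1 / R) • MeasureTheory.Measure.dirac (0 : ℝ))
        ∨ (∃ α M : ℝ, -1 < α ∧ 0 < M ∧
          μ = MeasureTheory.volume.withDensity (fun x : ℝ => ENNReal.ofReal
            ((Set.Ico (0 : ℝ) 1).indicator (fun y : ℝ => (1 - y) ^ α) x))
            + ENNReal.ofReal (1 / M) • MeasureTheory.Measure.dirac (0 : ℝ)))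

/-- Affine equivalence (on polynomials, up to a constant) with a member of the six families. -/
def Cla (u : ℝ[X] →ₗ[ℝ] ℝ) : Prop :=
  ∃ μ : Measure ℝ, Fam μ ∧ ∃ a b c : ℝ, a ≠ 0 ∧ c ≠ 0 ∧
    ∀ f : ℝ[X], ∫ x, (f.comp (C a * X + C b)).eval x ∂μ = c * u f

theorem cla_unbounded {u : ℝ[X] →ₗ[ℝ] ℝ} {a b c d : ℝ[X]} (h : Sys u a b c d)
    (ha : a.natDegree ≤ 4) (hc : c.natDegree ≤ 2) (hd : d.natDegree ≤ 1)
    (hn : a.natDegree ≤ b.natDegree) : Cla u := by
  obtain ⟨x0, h1 | h1 | h1⟩ := h.unbounded ha hc hd hn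
  · obtain ⟨κ, β, hβ, _, h1, h2⟩ := h1
    obtain ⟨a, b, c, ha, hc, h3⟩ := hermite_case h.pos hβ h1 h2
    exact ⟨muH, Or.inr (Or.inr (Or.inl rfl)), a, b, c, ha, hc, h3⟩
  · obtain ⟨ρ, θ, hρ, h1⟩ := h1
    obtain ⟨α, hα, a, b, c, ha, hc, h3⟩ := laguerre_case h.pos hρ h1
    exact ⟨muL α, Or.inr (Or.inl ⟨α, hα, rfl⟩), a, b, c, ha, hc, h3⟩
  · obtain ⟨ρ, hρ, h1⟩ := h1
    obtain ⟨a, b, c, M, ha, hc, hM, h3⟩ := laguerre_type_case h.pos hρ h1
    rcases hM.eq_or_lt with hM0 | hM0
    · refine ⟨muL 0, Or.inr (Or.inl ⟨0, by norm_num, rfl⟩), a, b, c, ha, hc, ?_⟩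
      intro f
      have := h3 f
      rw [← hM0, zero_mul, add_zero] at this
      exact this
    · refine ⟨muL 0 + ENNReal.ofReal M • Measure.dirac 0,
        Or.inr (Or.inr (Or.inr (Or.inr (Or.inl ⟨1 / M, by positivity, ?_⟩)))), a, b, c, ha, hc, ?_⟩
      · rw [one_div_one_div, muL]
        congr 3
        ext x
        congr 2
        ext y
        rw [Real.rpow_zero, one_mul]
      · intro f
        rw [int_mass (muL_poly hα0) hM0.le _ (integrable_dirac (by simp)), integral_dirac, eval_aff,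
          mul_zero, zero_add, h3]

theorem cla_compact {φ : Measure ℝ} [IsFiniteMeasure φ]
    (hφ : ∀ k : ℕ, Integrable (fun x : ℝ => x ^ k) φ)
    (hinf : ∀ s : Finset ℝ, φ ((↑s : Set ℝ)ᶜ) ≠ 0) {a b c d : ℝ[X]}
    (h : Sys (ev φ hφ) a b c d) (hb : b.natDegree ≤ 3) (hc : c.natDegree ≤ 2)
    {p q κ : ℝ} {b' : ℝ[X]} (hpq : p < q) (hκ : κ ≠ 0)
    (hae : a = C κ * ((X - C p) ^ 2 * (X - C q) ^ 2))
    (hbe : b = (X - C p) * (X - C q) * b') (h1 : φ (Iio p) = 0) (h2 : φ (Ioi q) = 0) :
    Cla (ev φ hφ) := by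
  obtain ⟨α, β, hα, hβ, hP, hq0, hp0, hpq0⟩ := compact_case hφ hinf h hb hc hpq hκ hae hbe h1 h2
  have hdec := ev_decomp hpq hφ h1 h2
  have hMp : 0 ≤ φ.real {p} := measureReal_nonneg
  have hMq : 0 ≤ φ.real {q} := measureReal_nonneg
  set Mp := φ.real {p}
  set Mq := φ.real {q}
  set u₀ := ev (φ.restrict (Ioo p q)) (restrict_poly hφ _)
  have hu1 : 0 < u₀ 1 := ev_pos _ (inf_interior hinf h1 h2) one_ne_zero
    (Filter.Eventually.of_forall fun x => by simp)
  have hL : 0 < q - p := by linarith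
  by_cases hMp0 : Mp = 0
  · by_cases hMq0 : Mq = 0
    · -- Jacobi
      obtain ⟨c, hc, hcu⟩ := match_up hα hβ hP (pearson_affine (a := (q - p) / 2) (b := (p + q) / 2)
        (p' := -1) (q' := 1) (by ring) (by ring) (muJ_poly hα hβ)
        ((muJ_is α β).pearson (by norm_num) hα hβ _)) hu1
        (by rw [evc_one]; exact (muJ_is α β).pos (by norm_num) hα hβ _)
      refine ⟨muJ α β, Or.inl ⟨α, β, hα, hβ, rfl⟩, (q - p) / 2, (p + q) / 2, c, by positivity,
        hc.ne', ?_⟩
      intro f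
      rw [hdec, hMp0, hMq0, zero_mul, zero_mul, add_zero, add_zero]
      exact hcu f
    · -- mass at q
      have hα' := hq0 hMq0
      subst hα'
      have hP' : Pearson q p β 0 u₀ := fun f => by rw [prs_swap]; exact hP f
      obtain ⟨c, hc, hcu⟩ := match_up hβ hα hP' (pearson_affine (a := p - q) (b := q)
        (p' := 0) (q' := 1) (by ring) (by ring) (muN_poly hβ)
        ((muN_is β).pearson (by norm_num) hβ (by norm_num) _)) hu1
        (by rw [evc_one]; exact (muN_is β).pos (by norm_num) hβ (by norm_num) _)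
      have hMqp : 0 < Mq := lt_of_le_of_ne hMq (Ne.symm hMq0)
      refine ⟨muN β + ENNReal.ofReal (c * Mq) • Measure.dirac 0,
        Or.inr (Or.inr (Or.inr (Or.inr (Or.inr ⟨β, 1 / (c * Mq), hβ, by positivity, ?_⟩)))),
        p - q, q, c, by linarith, hc.ne', ?_⟩
      · rw [one_div_one_div, muN]
      · intro f
        rw [int_mass (muN_poly hβ) (by positivity) _ (integrable_dirac (by simp)), integral_dirac,
          eval_aff, mul_zero, zero_add, hdec, hMp0]
        have := hcu f
        rw [evc_apply] at this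
        rw [this]; ring
  · have hβ' := hp0 hMp0
    have hMpp : 0 < Mp := lt_of_le_of_ne hMp (Ne.symm hMp0)
    by_cases hMq0 : Mq = 0
    · subst hβ'
      obtain ⟨c, hc, hcu⟩ := match_up hα hβ hP (pearson_affine (a := q - p) (b := p)
        (p' := 0) (q' := 1) (by ring) (by ring) (muN_poly hα)
        ((muN_is α).pearson (by norm_num) hα (by norm_num) _)) hu1
        (by rw [evc_one]; exact (muN_is α).pos (by norm_num) hα (by norm_num) _)
      refine ⟨muN α + ENNReal.ofReal (c * Mp) • Measure.dirac 0,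
        Or.inr (Or.inr (Or.inr (Or.inr (Or.inr ⟨α, 1 / (c * Mp), hα, by positivity, ?_⟩)))),
        q - p, p, c, hL.ne', hc.ne', ?_⟩
      · rw [one_div_one_div, muN]
      · intro f
        rw [int_mass (muN_poly hα) (by positivity) _ (integrable_dirac (by simp)), integral_dirac,
          eval_aff, mul_zero, zero_add, hdec, hMq0]
        have := hcu f
        rw [evc_apply] at this
        rw [this]; ring
    · have hα' := hq0 hMq0
      have hMM := hpq0 hMp0 hMq0
      subst hα'
      subst hβ'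
      obtain ⟨c, hc, hcu⟩ := match_up hα hβ hP (pearson_affine (a := (q - p) / 2) (b := (p + q) / 2)
        (p' := -1) (q' := 1) (by ring) (by ring) muE_poly
        (muE_is.pearson (by norm_num) hα hβ _)) hu1
        (by rw [evc_one]; exact muE_is.pos (by norm_num) hα hβ _)
      refine ⟨muE + ENNReal.ofReal (c * Mp) • (Measure.dirac (-1) + Measure.dirac 1),
        Or.inr (Or.inr (Or.inr (Or.inl ⟨1 / (c * Mp), by positivity, ?_⟩))),
        (q - p) / 2, (p + q) / 2, c, by positivity, hc.ne', ?_⟩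
      · rw [one_div_one_div, muE]
      · intro f
        rw [int_mass muE_poly (by positivity) _ ((integrable_dirac (by simp)).add_measure
          (integrable_dirac (by simp))), integral_add_measure (integrable_dirac (by simp))
          (integrable_dirac (by simp)), integral_dirac, integral_dirac, eval_aff, eval_aff, hdec]
        have := hcu f
        rw [evc_apply] at this
        rw [this, ← hMM, show (q - p) / 2 * -1 + (p + q) / 2 = p by ring,
          show (q - p) / 2 * 1 + (p + q) / 2 = q by ring]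
        ring

end Pool.Agent.W789.SOP
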