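import Pool.Agent.W789.SOP.Endpoint

set_option autoImplicit false
open MeasureTheory Polynomial Set

namespace Pool.Agent.W789.SOP

theorem Ext.reflect {φ : Measure ℝ} {a b c d : ℝ[X]} (h : Ext φ a b c d) :
    Ext (φ.map (fun x => -x)) (a.comp (-X)) (-(b.comp (-X))) (c.comp (-X)) (-(d.comp (-X))) := by
  intro f f1 f2 h1 h2 hc
  have hm : MeasurableEmbedding (fun x : ℝ => -x) := (MeasurableEquiv.neg ℝ).measurableEmbedding
  have hn : ∀ x : ℝ, HasDerivAt (fun y : ℝ => -y) (-1) x := fun x => hasDerivAt_neg' x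
  obtain ⟨e1, e2⟩ := h (fun x => f (-x)) (fun x => -f1 (-x)) (fun x => f2 (-x))
    (fun x => by
      have h3 : HasDerivAt (fun y => f (-y)) (f1 (-x) * (-1)) x := (h1 (-x)).comp x (hn x)
      exact h3.congr_deriv (by ring))
    (fun x => by
      have h3 : HasDerivAt (fun y => f1 (-y)) (f2 (-x) * (-1)) x := (h2 (-x)).comp x (hn x)
      have h4 : HasDerivAt (fun y => -f1 (-y)) (-(f2 (-x) * (-1))) x := h3.neg
      exact h4.congr_deriv (by ring))
    (by fun_prop)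
  constructor
  · rw [hm.integral_map]
    rw [← neg_eq_zero, ← integral_neg]
    refine (integral_congr_ae (Filter.Eventually.of_forall (fun y => ?_))).trans e1
    simp only [eval_comp, eval_neg, eval_X, neg_neg]
    ring
  · rw [hm.integral_map]
    rw [← neg_eq_zero, ← integral_neg]
    refine (integral_congr_ae (Filter.Eventually.of_forall (fun y => ?_))).trans e2
    simp only [eval_comp, eval_neg, eval_X, neg_neg]
    ring

theorem right_endpoint {φ : Measure ℝ} [IsFiniteMeasure φ] {a b c d : ℝ[X]} (h : Ext φ a b c d)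
    {x r : ℝ} (hxr : r < x) (h0 : φ (Ioc r x) = 0)
    (hr : ∀ ε > 0, φ (Ioo (r - ε) (r + ε)) ≠ 0) :
    a.eval r = 0 ∧ b.eval r = 0 ∧
      ((derivative a).eval r ≠ 0 → ∃ ε > 0, φ (Ioo (r - ε) r) = 0) := by
  have hm : MeasurableEmbedding (fun x : ℝ => -x) := (MeasurableEquiv.neg ℝ).measurableEmbedding
  have hfin : IsFiniteMeasure (φ.map (fun x : ℝ => -x)) := by infer_instance
  obtain ⟨e1, e2, e3⟩ := left_endpoint h.reflect (x := -x) (r := -r) (by linarith)
    (by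
      rw [hm.map_apply]
      refine measure_mono_null (fun y hy => ?_) h0
      obtain ⟨h1, h2⟩ := hy
      exact ⟨by simp only at h2; linarith, by simp only at h1; linarith⟩)
    (fun ε hε h1 => hr ε hε (by
      rw [hm.map_apply] at h1
      refine measure_mono_null (fun y hy => ?_) h1
      obtain ⟨h2, h3⟩ := hy
      exact ⟨by simp only; linarith, by simp only; linarith⟩))
  simp only [eval_comp, eval_neg, eval_X, neg_neg, neg_eq_zero] at e1 e2
  refine ⟨e1, e2, fun hda => ?_⟩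
  obtain ⟨ε, hε, h1⟩ := e3 (by
    rw [derivative_comp]
    simp only [derivative_neg, derivative_X, eval_mul, eval_neg, eval_one, eval_comp, eval_X,
      neg_neg]
    simpa using hda)
  refine ⟨ε, hε, ?_⟩
  rw [hm.map_apply] at h1
  refine measure_mono_null (fun y hy => ?_) h1
  obtain ⟨h2, h3⟩ := hy
  exact ⟨by simp only; linarith, by simp only; linarith⟩

theorem left_find {K : Set ℝ} (hK : IsClosed K) {t m : ℝ} (ht : t ∈ K) (hm : ∀ y ∈ K, m ≤ y)
    {F : Set ℝ} (hFf : F.Finite)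
    (hF : ∀ x r : ℝ, x < r → r ∈ K → (∀ y, x ≤ y → y < r → y ∉ K) → r ∈ F) :
    ∃ p, p ≤ t ∧ p ∈ F ∧ (∃ x < p, ∀ y, x ≤ y → y < p → y ∉ K) ∧ ∀ y, p ≤ y → y ≤ t → y ∈ K := by
  set N : Set ℝ := {y | y ∉ K ∧ y ≤ t} with hN
  have hNne : N.Nonempty := ⟨m - 1, fun h => by have := hm _ h; linarith,
    by have := hm t ht; linarith⟩
  have hNb : BddAbove N := ⟨t, fun y hy => hy.2⟩
  set p := sSup N with hp
  have hpt : p ≤ t := csSup_le hNne (fun y hy => hy.2)
  have h1 : ∀ y, p < y → y ≤ t → y ∈ K := by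
    intro y hy hyt
    by_contra hc
    exact absurd (le_csSup hNb (show y ∈ N from ⟨hc, hyt⟩)) (not_le.mpr hy)
  have hpK : p ∈ K := by
    by_contra hc
    have hne : p ≠ t := fun h => hc (h ▸ ht)
    have hlt : p < t := lt_of_le_of_ne hpt hne
    obtain ⟨δ, hδ, hb⟩ := Metric.isOpen_iff.mp hK.isOpen_compl p hc
    have hy : min (p + δ / 2) t ∈ K := h1 _ (lt_min (by linarith) hlt) (min_le_right _ _)
    refine hb ?_ hy
    rw [Metric.mem_ball, Real.dist_eq, abs_lt]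
    have h2 : p < min (p + δ / 2) t := lt_min (by linarith) hlt
    have h3 := min_le_left (p + δ / 2) t
    constructor <;> linarith
  have hK' : ∀ y, p ≤ y → y ≤ t → y ∈ K := by
    intro y hy hyt
    rcases hy.eq_or_lt with h | h
    · rw [← h]; exact hpK
    · exact h1 y h hyt
  -- a neighbourhood of p free of smaller points of F
  have hGf : (F ∩ Iio p).Finite := hFf.inter_of_left _
  have hpG : p ∈ (F ∩ Iio p)ᶜ := fun h => lt_irrefl p h.2
  obtain ⟨δ, hδ, hb⟩ := Metric.isOpen_iff.mp hGf.isClosed.isOpen_compl p hpG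
  obtain ⟨x, hxN, hx⟩ := exists_lt_of_lt_csSup hNne (show p - δ < p by linarith)
  have hxp : x < p := lt_of_le_of_ne (le_csSup hNb hxN) (fun h => hxN.1 (h ▸ hpK))
  set r := sInf (K ∩ Ici x) with hr
  have hrne : (K ∩ Ici x).Nonempty := ⟨p, hpK, hxp.le⟩
  have hrb : BddBelow (K ∩ Ici x) := ⟨x, fun y hy => hy.2⟩
  have hrm : r ∈ K ∩ Ici x := (hK.inter isClosed_Ici).csInf_mem hrne hrb
  have hrp : r ≤ p := csInf_le hrb ⟨hpK, hxp.le⟩
  have hxr : x < r := lt_of_le_of_ne hrm.2 (fun h => hxN.1 (h ▸ hrm.1))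
  have hgap : ∀ y, x ≤ y → y < r → y ∉ K := by
    intro y hy hyr hyK
    exact absurd (csInf_le hrb ⟨hyK, hy⟩) (not_le.mpr hyr)
  have hrF : r ∈ F := hF x r hxr hrm.1 hgap
  have hrp' : r = p := by
    by_contra hne
    have hlt : r < p := lt_of_le_of_ne hrp hne
    refine hb ?_ ⟨hrF, hlt⟩
    rw [Metric.mem_ball, Real.dist_eq, abs_lt]
    constructor <;> linarith
  refine ⟨p, hpt, hrp' ▸ hrF, ⟨x, hxp, fun y h2 h3 => hgap y h2 (by rw [hrp']; exact h3)⟩, hK'⟩

theorem right_find {K : Set ℝ} (hK : IsClosed K) {t m : ℝ} (ht : t ∈ K) (hm : ∀ y ∈ K, y ≤ m)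
    {F : Set ℝ} (hFf : F.Finite)
    (hF : ∀ x r : ℝ, r < x → r ∈ K → (∀ y, y ≤ x → r < y → y ∉ K) → r ∈ F) :
    ∃ p, t ≤ p ∧ p ∈ F ∧ (∃ x > p, ∀ y, y ≤ x → p < y → y ∉ K) ∧ ∀ y, y ≤ p → t ≤ y → y ∈ K := by
  have hc : IsClosed ((fun y : ℝ => -y) ⁻¹' K) := hK.preimage continuous_neg
  obtain ⟨p, h1, h2, ⟨x, hx, h3⟩, h4⟩ := left_find hc (t := -t) (m := -m)
    (show -t ∈ (fun y : ℝ => -y) ⁻¹' K by simpa using ht)
    (fun y hy => by have := hm _ hy; linarith)
    (F := (fun y : ℝ => -y) ⁻¹' F) (hFf.preimage (neg_injective.injOn))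
    (fun x r hxr hr hg => hF (-x) (-r) (by linarith) hr (fun y hy1 hy2 hyK =>
      hg (-y) (by linarith) (by linarith) (by simpa using hyK)))
  refine ⟨-p, by linarith, h2, ⟨-x, by linarith, fun y hy1 hy2 hyK =>
    h3 (-y) (by linarith) (by linarith) (by simpa using hyK)⟩, fun y hy1 hy2 => ?_⟩
  have := h4 (-y) (by linarith) (by linarith)
  simpa using this

theorem compact_structure {φ : Measure ℝ} [IsFiniteMeasure φ] {a b c d : ℝ[X]}
    (h : Ext φ a b c d) (ha : a ≠ 0) (hdeg : a.natDegree ≤ 4)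
    (hinf : ∀ s : Finset ℝ, φ ((↑s : Set ℝ)ᶜ) ≠ 0) {R : ℝ} (hR : φ {x | R ≤ |x|} = 0) :
    ∃ p q κ : ℝ, ∃ b' : ℝ[X], p < q ∧ κ ≠ 0 ∧ a = C κ * ((X - C p) ^ 2 * (X - C q) ^ 2) ∧
      b = (X - C p) * (X - C q) * b' ∧ φ (Iio p) = 0 ∧ φ (Ioi q) = 0 := by
  set K : Set ℝ := φ.support with hKdef
  have hKc : IsClosed K := Measure.isClosed_support
  have hKn : φ Kᶜ = 0 := Measure.measure_compl_support
  have hnull : ∀ s : Set ℝ, (∀ y ∈ s, y ∉ K) → φ s = 0 := fun s hs =>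
    measure_mono_null (fun y hy => hs y hy) hKn
  have hKpos : ∀ r ∈ K, ∀ s ∈ nhds r, φ s ≠ 0 := fun r hr s hs =>
    ((Measure.mem_support_iff_forall r).mp hr s hs).ne'
  have hpt : ∀ r ∈ K, ∀ ε > 0, φ (Ioo (r - ε) (r + ε)) ≠ 0 := fun r hr ε hε =>
    hKpos r hr _ (Ioo_mem_nhds (by linarith) (by linarith))
  have hKb : ∀ y ∈ K, |y| ≤ R := by
    intro y hy
    by_contra hc
    push Not at hc
    have : {x : ℝ | R < |x|} ∈ nhds y := (isOpen_lt continuous_const continuous_abs).mem_nhds hc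
    exact hKpos y hy _ this (measure_mono_null (fun x (hx : R < |x|) => hx.le) hR)
  set F : Set ℝ := (↑a.roots.toFinset : Set ℝ) with hFdef
  have hFf : F.Finite := Finset.finite_toSet _
  have hFmem : ∀ r, r ∈ F ↔ a.eval r = 0 := by
    intro r
    rw [hFdef, Finset.mem_coe, Multiset.mem_toFinset, mem_roots ha]; rfl
  have hL : ∀ x r : ℝ, x < r → r ∈ K → (∀ y, x ≤ y → y < r → y ∉ K) →
      a.eval r = 0 ∧ b.eval r = 0 ∧ ((derivative a).eval r ≠ 0 → ∃ ε > 0, φ (Ioo r (r + ε)) = 0) :=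
    fun x r hxr hr hg => left_endpoint h hxr (hnull _ (fun y hy => hg y hy.1 hy.2)) (hpt r hr)
  have hRt : ∀ x r : ℝ, r < x → r ∈ K → (∀ y, y ≤ x → r < y → y ∉ K) →
      a.eval r = 0 ∧ b.eval r = 0 ∧ ((derivative a).eval r ≠ 0 → ∃ ε > 0, φ (Ioo (r - ε) r) = 0) :=
    fun x r hxr hr hg => right_endpoint h hxr (hnull _ (fun y hy => hg y hy.2 hy.1)) (hpt r hr)
  obtain ⟨t, htK, hta⟩ : ∃ t ∈ K, a.eval t ≠ 0 := by
    by_contra hcon
    push Not at hcon
    refine hinf a.roots.toFinset (hnull _ (fun y hy hyK => hy ?_))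
    exact (hFmem y).mpr (hcon y hyK)
  obtain ⟨p, hp1, hp2, ⟨xp, hxp, hgp⟩, hp4⟩ := left_find hKc (t := t) (m := -R) htK
    (fun y hy => (abs_le.mp (hKb y hy)).1) hFf
    (fun x r h1 h2 h3 => (hFmem r).mpr (hL x r h1 h2 h3).1)
  obtain ⟨q, hq1, hq2, ⟨xq, hxq, hgq⟩, hq4⟩ := right_find hKc (t := t) (m := R) htK
    (fun y hy => (abs_le.mp (hKb y hy)).2) hFf
    (fun x r h1 h2 h3 => (hFmem r).mpr (hRt x r h1 h2 h3).1)
  have hpt' : p < t := lt_of_le_of_ne hp1 (fun h1 => hta (by rw [← h1]; exact (hFmem p).mp hp2))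
  have hqt' : t < q := lt_of_le_of_ne hq1 (fun h1 => hta (by rw [h1]; exact (hFmem q).mp hq2))
  have hpq : p < q := hpt'.trans hqt'
  have hpK : p ∈ K := hp4 p le_rfl hp1
  have hqK : q ∈ K := hq4 q le_rfl hq1
  obtain ⟨ap, bp, dap⟩ := hL xp p hxp hpK hgp
  obtain ⟨aq, bq, daq⟩ := hRt xq q hxq hqK hgq
  have dap' : (derivative a).eval p = 0 := by
    by_contra hne
    obtain ⟨ε, hε, h0⟩ := dap hne
    have hy1 : p < min (p + ε / 2) t := lt_min (by linarith) hpt'
    have hy2 : min (p + ε / 2) t ≤ p + ε / 2 := min_le_left _ _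
    exact hKpos (min (p + ε / 2) t) (hp4 _ hy1.le (min_le_right _ _)) _
      (Ioo_mem_nhds hy1 (by linarith)) h0
  have daq' : (derivative a).eval q = 0 := by
    by_contra hne
    obtain ⟨ε, hε, h0⟩ := daq hne
    have hy1 : max (q - ε / 2) t < q := max_lt (by linarith) hqt'
    have hy2 : q - ε / 2 ≤ max (q - ε / 2) t := le_max_left _ _
    exact hKpos (max (q - ε / 2) t) (hq4 _ hy1.le (le_max_right _ _)) _
      (Ioo_mem_nhds (by linarith) hy1) h0
  -- factorisation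
  have m1 : (X - C p) ^ 2 ∣ a := by
    have := (one_lt_rootMultiplicity_iff_isRoot ha (t := p)).mpr ⟨ap, dap'⟩
    exact (le_rootMultiplicity_iff ha).mp this
  have m2 : (X - C q) ^ 2 ∣ a := by
    have := (one_lt_rootMultiplicity_iff_isRoot ha (t := q)).mpr ⟨aq, daq'⟩
    exact (le_rootMultiplicity_iff ha).mp this
  have hcop : IsCoprime (X - C p : ℝ[X]) (X - C q) :=
    isCoprime_X_sub_C_of_isUnit_sub ((sub_ne_zero.mpr hpq.ne).isUnit)
  obtain ⟨k, hk⟩ := (hcop.pow (m := 2) (n := 2)).mul_dvd m1 m2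
  have hk0 : k ≠ 0 := by
    intro h0; rw [h0, mul_zero] at hk; exact ha hk
  have hmon : ((X - C p) ^ 2 * (X - C q) ^ 2 : ℝ[X]).Monic :=
    ((monic_X_sub_C p).pow 2).mul ((monic_X_sub_C q).pow 2)
  have hnd : ((X - C p) ^ 2 * (X - C q) ^ 2 : ℝ[X]).natDegree = 4 := by
    rw [((monic_X_sub_C p).pow 2).natDegree_mul ((monic_X_sub_C q).pow 2),
      (monic_X_sub_C p).natDegree_pow, (monic_X_sub_C q).natDegree_pow]
    simp
  have hkd : k.natDegree = 0 := by
    have h1 : a.natDegree = 4 + k.natDegree := by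
      rw [hk, hmon.natDegree_mul' hk0, hnd]
    omega
  obtain ⟨κ, hκ⟩ : ∃ κ, k = C κ := ⟨_, eq_C_of_natDegree_eq_zero hkd⟩
  have hκ0 : κ ≠ 0 := by
    intro h0; rw [h0, C_0] at hκ; exact hk0 hκ
  have haf : a = C κ * ((X - C p) ^ 2 * (X - C q) ^ 2) := by
    rw [hk, hκ]; ring
  obtain ⟨b', hb'⟩ := hcop.mul_dvd (dvd_iff_isRoot.mpr bp) (dvd_iff_isRoot.mpr bq)
  have hroot : ∀ y, a.eval y = 0 → y = p ∨ y = q := by
    intro y hy
    rw [haf] at hy
    simp only [eval_mul, eval_C, eval_pow, eval_sub, eval_X] at hy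
    rcases mul_eq_zero.mp hy with h1 | h1
    · exact absurd h1 hκ0
    · rcases mul_eq_zero.mp h1 with h2 | h2
      · left; have := pow_eq_zero_iff (by norm_num) |>.mp h2; linarith
      · right; have := pow_eq_zero_iff (by norm_num) |>.mp h2; linarith
  refine ⟨p, q, κ, b', hpq, hκ0, haf, hb', ?_, ?_⟩
  · have hne : K.Nonempty := ⟨p, hpK⟩
    have hbb : BddBelow K := ⟨-R, fun y hy => (abs_le.mp (hKb y hy)).1⟩
    have hmK : sInf K ∈ K := hKc.csInf_mem hne hbb
    have h1 := (hL (sInf K - 1) (sInf K) (by linarith) hmK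
      (fun y _ hy hyK => absurd (csInf_le hbb hyK) (not_le.mpr hy))).1
    have h2 : sInf K ≤ p := csInf_le hbb hpK
    have h3 : sInf K = p := by
      rcases hroot _ h1 with h4 | h4
      · exact h4
      · linarith
    refine hnull _ (fun y hy hyK => ?_)
    have := csInf_le hbb hyK
    rw [h3] at this
    exact absurd this (not_le.mpr hy)
  · have hne : K.Nonempty := ⟨p, hpK⟩
    have hbb : BddAbove K := ⟨R, fun y hy => (abs_le.mp (hKb y hy)).2⟩
    have hmK : sSup K ∈ K := hKc.csSup_mem hne hbb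
    have h1 := (hRt (sSup K + 1) (sSup K) (by linarith) hmK
      (fun y _ hy hyK => absurd (le_csSup hbb hyK) (not_le.mpr hy))).1
    have h2 : q ≤ sSup K := le_csSup hbb hqK
    have h3 : sSup K = q := by
      rcases hroot _ h1 with h4 | h4
      · linarith
      · exact h4
    refine hnull _ (fun y hy hyK => ?_)
    have := le_csSup hbb hyK
    rw [h3] at this
    exact absurd this (not_le.mpr hy)

end Pool.Agent.W789.SOP
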