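import Pool.Agent.W789.SOP.Basic

set_option autoImplicit false
open MeasureTheory Polynomial

namespace Pool.Agent.W789.SOP

/-- The two functional equations together with positivity. -/
structure Sys (u : ℝ[X] →ₗ[ℝ] ℝ) (a b c d : ℝ[X]) : Prop where
  pos : ∀ q : ℝ[X], q ≠ 0 → 0 < u (q * q)
  eqA : ∀ g, u (a * derivative g + b * g) = 0
  eqB : ∀ g, u (b * derivative (derivative g) + c * derivative g - d * g) = 0
  ane : a ≠ 0

theorem Sys.eq_zero {u : ℝ[X] →ₗ[ℝ] ℝ} {a b c d : ℝ[X]} (h : Sys u a b c d) {P : ℝ[X]}
    (hP : ∀ g, u (P * g) = 0) : P = 0 := by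
  by_contra h0
  exact (h.pos P h0).ne' (hP P)

theorem Sys.star {u : ℝ[X] →ₗ[ℝ] ℝ} {a b c d : ℝ[X]} (h : Sys u a b c d) {T : ℝ[X]}
    (hT : T = b ^ 2 - b * derivative a + a * derivative b - a * c) :
    a * derivative T + T * (b - 2 * derivative a) = a ^ 2 * d := by
  set Q : ℝ[X] := 3 * derivative a * b - a * derivative b - b ^ 2 + a * c with hQ
  set P : ℝ[X] := 2 * b * derivative a ^ 2 + 2 * a * b * derivative (derivative a)
    + 2 * a * derivative a * c - a ^ 2 * d - a * derivative Q - b * Q with hP
  have h0 : P = 0 := by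
    refine h.eq_zero (fun g => ?_)
    have e : P * g = (b * derivative (derivative (a ^ 2 * g)) + c * derivative (a ^ 2 * g)
        - d * (a ^ 2 * g)) - (a * derivative (a * b * derivative g) + b * (a * b * derivative g))
        - (a * derivative (Q * g) + b * (Q * g)) := by
      rw [hP]
      simp only [derivative_mul, derivative_pow, map_add, Nat.cast_ofNat, derivative_C]
      rw [map_ofNat C 2]
      generalize derivative Q = DQ
      rw [hQ]
      norm_num
      ring
    rw [e, map_sub, map_sub, h.eqB, h.eqA, h.eqA]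
    ring
  have h1 : a * derivative T + T * (b - 2 * derivative a) - a ^ 2 * d = P := by
    rw [hP, hQ, hT]
    simp only [derivative_mul, derivative_pow, map_add, map_sub, Nat.cast_ofNat]
    have h3 : derivative (3 : ℝ[X]) = 0 := by
      have : (3 : ℝ[X]) = C 3 := (map_ofNat C 3).symm
      rw [this, derivative_C]
    rw [h3]
    norm_num
    ring
  rw [h0] at h1
  linear_combination h1

end Pool.Agent.W789.SOP
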