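import Pool.Agent.W789.SOP.Masses
import Pool.Agent.W789.SOP.Star

set_option autoImplicit false
open MeasureTheory Polynomial Set

namespace Pool.Agent.W789.SOP

theorem exists_params {b' : ℝ[X]} (hb : b'.natDegree ≤ 1) {p q κ : ℝ} (hpq : p < q) (hκ : κ ≠ 0) :
    ∃ α β : ℝ, b' = C (-κ) * (C (β + 2) * (C q - X) - C (α + 2) * (X - C p)) := by
  obtain ⟨b1, b0, rfl⟩ : ∃ b1 b0 : ℝ, b' = C b1 * X + C b0 :=
    ⟨_, _, eq_X_add_C_of_natDegree_le_one hb⟩
  have hL : q - p ≠ 0 := by linarith
  refine ⟨(b1 * q + b0) / (κ * (q - p)) - 2, -(b1 * p + b0) / (κ * (q - p)) - 2, ?_⟩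
  apply Polynomial.funext
  intro x
  simp only [eval_add, eval_mul, eval_C, eval_X, eval_sub]
  field_simp
  ring

theorem compact_case {φ : Measure ℝ} [IsFiniteMeasure φ]
    (hφ : ∀ k : ℕ, Integrable (fun x : ℝ => x ^ k) φ)
    (hinf : ∀ s : Finset ℝ, φ ((↑s : Set ℝ)ᶜ) ≠ 0) {a b c d : ℝ[X]}
    (h : Sys (ev φ hφ) a b c d) (hb : b.natDegree ≤ 3) (hc : c.natDegree ≤ 2)
    {p q κ : ℝ} {b' : ℝ[X]} (hpq : p < q) (hκ : κ ≠ 0)
    (hae : a = C κ * ((X - C p) ^ 2 * (X - C q) ^ 2))
    (hbe : b = (X - C p) * (X - C q) * b') (h1 : φ (Iio p) = 0) (h2 : φ (Ioi q) = 0) :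
    ∃ α β : ℝ, -1 < α ∧ -1 < β ∧
      Pearson p q α β (ev (φ.restrict (Ioo p q)) (restrict_poly hφ _)) ∧
      (φ.real {q} ≠ 0 → α = 0) ∧ (φ.real {p} ≠ 0 → β = 0) ∧
      (φ.real {p} ≠ 0 → φ.real {q} ≠ 0 → φ.real {p} = φ.real {q}) := by
  have hb'1 : b'.natDegree ≤ 1 := by
    by_cases h0 : b' = 0
    · simp [h0]
    · have e : b.natDegree = 2 + b'.natDegree := by
        rw [hbe, natDegree_mul (mul_ne_zero (X_sub_C_ne_zero p) (X_sub_C_ne_zero q)) h0,
          natDegree_mul (X_sub_C_ne_zero p) (X_sub_C_ne_zero q), natDegree_X_sub_C,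
          natDegree_X_sub_C]
      omega
  obtain ⟨α, β, hb'⟩ := exists_params hb'1 hpq hκ
  set s : ℝ[X] := X - C p with hs
  set t : ℝ[X] := C q - X with ht
  have ht' : X - C q = -t := by rw [ht]; ring
  set g : ℝ[X] := C (β + 2) * t - C (α + 2) * s with hg
  have ds : derivative s = 1 := by rw [hs]; simp
  have dt : derivative t = -1 := by rw [ht]; simp
  have ha2 : a = C κ * (s * t) ^ 2 := by rw [hae, ht']; ring
  have hb2 : b = C κ * (s * t * g) := by rw [hbe, hb', ht', C_neg]; ring
  have dg : derivative g = -C (β + 2) - C (α + 2) := by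
    rw [hg, derivative_sub, derivative_C_mul, derivative_C_mul, ds, dt]; ring
  have hCκ : (C κ : ℝ[X]) ≠ 0 := C_ne_zero.mpr hκ
  have hst : s * t ≠ 0 := by
    apply mul_ne_zero
    · exact X_sub_C_ne_zero p
    · rw [ht, ← neg_sub, neg_ne_zero]; exact X_sub_C_ne_zero q
  set u₀ := ev (φ.restrict (Ioo p q)) (restrict_poly hφ _) with hu₀
  set Mp := φ.real {p} with hMp
  set Mq := φ.real {q} with hMq
  have hdec : ∀ f : ℝ[X], ev φ hφ f = u₀ f + Mp * f.eval p + Mq * f.eval q := fun f =>
    ev_decomp hpq hφ h1 h2 f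
  have sp : s.eval p = 0 := by simp [hs]
  have tq : t.eval q = 0 := by simp [ht]
  have sq : s.eval q = q - p := by simp [hs]
  have tp : t.eval p = q - p := by simp [ht]
  have hL : 0 < q - p := by linarith
  -- Pearson
  have hres : φ.restrict (Ioo p q) (Ioo p q)ᶜ = 0 := by
    rw [Measure.restrict_apply measurableSet_Ioo.compl]; simp
  have hprs : ∀ f : ℝ[X], prs p q α β f = s * t * derivative f + (C (β + 1) * t - C (α + 1) * s) * f :=
    fun f => rfl
  have hP : Pearson p q α β u₀ := by
    apply pearson_of_interior _ hpq hres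
    intro f
    have e1 : a * derivative f + b * f = C κ * prs p q α β ((X - C p) * (C q - X) * f) := by
      rw [← hs, ← ht, hprs, ha2, hb2, hg]
      simp only [derivative_mul, ds, dt, C_add]
      have : (C 2 : ℝ[X]) = C 1 + C 1 := by rw [← C_add]; norm_num
      rw [this]
      simp only [map_one]
      ring
    have e2 := h.eqA f
    rw [hdec, e1, C_mul', map_smul, smul_eq_mul] at e2
    have e3 : (κ • prs p q α β ((X - C p) * (C q - X) * f)).eval p = 0 := by
      rw [eval_smul, ← hs, ← ht, hprs, eval_add, eval_mul, eval_mul, eval_mul, eval_mul, eval_mul, sp]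
      simp
    have e4 : (κ • prs p q α β ((X - C p) * (C q - X) * f)).eval q = 0 := by
      rw [eval_smul, ← hs, ← ht, hprs, eval_add, eval_mul, eval_mul, eval_mul, eval_mul, eval_mul, tq]
      simp
    rw [e3, e4, mul_zero, mul_zero, add_zero, add_zero] at e2
    exact (mul_eq_zero.mp e2).resolve_left hκ
  obtain ⟨hα, hβ⟩ := param_pos _ (inf_interior hinf h1 h2) hres hP
  refine ⟨α, β, hα, hβ, hP, ?_⟩
  have da : derivative a = C κ * (2 * (s * t) * (t - s)) := by
    have ha3 : a = C κ * (s * t * (s * t)) := by rw [ha2]; ring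
    rw [ha3, derivative_C_mul]
    simp only [derivative_mul, ds, dt]
    ring
  -- V
  set V : ℝ[X] := C κ * (g * (C β * t - C α * s)) + derivative b - c with hV
  have hT : a * V = b ^ 2 - b * derivative a + a * derivative b - a * c := by
    have hbb : b = C κ * (s * t * g) := hb2
    rw [hV, da]
    have e5 : b ^ 2 - b * (C κ * (2 * (s * t) * (t - s))) =
        a * (C κ * (g * (C β * t - C α * s))) := by
      rw [hbb, ha2, hg]
      have e2 : (C (β + 2) : ℝ[X]) = C β + 2 := by rw [C_add]; rfl
      have e3 : (C (α + 2) : ℝ[X]) = C α + 2 := by rw [C_add]; rfl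
      rw [e2, e3]
      ring
    linear_combination -e5
  have hstar := h.star hT
  have e2 : (C (β + 2) : ℝ[X]) = C β + 2 := by rw [C_add]; rfl
  have e3 : (C (α + 2) : ℝ[X]) = C α + 2 := by rw [C_add]; rfl
  have hVd : s * t * derivative V + V * (C β * t - C α * s) = s * t * d := by
    rw [derivative_mul] at hstar
    have hne : a * (C κ * (s * t)) ≠ 0 := mul_ne_zero h.ane (mul_ne_zero hCκ hst)
    apply mul_left_cancel₀ hne
    have e6 : b - derivative a = C κ * (s * t) * (C β * t - C α * s) := by
      rw [hb2, da, hg, e2, e3]; ring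
    have e7 : a = C κ * (s * t) * (s * t) := by rw [ha2]; ring
    linear_combination hstar - a * V * e6 + (a * derivative V - a * d) * (-e7)
  have hVp : V.eval p * (β * (q - p)) = 0 := by
    have := congrArg (fun f : ℝ[X] => f.eval p) hVd
    simpa [sp, tp] using this
  have hVq : V.eval q * (α * (q - p)) = 0 := by
    have := congrArg (fun f : ℝ[X] => f.eval q) hVd
    simpa [sq, tq] using this
  have gp : g.eval p = (β + 2) * (q - p) := by simp [hg, sp, tp]
  have gq : g.eval q = -((α + 2) * (q - p)) := by simp [hg, sq, tq]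
  have db : derivative b = C κ * ((t - s) * g + s * t * derivative g) := by
    rw [hb2, derivative_C_mul]
    simp only [derivative_mul, ds, dt]
    ring
  have Vp : V.eval p = κ * (β + 1) * (β + 2) * (q - p) ^ 2 - c.eval p := by
    rw [hV, db]
    simp only [eval_sub, eval_add, eval_mul, eval_C, gp, sp, tp]
    ring
  have Vq : V.eval q = κ * (α + 1) * (α + 2) * (q - p) ^ 2 - c.eval q := by
    rw [hV, db]
    simp only [eval_sub, eval_add, eval_mul, eval_C, gq, sq, tq]
    ring
  -- masses
  have hmass : ∀ f : ℝ[X], Mp * (c.eval p * (f.eval p * (q - p))) -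
      Mq * (c.eval q * (f.eval q * (q - p))) = 0 := by
    intro f
    have e8 := h.eqB (s * t * f)
    have e9 : b * derivative (derivative (s * t * f)) + c * derivative (s * t * f) - d * (s * t * f)
        = prs p q α β (C κ * (g * derivative (s * t * f))) - prs p q α β (V * f) := by
      rw [hprs, hprs]
      have hc' : c = C κ * (g * (C β * t - C α * s)) + derivative b - V := by rw [hV]; ring
      set F := derivative (s * t * f) with hF
      have hF' : F = (t - s) * f + s * t * derivative f := by
        rw [hF]; simp only [derivative_mul, ds, dt]; ring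
      have e10 : derivative (C κ * (g * F)) = C κ * (derivative g * F + g * derivative F) := by
        rw [derivative_C_mul, derivative_mul]
      have e11 : (C (β + 1) : ℝ[X]) = C β + 1 := by rw [C_add]; rfl
      have e12 : (C (α + 1) : ℝ[X]) = C α + 1 := by rw [C_add]; rfl
      rw [e10, derivative_mul (f := V), e11, e12]
      have e13 : c * F = (C κ * (g * (C β * t - C α * s)) + derivative b - V) * F := by rw [← hc']
      rw [e13, db, hb2]
      linear_combination (-V) * hF' + f * hVd
    rw [hdec, e9, map_sub, hP, hP] at e8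
    have hp1 : ∀ f : ℝ[X], (prs p q α β f).eval p = (β + 1) * (q - p) * f.eval p := by
      intro f
      rw [hprs]; simp [sp, tp]
    have hq1 : ∀ f : ℝ[X], (prs p q α β f).eval q = -((α + 1) * (q - p) * f.eval q) := by
      intro f
      rw [hprs]; simp [sq, tq]
    have dp : (derivative (s * t * f)).eval p = (q - p) * f.eval p := by
      simp only [derivative_mul, ds, dt, eval_add, eval_mul, eval_one, eval_neg, sp, tp]
      ring
    have dq : (derivative (s * t * f)).eval q = -((q - p) * f.eval q) := by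
      simp only [derivative_mul, ds, dt, eval_add, eval_mul, eval_one, eval_neg, sq, tq]
      ring
    have e14 : (prs p q α β (C κ * (g * derivative (s * t * f))) - prs p q α β (V * f)).eval p
        = (β + 1) * (q - p) * (κ * (g.eval p * ((q - p) * f.eval p)))
          - (β + 1) * (q - p) * (V.eval p * f.eval p) := by
      rw [eval_sub, hp1, hp1]
      simp only [eval_mul, eval_C, dp]
    have e15 : (prs p q α β (C κ * (g * derivative (s * t * f))) - prs p q α β (V * f)).eval q
        = -((α + 1) * (q - p) * (κ * (g.eval q * (-((q - p) * f.eval q)))))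
          + (α + 1) * (q - p) * (V.eval q * f.eval q) := by
      rw [eval_sub, hq1, hq1]
      simp only [eval_mul, eval_C, dq]
      ring
    rw [e14, e15, gp, gq, Vp, Vq] at e8
    have hVp' := hVp
    have hVq' := hVq
    rw [Vp] at hVp'
    rw [Vq] at hVq'
    linear_combination e8 + Mp * f.eval p * hVp' - Mq * f.eval q * hVq'
  have hMpc : Mp * c.eval p = 0 := by
    have := hmass t
    rw [tp, tq] at this
    have h3 : Mp * c.eval p * (q - p) ^ 2 = 0 := by linear_combination this
    exact (mul_eq_zero.mp h3).resolve_right (by positivity)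
  have hMqc : Mq * c.eval q = 0 := by
    have := hmass s
    rw [sp, sq] at this
    have h3 : Mq * c.eval q * (q - p) ^ 2 = 0 := by linear_combination -this
    exact (mul_eq_zero.mp h3).resolve_right (by positivity)
  have hα0 : Mq ≠ 0 → α = 0 := by
    intro hM
    have hc0 : c.eval q = 0 := (mul_eq_zero.mp hMqc).resolve_left hM
    rw [hc0, sub_zero] at Vq
    have : V.eval q ≠ 0 := by
      rw [Vq]
      have h3 : α + 1 ≠ 0 := by linarith
      have h4 : α + 2 ≠ 0 := by linarith
      positivity
    have h5 := (mul_eq_zero.mp hVq).resolve_left this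
    exact (mul_eq_zero.mp h5).resolve_right hL.ne'
  have hβ0 : Mp ≠ 0 → β = 0 := by
    intro hM
    have hc0 : c.eval p = 0 := (mul_eq_zero.mp hMpc).resolve_left hM
    rw [hc0, sub_zero] at Vp
    have : V.eval p ≠ 0 := by
      rw [Vp]
      have h3 : β + 1 ≠ 0 := by linarith
      have h4 : β + 2 ≠ 0 := by linarith
      positivity
    have h5 := (mul_eq_zero.mp hVp).resolve_left this
    exact (mul_eq_zero.mp h5).resolve_right hL.ne'
  refine ⟨hα0, hβ0, ?_⟩
  intro hMp0 hMq0
  have hα00 := hα0 hMq0
  have hβ00 := hβ0 hMp0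
  have hcp : c.eval p = 0 := (mul_eq_zero.mp hMpc).resolve_left hMp0
  have hcq : c.eval q = 0 := (mul_eq_zero.mp hMqc).resolve_left hMq0
  obtain ⟨c2, hc2⟩ : ∃ c2 : ℝ, c = C (-c2) * (s * t) := by
    obtain ⟨f, hf⟩ : (X - C p) * (X - C q) ∣ c :=
      (isCoprime_X_sub_C_of_isUnit_sub ((sub_ne_zero.mpr hpq.ne).isUnit)).mul_dvd
        (dvd_iff_isRoot.mpr hcp) (dvd_iff_isRoot.mpr hcq)
    by_cases hf0 : f = 0
    · refine ⟨0, ?_⟩
      rw [hf, hf0]; simp
    · have e : c.natDegree = 2 + f.natDegree := by
        rw [hf, natDegree_mul (mul_ne_zero (X_sub_C_ne_zero p) (X_sub_C_ne_zero q)) hf0,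
          natDegree_mul (X_sub_C_ne_zero p) (X_sub_C_ne_zero q), natDegree_X_sub_C,
          natDegree_X_sub_C]
      have hf1 : f.natDegree = 0 := by omega
      obtain ⟨r, hr⟩ := natDegree_eq_zero.mp hf1
      refine ⟨r, ?_⟩
      rw [hf, ← hr, ht', C_neg]
      ring
  have hsum : s + t = C (q - p) := by rw [hs, ht, C_sub]; ring
  have hVe : V = C (2 * κ * (q - p) ^ 2) + C (c2 - 12 * κ) * (s * t) := by
    have e4 : (C (2 * κ * (q - p) ^ 2) : ℝ[X]) = 2 * C κ * (s + t) ^ 2 := by
      rw [hsum, C_mul, C_mul, C_pow]; rfl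
    have e5 : (C (c2 - 12 * κ) : ℝ[X]) = C c2 - 12 * C κ := by
      rw [C_sub, C_mul]; rfl
    rw [hV, db, dg, hg, hc2, hα00, hβ00, e4, e5, C_neg]
    simp only [zero_add, C_0]
    have e6 : (C 2 : ℝ[X]) = 2 := rfl
    rw [e6]
    ring
  have hde : d = C (c2 - 12 * κ) * (t - s) := by
    rw [hα00, hβ00] at hVd
    have e7 : derivative V = C (c2 - 12 * κ) * (t - s) := by
      rw [hVe, derivative_add, derivative_C, derivative_C_mul]
      simp only [derivative_mul, ds, dt]
      ring
    have e8 : s * t * d = s * t * derivative V := by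
      rw [← hVd]; simp
    rw [← e7]
    exact mul_left_cancel₀ hst e8
  by_cases hc12 : c2 - 12 * κ = 0
  · exfalso
    rw [hc12, C_0, zero_mul] at hde
    have e9 := h.eqB X
    rw [hde, hc2] at e9
    simp only [derivative_X, derivative_one, mul_zero, zero_add, mul_one, zero_mul, sub_zero] at e9
    rw [C_mul', map_smul, smul_eq_mul] at e9
    have hc2' : -c2 ≠ 0 := by
      have : c2 = 12 * κ := by linarith
      rw [this]
      simpa using hκ
    have e10 := (mul_eq_zero.mp e9).resolve_left hc2'
    have e11 : 0 < ev φ hφ (s * t) := by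
      apply ev_pos hφ hinf hst
      have : ∀ᵐ x ∂φ, x ∉ Iio p ∪ Ioi q := by
        rw [ae_iff]
        refine measure_mono_null ?_ (measure_union_null h1 h2)
        intro x hx
        exact not_not.mp hx
      filter_upwards [this] with x hx
      simp only [mem_union, mem_Iio, mem_Ioi, not_or, not_lt] at hx
      rw [eval_mul, hs, ht]
      simp only [eval_sub, eval_X, eval_C]
      exact mul_nonneg (by linarith [hx.1]) (by linarith [hx.2])
    exact e11.ne' e10
  · have e9 := h.eqB 1
    rw [hde] at e9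
    simp only [derivative_one, derivative_zero, mul_zero, zero_add, mul_one, zero_sub] at e9
    rw [map_neg, C_mul', map_smul, smul_eq_mul, neg_eq_zero] at e9
    have e10 := (mul_eq_zero.mp e9).resolve_left hc12
    rw [hdec] at e10
    have e11 := hP 1
    rw [hprs, hα00, hβ00] at e11
    simp only [derivative_one, mul_zero, zero_add, mul_one, C_1, one_mul] at e11
    have ets : ∀ x, (t - s).eval x = t.eval x - s.eval x := fun x => eval_sub t s x
    rw [e11, ets, ets, sp, tp, sq, tq] at e10
    have e12 : (Mp - Mq) * (q - p) = 0 := by linear_combination e10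
    linarith [(mul_eq_zero.mp e12).resolve_right hL.ne']

end Pool.Agent.W789.SOP
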