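import Pool.Agent.W789.SOP.Ext

set_option autoImplicit false
open MeasureTheory Polynomial Set

namespace Pool.Agent.W789.SOP

theorem Ext.restrict_Ici {φ : Measure ℝ} {a b c d : ℝ[X]} (h : Ext φ a b c d) {x r : ℝ}
    (hxr : x < r) (h0 : φ (Ico x r) = 0) : Ext (φ.restrict (Ici r)) a b c d := by
  intro f f1 f2 h1 h2 hc
  set χ : ℝ → ℝ := fun y => Real.smoothTransition (2 * (y - x) / (r - x)) with hχ
  have hχs : ContDiff ℝ ((⊤ : ℕ∞) : WithTop ℕ∞) χ := by
    refine Real.smoothTransition.contDiff.comp ?_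
    fun_prop
  have d1 : Differentiable ℝ χ ∧ ContDiff ℝ ((⊤ : ℕ∞) : WithTop ℕ∞) (deriv χ) :=
    contDiff_infty_iff_deriv.mp hχs
  have d2 : Differentiable ℝ (deriv χ) ∧ ContDiff ℝ ((⊤ : ℕ∞) : WithTop ℕ∞) (deriv (deriv χ)) :=
    contDiff_infty_iff_deriv.mp d1.2
  have hd1 : ∀ y, HasDerivAt χ (deriv χ y) y := fun y => (d1.1 y).hasDerivAt
  have hd2 : ∀ y, HasDerivAt (deriv χ) (deriv (deriv χ) y) y := fun y => (d2.1 y).hasDerivAt
  have z0 : ∀ y, y < x → χ y = 0 := by
    intro y hy
    refine Real.smoothTransition.zero_of_nonpos ?_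
    refine div_nonpos_of_nonpos_of_nonneg ?_ ?_ <;> linarith
  have o0 : ∀ y, (x + r) / 2 < y → χ y = 1 := by
    intro y hy
    refine Real.smoothTransition.one_of_one_le ?_
    rw [le_div_iff₀ (by linarith)]
    linarith
  have z1 : ∀ y, y < x → deriv χ y = 0 := by
    intro y hy
    have : χ =ᶠ[nhds y] fun _ => 0 := by
      filter_upwards [Iio_mem_nhds hy] with w hw using z0 w hw
    rw [this.deriv_eq, deriv_const]
  have o1 : ∀ y, (x + r) / 2 < y → deriv χ y = 0 := by
    intro y hy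
    have : χ =ᶠ[nhds y] fun _ => 1 := by
      filter_upwards [Ioi_mem_nhds hy] with w hw using o0 w hw
    rw [this.deriv_eq, deriv_const]
  have z2 : ∀ y, y < x → deriv (deriv χ) y = 0 := by
    intro y hy
    have : deriv χ =ᶠ[nhds y] fun _ => 0 := by
      filter_upwards [Iio_mem_nhds hy] with w hw using z1 w hw
    rw [this.deriv_eq, deriv_const]
  have o2 : ∀ y, (x + r) / 2 < y → deriv (deriv χ) y = 0 := by
    intro y hy
    have : deriv χ =ᶠ[nhds y] fun _ => 0 := by
      filter_upwards [Ioi_mem_nhds hy] with w hw using o1 w hw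
    rw [this.deriv_eq, deriv_const]
  have cf1 : Continuous f1 := continuous_iff_continuousAt.mpr (fun x => (h2 x).continuousAt)
  have cf : Continuous f := continuous_iff_continuousAt.mpr (fun x => (h1 x).continuousAt)
  obtain ⟨e1, e2⟩ := h (fun y => χ y * f y) (fun y => deriv χ y * f y + χ y * f1 y)
    (fun y => (deriv (deriv χ) y * f y + deriv χ y * f1 y) + (deriv χ y * f1 y + χ y * f2 y))
    (fun y => (hd1 y).mul (h1 y))
    (fun y => ((hd2 y).mul (h1 y)).add ((hd1 y).mul (h2 y)))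
    (by
      have c2 : Continuous (deriv (deriv χ)) := d2.2.continuous
      have c1 : Continuous (deriv χ) := d1.2.continuous
      have c0 : Continuous χ := hχs.continuous
      fun_prop)
  have hae : ∀ᵐ y ∂φ, y < x ∨ r ≤ y := by
    rw [ae_iff]
    refine measure_mono_null (fun y hy => ?_) h0
    simp only [mem_ofPred_eq, not_or, not_lt, not_le] at hy
    exact hy
  constructor
  · rw [← integral_indicator measurableSet_Ici]
    rw [← e1]
    refine integral_congr_ae ?_
    filter_upwards [hae] with y hy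
    rcases hy with hy | hy
    · rw [Set.indicator_of_notMem (by simp only [mem_Ici, not_le]; linarith)]
      simp only [z0 y hy, z1 y hy]; ring
    · rw [Set.indicator_of_mem (by exact hy)]
      have hy' : (x + r) / 2 < y := by linarith
      simp only [o0 y hy', o1 y hy']; ring
  · rw [← integral_indicator measurableSet_Ici]
    rw [← e2]
    refine integral_congr_ae ?_
    filter_upwards [hae] with y hy
    rcases hy with hy | hy
    · rw [Set.indicator_of_notMem (by simp only [mem_Ici, not_le]; linarith)]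
      simp only [z0 y hy, z1 y hy, z2 y hy]; ring
    · rw [Set.indicator_of_mem (by exact hy)]
      have hy' : (x + r) / 2 < y := by linarith
      simp only [o0 y hy', o1 y hy', o2 y hy']; ring

theorem hasDerivAt_pp (n : ℕ) (z : ℝ) :
    HasDerivAt (fun z : ℝ => (max z 0) ^ (n + 2)) ((n + 2 : ℝ) * (max z 0) ^ (n + 1)) z := by
  rcases lt_trichotomy z 0 with h | h | h
  · have e : (fun z : ℝ => (max z 0) ^ (n + 2)) =ᶠ[nhds z] fun _ => 0 := by
      filter_upwards [Iio_mem_nhds h] with w hw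
      rw [max_eq_right (le_of_lt hw)]; simp
    rw [max_eq_right h.le]
    have := (hasDerivAt_const z (0 : ℝ)).congr_of_eventuallyEq e
    simpa using this
  · subst h
    have h1 : HasDerivWithinAt (fun z : ℝ => (max z 0) ^ (n + 2)) 0 (Iic 0) 0 := by
      refine (hasDerivWithinAt_const (0 : ℝ) (Iic 0) (0 : ℝ)).congr (fun w hw => ?_) (by simp)
      rw [max_eq_right hw]; simp
    have h2 : HasDerivWithinAt (fun z : ℝ => (max z 0) ^ (n + 2)) 0 (Ici 0) 0 := by
      have := (hasDerivAt_pow (n + 2) (0 : ℝ)).hasDerivWithinAt (s := Ici 0)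
      have h3 := this.congr (f₁ := fun z : ℝ => (max z 0) ^ (n + 2))
        (fun w hw => by rw [max_eq_left hw]) (by simp)
      simpa using h3
    have := h1.union h2
    rw [Iic_union_Ici, hasDerivWithinAt_univ] at this
    simpa using this
  · have e : (fun z : ℝ => (max z 0) ^ (n + 2)) =ᶠ[nhds z] fun z => z ^ (n + 2) := by
      filter_upwards [Ioi_mem_nhds h] with w hw
      rw [max_eq_left (le_of_lt hw)]
    rw [max_eq_left h.le]
    have := (hasDerivAt_pow (n + 2) z).congr_of_eventuallyEq e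
    simpa using this

theorem endpoint_key (ψ : Measure ℝ) [IsFiniteMeasure ψ] (r : ℝ) (hr : ψ (Iio r) = 0)
    (ω A B1 B2 : ℝ → ℝ) (cω : Continuous ω) (cA : Continuous A) (cB1 : Continuous B1)
    (cB2 : Continuous B2) (hω : ∀ y, r ≤ y → 0 ≤ ω y) (n : ℕ) (hA : A r ≠ 0)
    (hint : ∀ ε > 0, ∫ y, ω y * (A y * (max (r + ε - y) 0) ^ (n + 1)
      + B1 y * (max (r + ε - y) 0) ^ (n + 2) + B2 y * (max (r + ε - y) 0) ^ (n + 3)) ∂ψ = 0) :
    ∃ ε > 0, ψ {y | r ≤ y ∧ y < r + ε ∧ ω y ≠ 0} = 0 := by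
  set m : ℝ := |A r| / 2 with hm
  have m0 : 0 < m := by have := abs_pos.mpr hA; positivity
  set σ : ℝ := ((SignType.sign (A r) : SignType) : ℝ) with hσ
  have hσA : σ * A r = |A r| := by rw [hσ]; exact sign_mul_self _
  have hσ1 : |σ| ≤ 1 := by
    rw [hσ]
    rcases lt_trichotomy (A r) 0 with h | h | h
    · rw [sign_neg h]; simp
    · rw [h]; simp
    · rw [sign_pos h]; simp
  -- neighbourhood where σ A ≥ m
  obtain ⟨ε0, ε0pos, hε0⟩ : ∃ ε0 > 0, ∀ y, |y - r| < ε0 → m ≤ σ * A y := by
    have c1 : ContinuousAt (fun y => σ * A y) r := (continuous_const.mul cA).continuousAt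
    have h1 : m < σ * A r := by rw [hσA, hm]; have := abs_pos.mpr hA; linarith
    have h2 : ∀ᶠ y in nhds r, m < σ * A y := c1.eventually (lt_mem_nhds h1)
    obtain ⟨ε0, h3, h4⟩ := Metric.eventually_nhds_iff.mp h2
    exact ⟨ε0, h3, fun y hy => (h4 (by rw [Real.dist_eq]; exact hy)).le⟩
  obtain ⟨B, hB0, hB⟩ : ∃ B : ℝ, 0 ≤ B ∧ ∀ y ∈ Icc r (r + 1), |B1 y| ≤ B ∧ |B2 y| ≤ B := by
    have c1 : Continuous (fun y : ℝ => |B1 y| + |B2 y|) := by fun_prop
    obtain ⟨M, hM⟩ := (isCompact_Icc (a := r) (b := r + 1)).image c1 |>.bddAbove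
    refine ⟨max M 0, le_max_right _ _, fun x hx => ?_⟩
    have h1 : |B1 x| + |B2 x| ≤ M := hM ⟨x, hx, rfl⟩
    have := le_max_left M 0
    constructor
    · linarith [abs_nonneg (B2 x)]
    · linarith [abs_nonneg (B1 x)]
  set ε : ℝ := min (min 1 (ε0 / 2)) (m / (4 * (B + 1))) with hε
  have εpos : 0 < ε := by
    rw [hε]; positivity
  have ε1 : ε ≤ 1 := (min_le_left _ _).trans (min_le_left _ _)
  have ε2 : ε < ε0 := lt_of_le_of_lt ((min_le_left _ _).trans (min_le_right _ _)) (by linarith)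
  have ε3 : ε * (4 * (B + 1)) ≤ m := by
    have : ε ≤ m / (4 * (B + 1)) := min_le_right _ _
    rwa [le_div_iff₀ (by positivity)] at this
  refine ⟨ε, εpos, ?_⟩
  have hae : ∀ᵐ y ∂ψ, r ≤ y := by
    rw [ae_iff]
    refine measure_mono_null (fun y hy => ?_) hr
    exact not_le.mp hy
  have hInt : ∀ g : ℝ → ℝ, Continuous g → (∀ y, r + ε ≤ y → g y = 0) → Integrable g ψ := by
    intro g hg hz
    obtain ⟨M, hM⟩ := (isCompact_Icc (a := r) (b := r + ε)).image hg |>.isBounded.exists_norm_le
    refine Integrable.mono' (integrable_const (max M 0)) hg.aestronglyMeasurable ?_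
    filter_upwards [hae] with x hx
    by_cases hx2 : x ≤ r + ε
    · exact (hM _ ⟨x, ⟨hx, hx2⟩, rfl⟩).trans (le_max_left _ _)
    · rw [hz x (by linarith)]; simp
  have hpt : ∀ y, r ≤ y → m / 2 * (ω y * (max (r + ε - y) 0) ^ (n + 1)) ≤
      σ * (ω y * (A y * (max (r + ε - y) 0) ^ (n + 1)
      + B1 y * (max (r + ε - y) 0) ^ (n + 2) + B2 y * (max (r + ε - y) 0) ^ (n + 3))) := by
    intro y hy
    by_cases hy2 : y < r + ε
    · have z0 : 0 ≤ r + ε - y := by linarith
      rw [max_eq_left z0]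
      set z := r + ε - y with hz
      have zε : z ≤ ε := by linarith
      have hσAy : m ≤ σ * A y := hε0 y (by rw [abs_lt]; constructor <;> linarith)
      obtain ⟨b1, b2⟩ := hB y ⟨hy, by linarith⟩
      have hw := hω y hy
      have c1 : -(B * ε) ≤ σ * B1 y * z := by
        refine (abs_le.mp ?_).1
        rw [abs_mul, abs_mul, abs_of_nonneg z0]
        calc |σ| * |B1 y| * z ≤ 1 * B * ε := by gcongr
          _ = B * ε := by ring
      have c2 : -(B * ε) ≤ σ * B2 y * z ^ 2 := by
        refine (abs_le.mp ?_).1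
        rw [abs_mul, abs_mul, abs_of_nonneg (pow_nonneg z0 2)]
        have : z ^ 2 ≤ ε := by nlinarith
        calc |σ| * |B2 y| * z ^ 2 ≤ 1 * B * ε := by gcongr
          _ = B * ε := by ring
      have c3 : m / 2 ≤ σ * A y + σ * B1 y * z + σ * B2 y * z ^ 2 := by nlinarith
      have hp : 0 ≤ ω y * z ^ (n + 1) := mul_nonneg hw (pow_nonneg z0 _)
      calc m / 2 * (ω y * z ^ (n + 1))
          ≤ (σ * A y + σ * B1 y * z + σ * B2 y * z ^ 2) * (ω y * z ^ (n + 1)) :=
            mul_le_mul_of_nonneg_right c3 hp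
        _ = _ := by ring
    · have : r + ε - y ≤ 0 := by linarith
      rw [max_eq_right this]
      simp
  have i1 : Integrable (fun y => m / 2 * (ω y * (max (r + ε - y) 0) ^ (n + 1))) ψ := by
    refine hInt _ (by fun_prop) (fun y hy => ?_)
    rw [max_eq_right (by linarith)]; simp
  have i2 : Integrable (fun y => σ * (ω y * (A y * (max (r + ε - y) 0) ^ (n + 1)
      + B1 y * (max (r + ε - y) 0) ^ (n + 2) + B2 y * (max (r + ε - y) 0) ^ (n + 3)))) ψ := by
    refine hInt _ (by fun_prop) (fun y hy => ?_)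
    rw [max_eq_right (by linarith)]; simp
  have hle := integral_mono_ae i1 i2 (by filter_upwards [hae] with y hy using hpt y hy)
  rw [integral_const_mul, integral_const_mul, hint ε εpos, mul_zero] at hle
  have hnn : 0 ≤ᵐ[ψ] fun y => ω y * (max (r + ε - y) 0) ^ (n + 1) := by
    filter_upwards [hae] with y hy
    exact mul_nonneg (hω y hy) (pow_nonneg (le_max_right _ _) _)
  have i3 : Integrable (fun y => ω y * (max (r + ε - y) 0) ^ (n + 1)) ψ := by
    refine hInt _ (by fun_prop) (fun y hy => ?_)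
    rw [max_eq_right (by linarith)]; simp
  have hz : ∫ y, ω y * (max (r + ε - y) 0) ^ (n + 1) ∂ψ = 0 := by
    have h1 := integral_nonneg_of_ae hnn
    have h2 : m / 2 * ∫ y, ω y * (max (r + ε - y) 0) ^ (n + 1) ∂ψ ≤ 0 := hle
    have h3 : ∫ y, ω y * (max (r + ε - y) 0) ^ (n + 1) ∂ψ ≤ 0 := by
      by_contra hcon
      push Not at hcon
      have : 0 < m / 2 * ∫ y, ω y * (max (r + ε - y) 0) ^ (n + 1) ∂ψ := by positivity
      linarith
    exact le_antisymm h3 h1
  have hz2 := (integral_eq_zero_iff_of_nonneg_ae hnn i3).mp hz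
  have hz3 : ψ {y | ¬ (ω y * (max (r + ε - y) 0) ^ (n + 1) = 0)} = 0 := ae_iff.mp hz2
  refine measure_mono_null (fun y hy => ?_) hz3
  obtain ⟨h1, h2, h3⟩ := hy
  simp only [mem_ofPred_eq]
  have h4 : 0 < r + ε - y := by linarith
  rw [max_eq_left h4.le]
  exact mul_ne_zero h3 (pow_ne_zero _ h4.ne')

theorem left_endpoint {φ : Measure ℝ} [IsFiniteMeasure φ] {a b c d : ℝ[X]} (h : Ext φ a b c d)
    {x r : ℝ} (hxr : x < r) (h0 : φ (Ico x r) = 0)
    (hr : ∀ ε > 0, φ (Ioo (r - ε) (r + ε)) ≠ 0) :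
    a.eval r = 0 ∧ b.eval r = 0 ∧
      ((derivative a).eval r ≠ 0 → ∃ ε > 0, φ (Ioo r (r + ε)) = 0) := by
  have hE := h.restrict_Ici hxr h0
  set ψ := φ.restrict (Ici r) with hψ
  have ψ0 : ψ (Iio r) = 0 := by
    rw [hψ, Measure.restrict_apply measurableSet_Iio]
    convert measure_empty (μ := φ)
    ext y; simp
  have test : ∀ ε > 0, ∫ y, (a.eval y * (-4 * (max (r + ε - y) 0) ^ 3)
      + b.eval y * (max (r + ε - y) 0) ^ 4) ∂ψ = 0 ∧
      ∫ y, (b.eval y * (12 * (max (r + ε - y) 0) ^ 2) + c.eval y * (-4 * (max (r + ε - y) 0) ^ 3)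
        - d.eval y * (max (r + ε - y) 0) ^ 4) ∂ψ = 0 := by
    intro ε hε
    refine hE (fun y => (max (r + ε - y) 0) ^ 4) (fun y => -4 * (max (r + ε - y) 0) ^ 3)
      (fun y => 12 * (max (r + ε - y) 0) ^ 2) (fun y => ?_) (fun y => ?_) (by fun_prop)
    · have h1 := hasDerivAt_pp 2 (r + ε - y)
      have h2 : HasDerivAt (fun y : ℝ => r + ε - y) (-1) y := by
        simpa using (hasDerivAt_id y).const_sub (r + ε)
      have h3 := h1.comp y h2
      refine h3.congr_deriv ?_
      norm_num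
    · have h1 := hasDerivAt_pp 1 (r + ε - y)
      have h2 : HasDerivAt (fun y : ℝ => r + ε - y) (-1) y := by
        simpa using (hasDerivAt_id y).const_sub (r + ε)
      have h3 := (h1.comp y h2).const_mul (-4)
      refine h3.congr_deriv ?_
      norm_num; ring
  have nonull : ∀ ε > 0, ψ {y | r ≤ y ∧ y < r + ε ∧ (1 : ℝ) ≠ 0} = 0 → False := by
    intro ε hε h1
    refine hr (min (r - x) ε) (lt_min (by linarith) hε) ?_
    have h2 : φ (Ico r (r + ε)) = 0 := by
      rw [hψ, Measure.restrict_apply (by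
        have : {y | r ≤ y ∧ y < r + ε ∧ (1 : ℝ) ≠ 0} = Ico r (r + ε) := by ext y; simp
        rw [this]; exact measurableSet_Ico)] at h1
      refine measure_mono_null (fun y hy => ?_) h1
      exact ⟨⟨hy.1, hy.2, one_ne_zero⟩, hy.1⟩
    refine measure_mono_null (fun y hy => ?_) (measure_union_null h0 h2)
    by_cases hy2 : y < r
    · left
      refine ⟨?_, hy2⟩
      have := hy.1
      have := min_le_left (r - x) ε
      linarith
    · right
      refine ⟨not_lt.mp hy2, ?_⟩
      have := hy.2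
      have := min_le_right (r - x) ε
      linarith
  have ha : a.eval r = 0 := by
    by_contra hne
    obtain ⟨ε, hε, h1⟩ := endpoint_key ψ r ψ0 (fun _ => 1) (fun y => -4 * a.eval y)
      (fun y => b.eval y) (fun _ => 0) (by fun_prop) (by fun_prop) (by fun_prop) (by fun_prop)
      (fun _ _ => zero_le_one) 2 (by simpa using hne) (by
        intro ε hε
        refine (integral_congr_ae (Filter.Eventually.of_forall (fun y => ?_))).trans (test ε hε).1
        ring)
    exact nonull ε hε h1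
  have hb : b.eval r = 0 := by
    by_contra hne
    obtain ⟨ε, hε, h1⟩ := endpoint_key ψ r ψ0 (fun _ => 1) (fun y => 12 * b.eval y)
      (fun y => -4 * c.eval y) (fun y => - d.eval y) (by fun_prop) (by fun_prop) (by fun_prop)
      (by fun_prop) (fun _ _ => zero_le_one) 1 (by simpa using hne) (by
        intro ε hε
        refine (integral_congr_ae (Filter.Eventually.of_forall (fun y => ?_))).trans (test ε hε).2
        ring)
    exact nonull ε hε h1
  refine ⟨ha, hb, fun hda => ?_⟩
  obtain ⟨a', ha'⟩ := dvd_iff_isRoot.mpr ha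
  obtain ⟨b', hb'⟩ := dvd_iff_isRoot.mpr hb
  have ha'r : a'.eval r ≠ 0 := by
    rw [ha'] at hda
    simpa [derivative_mul] using hda
  obtain ⟨ε, hε, h1⟩ := endpoint_key ψ r ψ0 (fun y => y - r) (fun y => -4 * a'.eval y)
      (fun y => b'.eval y) (fun _ => 0) (by fun_prop) (by fun_prop) (by fun_prop) (by fun_prop)
      (fun y hy => by linarith) 2 (by simpa using ha'r) (by
        intro ε hε
        refine (integral_congr_ae (Filter.Eventually.of_forall (fun y => ?_))).trans (test ε hε).1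
        rw [ha', hb']
        simp only [eval_mul, eval_sub, eval_X, eval_C]
        ring)
  refine ⟨ε, hε, ?_⟩
  rw [hψ, Measure.restrict_apply'  measurableSet_Ici] at h1
  refine measure_mono_null (fun y hy => ?_) h1
  exact ⟨⟨hy.1.le, hy.2, by have := hy.1; exact (sub_pos.mpr this).ne'⟩, hy.1.le⟩

end Pool.Agent.W789.SOP
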