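import Pool.Agent.W789.SOP.Support

set_option autoImplicit false
open MeasureTheory Polynomial Set

namespace Pool.Agent.W789.SOP

/-- The Pearson operator of the weight `(q-x)^α (x-p)^β`. -/
noncomputable def prs (p q α β : ℝ) (h : ℝ[X]) : ℝ[X] :=
  (X - C p) * (C q - X) * derivative h + (C (β + 1) * (C q - X) - C (α + 1) * (X - C p)) * h

theorem prs_add (p q α β : ℝ) (h k : ℝ[X]) :
    prs p q α β (h + k) = prs p q α β h + prs p q α β k := by
  unfold prs; rw [derivative_add]; ring

theorem prs_C_mul (p q α β r : ℝ) (h : ℝ[X]) :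
    prs p q α β (C r * h) = C r * prs p q α β h := by
  unfold prs; rw [derivative_C_mul]; ring

def Pearson (p q α β : ℝ) (u : ℝ[X] →ₗ[ℝ] ℝ) : Prop := ∀ h : ℝ[X], u (prs p q α β h) = 0

theorem Pearson.unique {p q α β : ℝ} (hα : -1 < α) (hβ : -1 < β)
    {u : ℝ[X] →ₗ[ℝ] ℝ} (h : Pearson p q α β u) (h1 : u 1 = 0) : u = 0 := by
  have hE : ∀ k : ℕ, u ((C q - X) ^ k) = 0 := by
    intro k
    induction k with
    | zero => simpa using h1
    | succ k ih =>
      have h2 := h ((C q - X) ^ k)
      have e : prs p q α β ((C q - X) ^ k) = C ((k : ℝ) + α + β + 2) * (C q - X) ^ (k + 1)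
          - C (((k : ℝ) + α + 1) * (q - p)) * (C q - X) ^ k := by
        unfold prs
        have hd : derivative ((C q - X) ^ k : ℝ[X]) = - (C (k : ℝ) * (C q - X) ^ (k - 1)) := by
          rw [derivative_pow]
          simp
        rw [hd]
        rcases k with _ | k
        · simp only [C_add, C_mul, C_sub, C_1, pow_zero, Nat.cast_zero, C_0, map_ofNat C 2]; ring
        · simp only [C_add, C_mul, C_sub, C_1, Nat.add_sub_cancel, map_ofNat C 2]; ring
      rw [e, map_sub, C_mul', C_mul', map_smul, map_smul, ih, smul_zero, sub_zero, smul_eq_mul] at h2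
      have h3 : (k : ℝ) + α + β + 2 ≠ 0 := by
        have : (0 : ℝ) ≤ k := Nat.cast_nonneg k
        have : 0 < (k : ℝ) + α + β + 2 := by linarith
        exact this.ne'
      exact (mul_eq_zero.mp h2).resolve_left h3
  have hz : u ∘ₗ (aeval (C q - X : ℝ[X])).toLinearMap = 0 := by
    apply Polynomial.lhom_ext'
    intro k
    ext
    simp only [LinearMap.comp_apply, AlgHom.toLinearMap_apply, LinearMap.zero_apply,
      ← X_pow_eq_monomial, aeval_X_pow]
    exact hE k
  ext1 k
  ext
  have h4 := LinearMap.congr_fun hz ((C q - X) ^ k)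
  simp only [LinearMap.comp_apply, AlgHom.toLinearMap_apply, LinearMap.zero_apply, map_pow,
    map_sub, aeval_X, aeval_C] at h4
  have h5 : (algebraMap ℝ ℝ[X]) q - (C q - X) = X := by
    rw [algebraMap_eq]; ring
  rw [h5] at h4
  simp only [LinearMap.comp_apply, LinearMap.zero_apply, ← X_pow_eq_monomial]
  exact h4

theorem geom_bound (l : ℕ) {σ : ℝ} (h0 : 0 ≤ σ) (h1 : σ ≤ 1) :
    ((l : ℝ) + 1) * (1 - σ) * σ ^ l ≤ 1 := by
  have h2 : ((l : ℝ) + 1) * σ ^ l ≤ ∑ j ∈ Finset.range (l + 1), σ ^ j := by
    have : ∑ j ∈ Finset.range (l + 1), σ ^ l ≤ ∑ j ∈ Finset.range (l + 1), σ ^ j :=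
      Finset.sum_le_sum (fun j hj => pow_le_pow_of_le_one h0 h1
        (Nat.lt_succ_iff.mp (Finset.mem_range.mp hj)))
    simpa using this
  have h3 : (∑ j ∈ Finset.range (l + 1), σ ^ j) * (1 - σ) = 1 - σ ^ (l + 1) := by
    have := geom_sum_mul_neg σ (l + 1)
    exact this
  have h4 : 0 ≤ σ ^ (l + 1) := pow_nonneg h0 _
  have h5 := mul_le_mul_of_nonneg_right h2 (show 0 ≤ 1 - σ by linarith)
  nlinarith

theorem prs_zero_of_left {φ : Measure ℝ} (hφ : ∀ k : ℕ, Integrable (fun x : ℝ => x ^ k) φ)
    {p q α β : ℝ} (hpq : p < q) (hIoo : φ (Ioo p q)ᶜ = 0)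
    (hD : ∀ f, ev φ hφ (prs p q α β ((X - C p) * (C q - X) * f)) = 0) :
    ev φ hφ (prs p q α β (X - C p)) = 0 := by
  have hfin : IsFiniteMeasure φ := by
    have := hφ 0
    simp only [pow_zero] at this
    exact (integrable_const_iff_isFiniteMeasure (by norm_num)).mp this
  set L := q - p with hL
  have L0 : 0 < L := by linarith
  have step : ∀ l : ℕ, ev φ hφ (prs p q α β ((X - C p) ^ (l + 1)))
      = L ^ l * ev φ hφ (prs p q α β (X - C p)) := by
    intro l
    induction l with
    | zero => simp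
    | succ l ih =>
      have e : (X - C p : ℝ[X]) ^ (l + 1 + 1)
          = C L * (X - C p) ^ (l + 1) + C (-1) * ((X - C p) * (C q - X) * (X - C p) ^ l) := by
        simp only [hL, C_sub, C_neg, C_1]; ring
      rw [e, prs_add, prs_C_mul, prs_C_mul, map_add, C_mul', C_mul', map_smul, map_smul, hD, ih,
        smul_zero, add_zero, smul_eq_mul]
      ring
  set w := ev φ hφ (prs p q α β (X - C p)) with hw
  set Fl : ℕ → ℝ → ℝ := fun l x => (x - p) * (((l : ℝ) + 1) * (q - x) * ((x - p) / L) ^ l
    + ((β + 1) * (q - x) - (α + 1) * (x - p)) * ((x - p) / L) ^ l) with hFl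
  have hFint : ∀ l, ∫ x, Fl l x ∂φ = w := by
    intro l
    have h1 := step l
    have h2 : ev φ hφ (prs p q α β ((X - C p) ^ (l + 1))) = ∫ x, L ^ l * Fl l x ∂φ := by
      rw [ev_apply]
      refine integral_congr_ae (Filter.Eventually.of_forall (fun x => ?_))
      unfold prs
      simp only [hFl, eval_add, eval_mul, eval_sub, eval_X, eval_C, derivative_X_sub_C_pow,
        eval_pow, Nat.add_sub_cancel, div_pow]
      have : L ^ l ≠ 0 := by positivity
      push_cast
      field_simp
      ring
    rw [h2, integral_const_mul] at h1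
    exact mul_left_cancel₀ (show L ^ l ≠ 0 by positivity) h1
  have hlim : Filter.Tendsto (fun l => ∫ x, Fl l x ∂φ) Filter.atTop (nhds (∫ x, (0 : ℝ) ∂φ)) := by
    refine tendsto_integral_of_dominated_convergence
      (fun _ => L * (L + (|β + 1| * L + |α + 1| * L))) ?_ (integrable_const _) ?_ ?_
    · intro l
      exact (by fun_prop : Continuous (Fl l)).aestronglyMeasurable
    · intro l
      have : ∀ᵐ x ∂φ, x ∈ Ioo p q := by rw [ae_iff]; exact hIoo
      filter_upwards [this] with x hx
      obtain ⟨hx1, hx2⟩ := hx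
      have s0 : 0 ≤ x - p := by linarith
      have sL : x - p ≤ L := by linarith
      have t0 : 0 ≤ q - x := by linarith
      have tL : q - x ≤ L := by linarith
      have σ0 : 0 ≤ (x - p) / L := div_nonneg s0 L0.le
      have σ1 : (x - p) / L ≤ 1 := by rw [div_le_one L0]; exact sL
      have g1 := geom_bound l σ0 σ1
      have g2 : (1 - (x - p) / L) = (q - x) / L := by
        field_simp; rw [hL]; ring
      have g3 : ((l : ℝ) + 1) * (q - x) * ((x - p) / L) ^ l ≤ L := by
        rw [g2] at g1
        have : ((l : ℝ) + 1) * (q - x) * ((x - p) / L) ^ l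
            = L * (((l : ℝ) + 1) * ((q - x) / L) * ((x - p) / L) ^ l) := by
          field_simp
        rw [this]
        nlinarith
      have g4 : 0 ≤ ((l : ℝ) + 1) * (q - x) * ((x - p) / L) ^ l := by positivity
      have g5 : ((x - p) / L) ^ l ≤ 1 := pow_le_one₀ σ0 σ1
      have g6 : 0 ≤ ((x - p) / L) ^ l := pow_nonneg σ0 _
      rw [hFl, Real.norm_eq_abs, abs_mul, abs_of_nonneg s0]
      refine mul_le_mul sL ?_ (abs_nonneg _) L0.le
      refine (abs_add_le _ _).trans (add_le_add ?_ ?_)
      · rw [abs_of_nonneg g4]; exact g3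
      · rw [abs_mul, abs_of_nonneg g6]
        refine (mul_le_of_le_one_right (abs_nonneg _) g5).trans ?_
        refine (abs_sub _ _).trans (add_le_add ?_ ?_)
        · rw [abs_mul, abs_of_nonneg t0]
          exact mul_le_mul_of_nonneg_left tL (abs_nonneg _)
        · rw [abs_mul, abs_of_nonneg s0]
          exact mul_le_mul_of_nonneg_left sL (abs_nonneg _)
    · have : ∀ᵐ x ∂φ, x ∈ Ioo p q := by rw [ae_iff]; exact hIoo
      filter_upwards [this] with x hx
      obtain ⟨hx1, hx2⟩ := hx
      have s0 : 0 ≤ x - p := by linarith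
      have σ0 : 0 ≤ (x - p) / L := div_nonneg s0 L0.le
      have σ1 : (x - p) / L < 1 := by rw [div_lt_one L0]; linarith
      have l1 := tendsto_self_mul_const_pow_of_lt_one σ0 σ1
      have l2 := tendsto_pow_atTop_nhds_zero_of_lt_one σ0 σ1
      have e : (fun l : ℕ => Fl l x) = fun l : ℕ => (x - p) * (q - x) * ((l : ℝ) * ((x - p) / L) ^ l)
          + ((x - p) * (q - x) + (x - p) * ((β + 1) * (q - x) - (α + 1) * (x - p)))
            * ((x - p) / L) ^ l := by
        ext l; rw [hFl]; ring
      rw [e]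
      have := (l1.const_mul ((x - p) * (q - x))).add (l2.const_mul ((x - p) * (q - x)
        + (x - p) * ((β + 1) * (q - x) - (α + 1) * (x - p))))
      simpa using this
  simp only [hFint, integral_zero] at hlim
  exact tendsto_nhds_unique tendsto_const_nhds hlim

theorem prs_zero_of_right {φ : Measure ℝ} (hφ : ∀ k : ℕ, Integrable (fun x : ℝ => x ^ k) φ)
    {p q α β : ℝ} (hpq : p < q) (hIoo : φ (Ioo p q)ᶜ = 0)
    (hD : ∀ f, ev φ hφ (prs p q α β ((X - C p) * (C q - X) * f)) = 0) :
    ev φ hφ (prs p q α β (C q - X)) = 0 := by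
  have hfin : IsFiniteMeasure φ := by
    have := hφ 0
    simp only [pow_zero] at this
    exact (integrable_const_iff_isFiniteMeasure (by norm_num)).mp this
  set L := q - p with hL
  have L0 : 0 < L := by linarith
  have step : ∀ l : ℕ, ev φ hφ (prs p q α β ((C q - X) ^ (l + 1)))
      = L ^ l * ev φ hφ (prs p q α β (C q - X)) := by
    intro l
    induction l with
    | zero => simp
    | succ l ih =>
      have e : (C q - X : ℝ[X]) ^ (l + 1 + 1)
          = C L * (C q - X) ^ (l + 1) + C (-1) * ((X - C p) * (C q - X) * (C q - X) ^ l) := by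
        simp only [hL, C_sub, C_neg, C_1]; ring
      rw [e, prs_add, prs_C_mul, prs_C_mul, map_add, C_mul', C_mul', map_smul, map_smul, hD, ih,
        smul_zero, add_zero, smul_eq_mul]
      ring
  set w := ev φ hφ (prs p q α β (C q - X)) with hw
  set Fl : ℕ → ℝ → ℝ := fun l x => (q - x) * (-(((l : ℝ) + 1) * (x - p) * ((q - x) / L) ^ l)
    + ((β + 1) * (q - x) - (α + 1) * (x - p)) * ((q - x) / L) ^ l) with hFl
  have hFint : ∀ l, ∫ x, Fl l x ∂φ = w := by
    intro l
    have h1 := step l
    have h2 : ev φ hφ (prs p q α β ((C q - X) ^ (l + 1))) = ∫ x, L ^ l * Fl l x ∂φ := by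
      rw [ev_apply]
      refine integral_congr_ae (Filter.Eventually.of_forall (fun x => ?_))
      unfold prs
      have hd : derivative ((C q - X) ^ (l + 1) : ℝ[X])
          = - (C ((l : ℝ) + 1) * (C q - X) ^ l) := by
        rw [derivative_pow]
        simp
      rw [hd]
      simp only [hFl, eval_add, eval_mul, eval_sub, eval_X, eval_C, eval_neg, eval_pow, div_pow]
      have : L ^ l ≠ 0 := by positivity
      field_simp
      ring
    rw [h2, integral_const_mul] at h1
    exact mul_left_cancel₀ (show L ^ l ≠ 0 by positivity) h1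
  have hlim : Filter.Tendsto (fun l => ∫ x, Fl l x ∂φ) Filter.atTop (nhds (∫ x, (0 : ℝ) ∂φ)) := by
    refine tendsto_integral_of_dominated_convergence
      (fun _ => L * (L + (|β + 1| * L + |α + 1| * L))) ?_ (integrable_const _) ?_ ?_
    · intro l
      exact (by fun_prop : Continuous (Fl l)).aestronglyMeasurable
    · intro l
      have : ∀ᵐ x ∂φ, x ∈ Ioo p q := by rw [ae_iff]; exact hIoo
      filter_upwards [this] with x hx
      obtain ⟨hx1, hx2⟩ := hx
      have s0 : 0 ≤ x - p := by linarith
      have sL : x - p ≤ L := by linarith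
      have t0 : 0 ≤ q - x := by linarith
      have tL : q - x ≤ L := by linarith
      have σ0 : 0 ≤ (q - x) / L := div_nonneg t0 L0.le
      have σ1 : (q - x) / L ≤ 1 := by rw [div_le_one L0]; exact tL
      have g1 := geom_bound l σ0 σ1
      have g2 : (1 - (q - x) / L) = (x - p) / L := by
        field_simp; rw [hL]; ring
      have g3 : ((l : ℝ) + 1) * (x - p) * ((q - x) / L) ^ l ≤ L := by
        rw [g2] at g1
        have : ((l : ℝ) + 1) * (x - p) * ((q - x) / L) ^ l
            = L * (((l : ℝ) + 1) * ((x - p) / L) * ((q - x) / L) ^ l) := by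
          field_simp
        rw [this]
        nlinarith
      have g4 : 0 ≤ ((l : ℝ) + 1) * (x - p) * ((q - x) / L) ^ l := by positivity
      have g5 : ((q - x) / L) ^ l ≤ 1 := pow_le_one₀ σ0 σ1
      have g6 : 0 ≤ ((q - x) / L) ^ l := pow_nonneg σ0 _
      rw [hFl, Real.norm_eq_abs, abs_mul, abs_of_nonneg t0]
      refine mul_le_mul tL ?_ (abs_nonneg _) L0.le
      refine (abs_add_le _ _).trans (add_le_add ?_ ?_)
      · rw [abs_neg, abs_of_nonneg g4]; exact g3
      · rw [abs_mul, abs_of_nonneg g6]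
        refine (mul_le_of_le_one_right (abs_nonneg _) g5).trans ?_
        refine (abs_sub _ _).trans (add_le_add ?_ ?_)
        · rw [abs_mul, abs_of_nonneg t0]
          exact mul_le_mul_of_nonneg_left tL (abs_nonneg _)
        · rw [abs_mul, abs_of_nonneg s0]
          exact mul_le_mul_of_nonneg_left sL (abs_nonneg _)
    · have : ∀ᵐ x ∂φ, x ∈ Ioo p q := by rw [ae_iff]; exact hIoo
      filter_upwards [this] with x hx
      obtain ⟨hx1, hx2⟩ := hx
      have s0 : 0 ≤ q - x := by linarith
      have σ0 : 0 ≤ (q - x) / L := div_nonneg s0 L0.le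
      have σ1 : (q - x) / L < 1 := by rw [div_lt_one L0]; linarith
      have l1 := tendsto_self_mul_const_pow_of_lt_one σ0 σ1
      have l2 := tendsto_pow_atTop_nhds_zero_of_lt_one σ0 σ1
      have e : (fun l : ℕ => Fl l x) = fun l : ℕ =>
          (-((q - x) * (x - p))) * ((l : ℝ) * ((q - x) / L) ^ l)
          + (-((q - x) * (x - p)) + (q - x) * ((β + 1) * (q - x) - (α + 1) * (x - p)))
            * ((q - x) / L) ^ l := by
        ext l; rw [hFl]; ring
      rw [e]
      have := (l1.const_mul (-((q - x) * (x - p)))).add (l2.const_mul (-((q - x) * (x - p))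
        + (q - x) * ((β + 1) * (q - x) - (α + 1) * (x - p))))
      simpa using this
  simp only [hFint, integral_zero] at hlim
  exact tendsto_nhds_unique tendsto_const_nhds hlim

theorem pearson_of_interior {φ : Measure ℝ} (hφ : ∀ k : ℕ, Integrable (fun x : ℝ => x ^ k) φ)
    {p q α β : ℝ} (hpq : p < q) (hIoo : φ (Ioo p q)ᶜ = 0)
    (hD : ∀ f, ev φ hφ (prs p q α β ((X - C p) * (C q - X) * f)) = 0) :
    Pearson p q α β (ev φ hφ) := by
  have h1 := prs_zero_of_left hφ hpq hIoo hD
  have h2 := prs_zero_of_right hφ hpq hIoo hD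
  intro h
  have hL : q - p ≠ 0 := by linarith
  obtain ⟨f, hf⟩ : ∃ f, h - (C (h.eval p / (q - p)) * (C q - X) + C (h.eval q / (q - p)) * (X - C p))
      = (X - C p) * (X - C q) * f := by
    refine (isCoprime_X_sub_C_of_isUnit_sub ((sub_ne_zero.mpr hpq.ne).isUnit)).mul_dvd
      (dvd_iff_isRoot.mpr ?_) (dvd_iff_isRoot.mpr ?_)
    · simp only [IsRoot.def, eval_sub, eval_add, eval_mul, eval_C, eval_X]
      field_simp; ring
    · simp only [IsRoot.def, eval_sub, eval_add, eval_mul, eval_C, eval_X]
      field_simp; ring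
  have e : h = C (h.eval p / (q - p)) * (C q - X) + (C (h.eval q / (q - p)) * (X - C p)
      + (X - C p) * (C q - X) * (-f)) := by
    linear_combination hf
  rw [e, prs_add, prs_add, prs_C_mul, prs_C_mul, map_add, map_add, C_mul', C_mul', map_smul,
    map_smul, h1, h2, hD]
  simp

end Pool.Agent.W789.SOP
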