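import Pool.Agent.W789.SOP.Jacobi

set_option autoImplicit false
open MeasureTheory Polynomial Set

namespace Pool.Agent.W789.SOP

theorem decomp {φ : Measure ℝ} [IsFiniteMeasure φ] {p q : ℝ} (hpq : p < q)
    (h1 : φ (Iio p) = 0) (h2 : φ (Ioi q) = 0) {f : ℝ → ℝ} (hf : Integrable f φ) :
    ∫ x, f x ∂φ = ∫ x in Ioo p q, f x ∂φ + φ.real {p} * f p + φ.real {q} * f q := by
  have hr : φ.restrict (Icc p q) = φ := by
    apply Measure.restrict_eq_self_of_ae_mem
    rw [ae_iff]
    refine measure_mono_null (t := Iio p ∪ Ioi q) ?_ (measure_union_null h1 h2)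
    intro x hx
    simp only [mem_ofPred_eq, mem_Icc, not_and_or, not_le] at hx
    exact hx
  have hset : Icc p q = (Ioo p q ∪ {p}) ∪ {q} := by
    ext x
    simp only [mem_Icc, mem_union, mem_Ioo, mem_singleton_iff]
    constructor
    · rintro ⟨h3, h4⟩
      rcases h3.eq_or_lt with h5 | h5
      · exact Or.inl (Or.inr h5.symm)
      · rcases h4.eq_or_lt with h6 | h6
        · exact Or.inr h6
        · exact Or.inl (Or.inl ⟨h5, h6⟩)
    · rintro ((⟨h3, h4⟩ | h3) | h3)
      · exact ⟨h3.le, h4.le⟩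
      · subst h3; exact ⟨le_rfl, hpq.le⟩
      · subst h3; exact ⟨hpq.le, le_rfl⟩
  calc ∫ x, f x ∂φ = ∫ x in Icc p q, f x ∂φ := by rw [hr]
    _ = _ := by
      rw [hset, setIntegral_union _ (measurableSet_singleton q) hf.integrableOn hf.integrableOn,
        setIntegral_union _ (measurableSet_singleton p) hf.integrableOn hf.integrableOn,
        integral_singleton, integral_singleton, smul_eq_mul, smul_eq_mul]
      · rw [disjoint_singleton_right]; simp
      · rw [disjoint_singleton_right]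
        simp only [mem_union, mem_Ioo, lt_self_iff_false, and_false, mem_singleton_iff, false_or]
        exact hpq.ne'

theorem restrict_poly {φ : Measure ℝ} (hφ : ∀ k : ℕ, Integrable (fun x : ℝ => x ^ k) φ)
    (s : Set ℝ) (k : ℕ) : Integrable (fun x : ℝ => x ^ k) (φ.restrict s) := (hφ k).restrict

theorem ev_decomp {φ : Measure ℝ} [IsFiniteMeasure φ] {p q : ℝ} (hpq : p < q)
    (hφ : ∀ k : ℕ, Integrable (fun x : ℝ => x ^ k) φ)
    (h1 : φ (Iio p) = 0) (h2 : φ (Ioi q) = 0) (f : ℝ[X]) :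
    ev φ hφ f = ev (φ.restrict (Ioo p q)) (restrict_poly hφ _) f + φ.real {p} * f.eval p
      + φ.real {q} * f.eval q := by
  rw [ev_apply, ev_apply]
  exact decomp hpq h1 h2 (int_poly hφ f)

theorem ev_pos {φ : Measure ℝ} (hφ : ∀ k : ℕ, Integrable (fun x : ℝ => x ^ k) φ)
    (hinf : ∀ s : Finset ℝ, φ ((↑s : Set ℝ)ᶜ) ≠ 0) {f : ℝ[X]} (hf : f ≠ 0)
    (hnn : ∀ᵐ x ∂φ, 0 ≤ f.eval x) : 0 < ev φ hφ f := by
  rw [ev_apply, integral_pos_iff_support_of_nonneg_ae hnn (int_poly hφ f)]
  rw [pos_iff_ne_zero]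
  intro h0
  apply hinf f.roots.toFinset
  refine measure_mono_null ?_ h0
  intro x hx
  simp only [Function.mem_support, ne_eq]
  intro hx0
  apply hx
  simp [hf, hx0]

theorem inf_interior {φ : Measure ℝ} {p q : ℝ} 
    (hinf : ∀ s : Finset ℝ, φ ((↑s : Set ℝ)ᶜ) ≠ 0)
    (h1 : φ (Iio p) = 0) (h2 : φ (Ioi q) = 0) (s : Finset ℝ) :
    (φ.restrict (Ioo p q)) ((↑s : Set ℝ)ᶜ) ≠ 0 := by
  rw [Measure.restrict_apply (Finset.measurableSet s).compl]
  intro h0
  apply hinf (insert p (insert q s))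
  refine measure_mono_null (t := ((↑s : Set ℝ)ᶜ ∩ Ioo p q) ∪ (Iio p ∪ Ioi q)) ?_
    (measure_union_null h0 (measure_union_null h1 h2))
  intro x hx
  simp only [Finset.coe_insert, mem_compl_iff, mem_insert_iff, Finset.mem_coe, not_or] at hx
  obtain ⟨hxp, hxq, hxs⟩ := hx
  rcases lt_or_gt_of_ne hxp with h | h
  · exact Or.inr (Or.inl h)
  · rcases lt_or_gt_of_ne hxq with h' | h'
    · exact Or.inl ⟨hxs, h, h'⟩
    · exact Or.inr (Or.inr h')

/-- Positivity of the parameters. -/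
theorem param_pos {φ : Measure ℝ} (hφ : ∀ k : ℕ, Integrable (fun x : ℝ => x ^ k) φ)
    (hinf : ∀ s : Finset ℝ, φ ((↑s : Set ℝ)ᶜ) ≠ 0) {p q α β : ℝ}
    (hIoo : φ (Ioo p q)ᶜ = 0) (hP : Pearson p q α β (ev φ hφ)) : -1 < α ∧ -1 < β := by
  have hae : ∀ᵐ x ∂φ, x ∈ Ioo p q := by rw [ae_iff]; exact hIoo
  have hpos : ∀ k l : ℕ, 0 < ev φ hφ ((C q - X) ^ k * (X - C p) ^ l) := by
    intro k l
    apply ev_pos hφ hinf
    · apply mul_ne_zero
      · apply pow_ne_zero
        rw [← neg_sub, neg_ne_zero]; exact X_sub_C_ne_zero q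
      · exact pow_ne_zero _ (X_sub_C_ne_zero p)
    · filter_upwards [hae] with x hx
      simp only [eval_mul, eval_pow, eval_sub, eval_C, eval_X]
      exact mul_nonneg (pow_nonneg (by linarith [hx.2]) _) (pow_nonneg (by linarith [hx.1]) _)
  constructor
  · obtain ⟨l, hl⟩ := exists_nat_gt (-(β + 1))
    have h := hP ((X - C p) ^ (l + 1))
    have e : prs p q α β ((X - C p) ^ (l + 1))
        = C ((l : ℝ) + 1 + β + 1) * ((C q - X) ^ 1 * (X - C p) ^ (l + 1))
          + C (-(α + 1)) * ((C q - X) ^ 0 * (X - C p) ^ (l + 2)) := by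
      unfold prs
      rw [derivative_pow, Nat.add_sub_cancel]
      simp only [derivative_sub, derivative_X, derivative_C, sub_zero, mul_one, Nat.cast_add,
        Nat.cast_one, C_add, C_neg, C_1, map_natCast]
      ring
    rw [e, map_add, C_mul', C_mul', map_smul, map_smul, smul_eq_mul, smul_eq_mul] at h
    by_contra hα
    have h3 := mul_pos (show 0 < (l : ℝ) + 1 + β + 1 by linarith) (hpos 1 (l + 1))
    have h4 := mul_nonneg (show 0 ≤ -(α + 1) by linarith) (hpos 0 (l + 2)).le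
    linarith
  · obtain ⟨l, hl⟩ := exists_nat_gt (-(α + 1))
    have h := hP ((C q - X) ^ (l + 1))
    have e : prs p q α β ((C q - X) ^ (l + 1))
        = C (-((l : ℝ) + 1 + α + 1)) * ((C q - X) ^ (l + 1) * (X - C p) ^ 1)
          + C (β + 1) * ((C q - X) ^ (l + 2) * (X - C p) ^ 0) := by
      unfold prs
      rw [derivative_pow, Nat.add_sub_cancel]
      simp only [derivative_sub, derivative_X, derivative_C, zero_sub, mul_neg, mul_one, Nat.cast_add,
        Nat.cast_one, C_add, C_neg, C_1, map_natCast]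
      ring
    rw [e, map_add, C_mul', C_mul', map_smul, map_smul, smul_eq_mul, smul_eq_mul] at h
    by_contra hβ
    have h3 := mul_pos (show 0 < (l : ℝ) + 1 + α + 1 by linarith) (hpos (l + 1) 1)
    have h4 := mul_nonneg (show 0 ≤ -(β + 1) by linarith) (hpos (l + 2) 0).le
    linarith

end Pool.Agent.W789.SOP
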