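import Pool.Agent.W789.SOP.Star

set_option autoImplicit false
open MeasureTheory Polynomial

namespace Pool.Agent.W789.SOP

theorem poly5 {p5 p4 p3 p2 p1 p0 : ℝ}
    (h : ∀ x : ℝ, p5 * x ^ 5 + p4 * x ^ 4 + p3 * x ^ 3 + p2 * x ^ 2 + p1 * x + p0 = 0) :
    p5 = 0 ∧ p4 = 0 ∧ p3 = 0 ∧ p2 = 0 ∧ p1 = 0 ∧ p0 = 0 := by
  have h0 := h 0
  have h1 := h 1
  have h2 := h (-1)
  have h3 := h 2
  have h4 := h (-2)
  have h5 := h 3
  norm_num at h0 h1 h2 h3 h4 h5
  refine ⟨?_, ?_, ?_, ?_, ?_, ?_⟩ <;> linarith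

theorem u_CX (u : ℝ[X] →ₗ[ℝ] ℝ) (r : ℝ) (k : ℕ) : u (C r * X ^ k) = r * u (X ^ k) := by
  rw [C_mul', map_smul, smul_eq_mul]

theorem quad_coeffs {u : ℝ[X] →ₗ[ℝ] ℝ} {ρ β γ c1 c0 d1 d0 δ : ℝ}
    (h : Sys u (X ^ 2 - C δ) (C ρ * X ^ 2 + C β * X + C γ)
      (C (ρ ^ 2) * X ^ 2 + C c1 * X + C c0) (C d1 * X + C d0)) (T3 T2 T1 T0 : ℝ)
    (hT3 : T3 = 2 * ρ * β - c1) (hT2 : T2 = β ^ 2 - β + 2 * ρ * γ - c0 + δ * ρ ^ 2)
    (hT1 : T1 = 2 * β * γ - 2 * γ - 2 * ρ * δ + δ * c1)
    (hT0 : T0 = γ ^ 2 - β * δ + δ * c0) :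
    ρ * T3 = d1 ∧ (β - 1) * T3 + ρ * T2 = d0 ∧
    (β - 2) * T2 + γ * T3 + ρ * T1 = - 2 * δ * d1 ∧
    (β - 3) * T1 - 3 * δ * T3 + γ * T2 + ρ * T0 = - 2 * δ * d0 ∧
    - 2 * δ * T2 + γ * T1 + (β - 4) * T0 = δ ^ 2 * d1 ∧
    - δ * T1 + γ * T0 = δ ^ 2 * d0 := by
  have da : derivative (X ^ 2 - C δ : ℝ[X]) = C 2 * X := by
    rw [derivative_sub, derivative_C, derivative_X_pow]; norm_num
  have db : derivative (C ρ * X ^ 2 + C β * X + C γ : ℝ[X]) = C (2 * ρ) * X + C β := by
    simp only [derivative_add, derivative_C, derivative_C_mul, derivative_X_pow, derivative_X]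
    simp only [C_mul]
    norm_num
    rw [map_ofNat C 2]; ring
  have hT : (C T3 * X ^ 3 + C T2 * X ^ 2 + C T1 * X + C T0 : ℝ[X])
      = (C ρ * X ^ 2 + C β * X + C γ) ^ 2 - (C ρ * X ^ 2 + C β * X + C γ) * derivative (X ^ 2 - C δ)
        + (X ^ 2 - C δ) * derivative (C ρ * X ^ 2 + C β * X + C γ)
        - (X ^ 2 - C δ) * (C (ρ ^ 2) * X ^ 2 + C c1 * X + C c0) := by
    rw [da, db, hT3, hT2, hT1, hT0]
    simp only [C_mul, C_sub, C_add, C_pow]
    rw [map_ofNat C 2]
    ring
  have st := h.star hT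
  have dT : derivative (C T3 * X ^ 3 + C T2 * X ^ 2 + C T1 * X + C T0 : ℝ[X])
      = C (3 * T3) * X ^ 2 + C (2 * T2) * X + C T1 := by
    simp only [derivative_add, derivative_C, derivative_C_mul, derivative_X_pow, derivative_X]
    simp only [C_mul]
    norm_num
    rw [map_ofNat C 2, map_ofNat C 3]; ring
  rw [dT, da] at st
  have key := @poly5 (ρ * T3 - d1) ((β - 1) * T3 + ρ * T2 - d0)
    ((β - 2) * T2 + γ * T3 + ρ * T1 + 2 * δ * d1)
    ((β - 3) * T1 - 3 * δ * T3 + γ * T2 + ρ * T0 + 2 * δ * d0)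
    (- 2 * δ * T2 + γ * T1 + (β - 4) * T0 - δ ^ 2 * d1)
    (- δ * T1 + γ * T0 - δ ^ 2 * d0) (by
      intro x
      have := congrArg (fun P : ℝ[X] => P.eval x) st
      simp only [eval_add, eval_mul, eval_sub, eval_pow, eval_X, eval_C, eval_ofNat] at this
      linear_combination this)
  obtain ⟨k1, k2, k3, k4, k5, k6⟩ := key
  refine ⟨?_, ?_, ?_, ?_, ?_, ?_⟩ <;> linarith

theorem quad_core {u : ℝ[X] →ₗ[ℝ] ℝ} {ρ β γ c1 c0 d1 d0 δ : ℝ} (hρ : ρ ≠ 0)
    (h : Sys u (X ^ 2 - C δ) (C ρ * X ^ 2 + C β * X + C γ)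
      (C (ρ ^ 2) * X ^ 2 + C c1 * X + C c0) (C d1 * X + C d0)) :
    (∃ θ : ℝ, ∀ k : ℕ, ((k : ℝ) + θ) * u (X ^ k) + ρ * u (X ^ (k + 1)) = 0) ∨
    (∀ k : ℕ, 1 ≤ k → ((k : ℝ) + 1) * u (X ^ k) + ρ * u (X ^ (k + 1)) = 0) := by
  obtain ⟨T3, hT3⟩ : ∃ T3 : ℝ, T3 = 2 * ρ * β - c1 := ⟨_, rfl⟩
  obtain ⟨T2, hT2⟩ : ∃ T2 : ℝ, T2 = β ^ 2 - β + 2 * ρ * γ - c0 + δ * ρ ^ 2 := ⟨_, rfl⟩
  obtain ⟨T1, hT1⟩ : ∃ T1 : ℝ, T1 = 2 * β * γ - 2 * γ - 2 * ρ * δ + δ * c1 := ⟨_, rfl⟩
  obtain ⟨T0, hT0⟩ : ∃ T0 : ℝ, T0 = γ ^ 2 - β * δ + δ * c0 := ⟨_, rfl⟩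
  obtain ⟨q1, q2, q3, q4, q5, q6⟩ := quad_coeffs h T3 T2 T1 T0 hT3 hT2 hT1 hT0
  set s : ℕ → ℝ := fun k => u (X ^ k) with hs
  have s0pos : 0 < s 0 := by
    have := h.pos 1 one_ne_zero
    simpa [hs] using this
  have sq : ∀ t : ℝ, 0 < s 2 + 2 * t * s 1 + t ^ 2 * s 0 := by
    intro t
    have h1 := h.pos (X + C t) (X_add_C_ne_zero t)
    have e : (X + C t) * (X + C t) = C 1 * X ^ 2 + C (2 * t) * X ^ 1 + C (t ^ 2) * X ^ 0 := by
      simp only [C_mul, C_pow, C_1, map_ofNat C 2]; ring
    rw [e, map_add, map_add, u_CX, u_CX, u_CX] at h1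
    simpa [hs] using h1
  have s2pos : 0 < s 2 := by
    have := sq 0
    simpa using this
  have A0 : ρ * s 2 + β * s 1 + γ * s 0 = 0 := by
    have h1 := h.eqA 1
    have e : (X ^ 2 - C δ) * derivative 1 + (C ρ * X ^ 2 + C β * X + C γ) * 1
      = C ρ * X ^ 2 + C β * X ^ 1 + C γ * X ^ 0 := by
      rw [derivative_one]; ring
    rw [e, map_add, map_add, u_CX, u_CX, u_CX] at h1
    exact h1
  have A1 : s 2 - δ * s 0 + ρ * s 3 + β * s 2 + γ * s 1 = 0 := by
    have h1 := h.eqA X
    have e : (X ^ 2 - C δ) * derivative X + (C ρ * X ^ 2 + C β * X + C γ) * X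
      = C ρ * X ^ 3 + C (1 + β) * X ^ 2 + C γ * X ^ 1 + C (-δ) * X ^ 0 := by
      rw [derivative_X]; simp only [C_add, C_1, C_neg]; ring
    rw [e, map_add, map_add, map_add, u_CX, u_CX, u_CX, u_CX] at h1
    change ρ * s 3 + (1 + β) * s 2 + γ * s 1 + (-δ) * s 0 = 0 at h1
    linarith
  have B0 : d1 * s 1 + d0 * s 0 = 0 := by
    have h1 := h.eqB 1
    have e : (C ρ * X ^ 2 + C β * X + C γ) * derivative (derivative 1)
        + (C (ρ ^ 2) * X ^ 2 + C c1 * X + C c0) * derivative 1 - (C d1 * X + C d0) * 1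
      = C (-d1) * X ^ 1 + C (-d0) * X ^ 0 := by
      rw [derivative_one]; simp only [derivative_zero, C_neg]; ring
    rw [e, map_add, u_CX, u_CX] at h1
    change (-d1) * s 1 + (-d0) * s 0 = 0 at h1
    linarith
  have B1 : (ρ ^ 2 - d1) * s 2 + (c1 - d0) * s 1 + c0 * s 0 = 0 := by
    have h1 := h.eqB X
    have e : (C ρ * X ^ 2 + C β * X + C γ) * derivative (derivative X)
        + (C (ρ ^ 2) * X ^ 2 + C c1 * X + C c0) * derivative X - (C d1 * X + C d0) * X
      = C (ρ ^ 2 - d1) * X ^ 2 + C (c1 - d0) * X ^ 1 + C c0 * X ^ 0 := by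
      rw [derivative_X, derivative_one]; simp only [C_sub, C_pow]; ring
    rw [e, map_add, map_add, u_CX, u_CX, u_CX] at h1
    exact h1
  have B2 : 2 * (ρ * s 2 + β * s 1 + γ * s 0) + 2 * (ρ ^ 2 * s 3 + c1 * s 2 + c0 * s 1)
      - (d1 * s 3 + d0 * s 2) = 0 := by
    have h1 := h.eqB (X ^ 2)
    have dX2 : derivative (X ^ 2 : ℝ[X]) = C 2 * X := by
      rw [derivative_X_pow]; norm_num
    have e : (C ρ * X ^ 2 + C β * X + C γ) * derivative (derivative (X ^ 2))
        + (C (ρ ^ 2) * X ^ 2 + C c1 * X + C c0) * derivative (X ^ 2) - (C d1 * X + C d0) * X ^ 2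
      = C (2 * ρ ^ 2 - d1) * X ^ 3 + C (2 * ρ + 2 * c1 - d0) * X ^ 2 + C (2 * β + 2 * c0) * X ^ 1
        + C (2 * γ) * X ^ 0 := by
      rw [dX2, derivative_C_mul, derivative_X]
      simp only [C_sub, C_pow, C_mul, C_add, map_ofNat C 2]; ring
    rw [e, map_add, map_add, map_add, u_CX, u_CX, u_CX, u_CX] at h1
    change (2 * ρ ^ 2 - d1) * s 3 + (2 * ρ + 2 * c1 - d0) * s 2 + (2 * β + 2 * c0) * s 1
        + (2 * γ) * s 0 = 0 at h1
    linarith
  -- the reduced constant term
  obtain ⟨g, hg⟩ : ∃ g : ℝ, g = γ + ρ * δ := ⟨_, rfl⟩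
  have eT1 : T1 = 2 * (β - 1) * g - δ * T3 := by rw [hT1, hT3, hg]; ring
  have eT0 : T0 = g ^ 2 + δ * β * (β - 2) - δ * T2 := by rw [hT0, hT2, hg]; ring
  have ec1 : c1 = 2 * ρ * β - T3 := by linarith
  have ec0 : c0 = β ^ 2 - β + 2 * ρ * γ + δ * ρ ^ 2 - T2 := by linarith
  have eγ : γ = g - ρ * δ := by linarith
  -- the four identities
  have i3 : (β - 2) * δ * T3 + g * T2 + (β - 3) * (2 * (β - 1) * g)
      + ρ * (g ^ 2 + δ * β * (β - 2)) = 0 := by
    rw [eT1, eT0, eγ, ← q2] at q4
    linear_combination q4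
  have i4 : (β - 2) * T2 + g * T3 + ρ * (2 * (β - 1) * g) = 0 := by
    rw [eT1, eγ, ← q1] at q3
    linear_combination q3
  have i2 : (β - 2) * (3 * g ^ 2 + δ * β * (β - 4)) = 0 := by
    rw [eT1, eT0, eγ, ← q1] at q5
    linear_combination q5 + δ * i4
  have i1 : g * (2 * (β - 1) * (β - 4) * δ + g ^ 2 + δ * β * (β - 2)) = 0 := by
    rw [eT1, eT0, eγ, ← q2] at q6
    linear_combination q6 + δ * i3
  by_cases hδ : δ = 0
  · -- the case of a double root
    have g0 : g = 0 := by
      rw [hδ] at i1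
      have : g ^ 3 = 0 := by linear_combination i1
      exact pow_eq_zero_iff (by norm_num) |>.mp this
    have γ0 : γ = 0 := by rw [eγ, g0, hδ]; ring
    have hAk : ∀ k : ℕ, ((k : ℝ) + β) * s (k + 1) + ρ * s (k + 2) = 0 := by
      intro k
      have h1 := h.eqA (X ^ k)
      have e : (X ^ 2 - C δ) * derivative (X ^ k) + (C ρ * X ^ 2 + C β * X + C γ) * X ^ k
        = C ((k : ℝ) + β) * X ^ (k + 1) + C ρ * X ^ (k + 2) := by
        rw [hδ, γ0, derivative_X_pow]
        rcases k with _ | k
        · simp; ring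
        · simp only [Nat.add_sub_cancel, C_0, C_add]; ring
      rw [e, map_add, u_CX, u_CX] at h1
      exact h1
    by_cases hβ : β = 2
    · right
      intro k hk
      obtain ⟨j, rfl⟩ : ∃ j, k = j + 1 := ⟨k - 1, by omega⟩
      have := hAk j
      rw [hβ] at this
      push_cast
      linear_combination this
    · left
      refine ⟨β - 1, ?_⟩
      have hT20 : T2 = 0 := by
        rw [g0] at i4
        have : (β - 2) * T2 = 0 := by linear_combination i4
        rcases mul_eq_zero.mp this with h1 | h1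
        · exact absurd (by linarith) hβ
        · exact h1
      have hb : β ≠ 0 := by
        intro hb
        rw [hb, γ0] at A0
        have : ρ * s 2 = 0 := by linear_combination A0
        rcases mul_eq_zero.mp this with h1 | h1
        · exact hρ h1
        · exact s2pos.ne' h1
      have k0 : (β - 1) * s 0 + ρ * s 1 = 0 := by
        have h1 : β * ((β - 1) * s 0 + ρ * s 1) = 0 := by
          rw [γ0] at A0 ec0
          rw [ec1, ec0, ← q1, ← q2, hT20, hδ] at B1
          linear_combination B1 - (ρ - T3) * A0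
        rcases mul_eq_zero.mp h1 with h2 | h2
        · exact absurd h2 hb
        · exact h2
      intro k
      rcases k with _ | k
      · simp only [Nat.cast_zero, zero_add]
        exact k0
      · have := hAk k
        push_cast
        linear_combination this
  · exfalso
    by_cases hg : g = 0
    · rw [hg] at i2 i3 i4 eγ
      have hc : β = 2 ∨ β = 0 ∨ β = 4 := by
        have : (β - 2) * (δ * (β * (β - 4))) = 0 := by linear_combination i2
        rcases mul_eq_zero.mp this with h1 | h1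
        · left; linarith
        · rcases mul_eq_zero.mp h1 with h2 | h2
          · exact absurd h2 hδ
          · rcases mul_eq_zero.mp h2 with h3 | h3
            · right; left; exact h3
            · right; right; linarith
      rcases hc with hβ | hβ | hβ
      · subst hβ
        have : 4 * ρ * δ * s 0 = 0 := by
          rw [ec1, ec0, ← q1, ← q2, eγ] at B2
          rw [← q1, ← q2] at B0
          rw [eγ] at A0 A1
          linear_combination B2 - 2 * A0 + δ * B0 - (2 * ρ - T3) * A1 + (T2 - 2) * A0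
        have h2 : 4 * ρ * δ * s 0 ≠ 0 := by positivity
        exact h2 this
      · subst hβ
        have m : ∀ k : ℕ, u ((X ^ 2 - C δ) * X ^ k) = 0 := by
          have e : ∀ k : ℕ, (k : ℝ) * u ((X ^ 2 - C δ) * X ^ (k - 1))
              + ρ * u ((X ^ 2 - C δ) * X ^ k) = 0 := by
            intro k
            have h1 := h.eqA (X ^ k)
            have e : (X ^ 2 - C δ) * derivative (X ^ k) + (C ρ * X ^ 2 + C 0 * X + C γ) * X ^ k
              = C (k : ℝ) * ((X ^ 2 - C δ) * X ^ (k - 1)) + C ρ * ((X ^ 2 - C δ) * X ^ k) := by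
              rw [eγ, derivative_X_pow]
              simp only [C_0, C_sub, C_mul]; ring
            rw [e, map_add, C_mul', C_mul', map_smul, map_smul, smul_eq_mul, smul_eq_mul] at h1
            exact h1
          intro k
          induction k with
          | zero =>
            have := e 0
            simp only [Nat.cast_zero, zero_mul, zero_add] at this
            exact (mul_eq_zero.mp this).resolve_left hρ
          | succ k ih =>
            have := e (k + 1)
            simp only [Nat.add_sub_cancel] at this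
            rw [ih, mul_zero, zero_add] at this
            exact (mul_eq_zero.mp this).resolve_left hρ
        refine h.ane (h.eq_zero (fun q => ?_))
        have hz : u ∘ₗ LinearMap.mulLeft ℝ (X ^ 2 - C δ) = 0 := by
          apply Polynomial.lhom_ext'
          intro k
          ext
          simp only [LinearMap.comp_apply, LinearMap.mulLeft_apply, LinearMap.zero_apply,
            ← X_pow_eq_monomial]
          exact m k
        exact LinearMap.congr_fun hz q
      · subst hβ
        have t3 : T3 = -4 * ρ := by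
          have : δ * (T3 + 4 * ρ) = 0 := by linear_combination i3 / 2
          rcases mul_eq_zero.mp this with h1 | h1
          · exact absurd h1 hδ
          · linarith
        have t2 : T2 = 0 := by linarith
        have : 4 * ρ ^ 2 * δ * s 0 = 0 := by
          rw [ec1, ec0, ← q1, ← q2, eγ, t3, t2] at B1
          rw [← q1, ← q2, t3, t2] at B0
          rw [eγ] at A0
          have b0 : ρ * s 1 = -3 * s 0 := by
            have : ρ * (ρ * s 1 + 3 * s 0) = 0 := by linear_combination (-1 / 4) * B0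
            rcases mul_eq_zero.mp this with h1 | h1
            · exact absurd h1 hρ
            · linarith
          linear_combination B1 - 5 * ρ * A0 - 4 * b0
        have h2 : 4 * ρ ^ 2 * δ * s 0 ≠ 0 := by positivity
        exact h2 this
    · have i1' : 2 * (β - 1) * (β - 4) * δ + g ^ 2 + δ * β * (β - 2) = 0 :=
        (mul_eq_zero.mp i1).resolve_left hg
      have hc : β = 2 ∨ β = 1 ∨ β = 3 := by
        rcases mul_eq_zero.mp i2 with h1 | h1
        · left; linarith
        · have : δ * ((β - 1) * (β - 3)) = 0 := by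
            linear_combination (3 / 8) * i1' - (1 / 8) * h1
          rcases mul_eq_zero.mp this with h2 | h2
          · exact absurd h2 hδ
          · rcases mul_eq_zero.mp h2 with h3 | h3
            · right; left; linarith
            · right; right; linarith
      rcases hc with hβ | hβ | hβ
      · subst hβ
        have hgd : g ^ 2 = 4 * δ := by linarith
        have t2 : T2 = 2 - ρ * g := by
          have : g * (T2 - 2 + ρ * g) = 0 := by linear_combination i3
          rcases mul_eq_zero.mp this with h1 | h1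
          · exact absurd h1 hg
          · linarith
        have t3 : T3 = -2 * ρ := by
          have : g * (T3 + 2 * ρ) = 0 := by linear_combination i4
          rcases mul_eq_zero.mp this with h1 | h1
          · exact absurd h1 hg
          · linarith
        have b0 : 2 * s 1 + g * s 0 = 0 := by
          rw [← q1, ← q2, t3, t2] at B0
          have : ρ ^ 2 * (2 * s 1 + g * s 0) = 0 := by linear_combination - B0
          rcases mul_eq_zero.mp this with h1 | h1
          · exact absurd h1 (pow_ne_zero 2 hρ)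
          · exact h1
        have e2 : s 2 = δ * s 0 := by
          rw [eγ] at A0
          have : ρ * (s 2 - δ * s 0) = 0 := by linear_combination A0 - b0
          rcases mul_eq_zero.mp this with h1 | h1
          · exact absurd h1 hρ
          · linarith
        have h3 := sq (g / 2)
        have : s 2 + 2 * (g / 2) * s 1 + (g / 2) ^ 2 * s 0 = 0 := by
          linear_combination e2 + (g / 2) * b0 - (1 / 4) * s 0 * hgd
        linarith
      · subst hβ
        have hgd : g ^ 2 = δ := by linarith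
        have t2 : T2 = g * T3 := by
          have : g * (T2 - g * T3) = 0 := by
            rw [← hgd] at i3
            linear_combination i3
          rcases mul_eq_zero.mp this with h1 | h1
          · exact absurd h1 hg
          · linarith
        have b0 : s 1 + g * s 0 = 0 := by
          by_contra hne
          rw [ec1, ec0, ← q1, ← q2, eγ, t2, ← hgd] at B1
          rw [← q1, ← q2, t2] at B0
          rw [eγ, ← hgd] at A0
          have h1 : T3 * (ρ * (s 1 + g * s 0)) = 0 := by linear_combination B0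
          have h2 : T3 = 0 := by
            rcases mul_eq_zero.mp h1 with h3 | h3
            · exact h3
            · exact absurd h3 (mul_ne_zero hρ hne)
          have h3 : ρ * ((1 - g * T3) * (s 1 + g * s 0)) = 0 := by
            linear_combination B1 - (ρ - T3) * A0
          rw [h2] at h3
          have : ρ * (s 1 + g * s 0) = 0 := by linear_combination h3
          exact (mul_ne_zero hρ hne) this
        have e2 : s 2 = δ * s 0 := by
          rw [eγ] at A0
          have : ρ * (s 2 - δ * s 0) = 0 := by linear_combination A0 - b0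
          rcases mul_eq_zero.mp this with h1 | h1
          · exact absurd h1 hρ
          · linarith
        have h3 := sq g
        have : s 2 + 2 * g * s 1 + g ^ 2 * s 0 = 0 := by
          linear_combination e2 + (2 * g) * b0 - s 0 * hgd
        linarith
      · subst hβ
        have hgd : g ^ 2 = δ := by linarith
        have t2 : T2 = -g * T3 - 4 * ρ * g := by linear_combination i4
        rw [ec1, ec0, ← q1, ← q2, eγ, t2, ← hgd] at B1 B2
        rw [← q1, ← q2, t2] at B0
        rw [eγ, ← hgd] at A0 A1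
        have E0 : T3 * (ρ * (s 1 - g * s 0) + 2 * s 0) = 4 * ρ ^ 2 * g * s 0 := by
          linear_combination B0
        have hne : ρ * (s 1 - g * s 0) + 2 * s 0 ≠ 0 := by
          intro h0
          rw [h0, mul_zero] at E0
          have : 4 * ρ ^ 2 * g * s 0 ≠ 0 := by positivity
          exact this E0.symm
        have E1 : (4 * g * ρ + 3 + 2 * g * T3) * (ρ * (s 1 - g * s 0) + 2 * s 0) = 0 := by
          linear_combination B1 + g * B0 - (ρ - T3) * A0
        have E1' : 4 * g * ρ + 3 + 2 * g * T3 = 0 := (mul_eq_zero.mp E1).resolve_right hne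
        have E2 : (4 * g * ρ + 4 + 2 * g * T3) * (ρ * (s 2 - 2 * g * s 1 + g ^ 2 * s 0)
            + 3 * (s 1 - g * s 0)) = 0 := by
          linear_combination B2 - 2 * g * B1 - g ^ 2 * B0 - 2 * A0 - (2 * ρ - T3) * (A1 - g * A0)
        have E2' : ρ * (s 2 - 2 * g * s 1 + g ^ 2 * s 0) + 3 * (s 1 - g * s 0) = 0 := by
          rcases mul_eq_zero.mp E2 with h1 | h1
          · linarith
          · exact h1
        have : g * (ρ * (s 1 - g * s 0) + 2 * s 0) = 0 := by
          linear_combination (1 / 2) * A0 - (1 / 2) * E2'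
        rcases mul_eq_zero.mp this with h1 | h1
        · exact hg h1
        · exact hne h1

end Pool.Agent.W789.SOP
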