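import Pool.Agent.W789.SOP.Masses

set_option autoImplicit false
open MeasureTheory Polynomial Set

namespace Pool.Agent.W789.SOP

theorem lin_ext (x0 : ℝ) {u v : ℝ[X] →ₗ[ℝ] ℝ}
    (h : ∀ k : ℕ, u ((X - C x0) ^ k) = v ((X - C x0) ^ k)) : u = v := by
  ext1 k
  have key : ∀ f : ℝ[X], u f = v f := by
    intro f
    rw [← sum_taylor_eq f x0, Polynomial.sum_def, map_sum, map_sum]
    apply Finset.sum_congr rfl
    intro i _
    rw [C_mul', map_smul, map_smul, h]
  ext1
  exact key _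

/-- The functional `f ↦ ∫ f(a x + b) dμ`. -/
noncomputable def evc (μ : Measure ℝ) (hμ : ∀ k : ℕ, Integrable (fun x : ℝ => x ^ k) μ)
    (a b : ℝ) : ℝ[X] →ₗ[ℝ] ℝ where
  toFun f := ev μ hμ (f.comp (C a * X + C b))
  map_add' f g := by rw [add_comp, map_add]
  map_smul' r f := by rw [smul_comp, map_smul]; rfl

theorem evc_apply (μ : Measure ℝ) (hμ : ∀ k : ℕ, Integrable (fun x : ℝ => x ^ k) μ)
    (a b : ℝ) (f : ℝ[X]) : evc μ hμ a b f = ev μ hμ (f.comp (C a * X + C b)) := rfl

theorem evc_pow (μ : Measure ℝ) (hμ : ∀ k : ℕ, Integrable (fun x : ℝ => x ^ k) μ)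
    (a b : ℝ) (k : ℕ) : evc μ hμ a b ((X - C b) ^ k) = a ^ k * ev μ hμ (X ^ k) := by
  rw [evc_apply]
  have : ((X - C b : ℝ[X]) ^ k).comp (C a * X + C b) = C (a ^ k) * X ^ k := by
    rw [pow_comp, sub_comp, X_comp, C_comp, C_pow]
    ring
  rw [this, C_mul', map_smul, smul_eq_mul]

theorem good_of {φ μ : Measure ℝ} {p : ℕ → ℝ[X]}
    (hdeg : ∀ n : ℕ, (p n).degree = ((n : ℕ) : WithBot ℕ))
    (orth : ∀ n m : ℕ, n ≠ m → ∫ x, (p n).eval x * (p m).eval x ∂φ = 0)
    (hne : ∀ n : ℕ, ∫ x, (p n).eval x * (p n).eval x ∂φ ≠ 0)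
    {a b c : ℝ} (ha : a ≠ 0) (hc : c ≠ 0)
    (hμ : ∀ f : ℝ[X], ∫ x, (f.comp (C a * X + C b)).eval x ∂μ = c * ∫ x, f.eval x ∂φ) :
    ∃ a b : ℝ, a ≠ 0 ∧
        (∀ n : ℕ, ((p n).comp (Polynomial.C a * Polynomial.X + Polynomial.C b)).degree
            = ((n : ℕ) : WithBot ℕ)) ∧
        (∀ n m : ℕ, n ≠ m →
          ∫ x, ((p n).comp (Polynomial.C a * Polynomial.X + Polynomial.C b)).eval x
            * ((p m).comp (Polynomial.C a * Polynomial.X + Polynomial.C b)).eval x ∂μ = 0) ∧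
        (∀ n : ℕ,
          ∫ x, ((p n).comp (Polynomial.C a * Polynomial.X + Polynomial.C b)).eval x
            * ((p n).comp (Polynomial.C a * Polynomial.X + Polynomial.C b)).eval x ∂μ ≠ 0) := by
  have hmul : ∀ n m : ℕ, ∫ x, ((p n).comp (C a * X + C b)).eval x
            * ((p m).comp (C a * X + C b)).eval x ∂μ
            = c * ∫ x, (p n).eval x * (p m).eval x ∂φ := by
    intro n m
    have := hμ (p n * p m)
    rw [mul_comp] at this
    simpa only [eval_mul] using this
  refine ⟨a, b, ha, ?_, ?_, ?_⟩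
  · intro n
    have h1 : (C a * X + C b : ℝ[X]).natDegree = 1 := natDegree_linear ha
    have h2 : (p n).natDegree = n := natDegree_eq_of_degree_eq_some (hdeg n)
    have h3 : ((p n).comp (C a * X + C b)).natDegree = n := by
      rw [natDegree_comp, h1, h2, mul_one]
    have h4 : (p n).comp (C a * X + C b) ≠ 0 := by
      intro h0
      rcases Nat.eq_zero_or_pos n with hn | hn
      · subst hn
        rw [eq_C_of_natDegree_eq_zero h2, C_comp] at h0
        have : (p 0) = 0 := by rw [eq_C_of_natDegree_eq_zero h2, h0]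
        have h5 := hdeg 0
        rw [this] at h5
        simp at h5
      · rw [h0, natDegree_zero] at h3
        omega
    rw [degree_eq_natDegree h4, h3]
  · intro n m hnm
    rw [hmul, orth n m hnm, mul_zero]
  · intro n
    rw [hmul]
    exact mul_ne_zero hc (hne n)

theorem meas_ind {S : Set ℝ} (hS : MeasurableSet S) {w : ℝ → ℝ} (hw : Measurable w) :
    Measurable (fun x => ENNReal.ofReal (S.indicator w x)) :=
  (hw.indicator hS).ennreal_ofReal

theorem ind_int {S : Set ℝ} (hS : MeasurableSet S) {w : ℝ → ℝ} (hw : Measurable w)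
    (hw0 : ∀ x ∈ S, 0 ≤ w x) (f : ℝ → ℝ) :
    ∫ x, f x ∂(volume.withDensity (fun x => ENNReal.ofReal (S.indicator w x)))
      = ∫ x in S, w x * f x := by
  rw [integral_withDensity_eq_integral_toReal_smul (meas_ind hS hw)
    (Filter.Eventually.of_forall fun x => ENNReal.ofReal_lt_top), ← integral_indicator hS]
  congr 1
  ext x
  rw [ENNReal.toReal_ofReal (indicator_nonneg hw0 x), smul_eq_mul]
  by_cases hx : x ∈ S
  · simp [hx]
  · simp [hx]

theorem ind_integrable {S : Set ℝ} (hS : MeasurableSet S) {w : ℝ → ℝ} (hw : Measurable w)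
    (hw0 : ∀ x ∈ S, 0 ≤ w x) {f : ℝ → ℝ} (hf : IntegrableOn (fun x => w x * f x) S) :
    Integrable f (volume.withDensity (fun x => ENNReal.ofReal (S.indicator w x))) := by
  rw [integrable_withDensity_iff_integrable_smul' (meas_ind hS hw)
    (Filter.Eventually.of_forall fun x => ENNReal.ofReal_lt_top)]
  rw [← integrable_indicator_iff hS] at hf
  refine hf.congr (Filter.Eventually.of_forall fun x => ?_)
  simp only []
  rw [ENNReal.toReal_ofReal (indicator_nonneg hw0 x), smul_eq_mul]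
  by_cases hx : x ∈ S
  · simp [hx]
  · simp [hx]

end Pool.Agent.W789.SOP
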